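import Pool.Agent.PCV.ADefs

/-!
# [PCX] exact index for polynomials without zeros in the ball: definitions

Throughout `Fin m → ℂ` carries its usual (maximum) norm `‖·‖` and Lebesgue measure; `nw w = 1 + ∑ ‖w i‖²` (`PCV.nw`).
-/

open MeasureTheory Set Filter Topology

namespace PCX

open PCV

open Classical in
/-- the product of the distances from `c` to the other elements of `S` (with multiplicity) -/
noncomputable def sep (S : Multiset ℂ) (c : ℂ) : ℝ := ((S.erase c).map fun l => ‖c - l‖).prod

/-- the polynomial `∏_{c ∈ S} (1 - c X)` -/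
noncomputable def QS (S : Multiset ℂ) : Polynomial ℂ :=
  (S.map fun c => 1 - Polynomial.C c * Polynomial.X).prod

/-- a holomorphic family of monic polynomials of degree `D`, whose roots have modulus at most `|(1,w)|` -/
structure PFam (m D : ℕ) (P : (Fin m → ℂ) → Polynomial ℂ) : Prop where
  monic : ∀ w, (P w).Monic
  deg : ∀ w, (P w).natDegree = D
  hol : AnalyticOnNhd ℂ (fun p : (Fin m → ℂ) × ℂ => (P p.1).eval p.2) Set.univ
  hol' : AnalyticOnNhd ℂ (fun p : (Fin m → ℂ) × ℂ => (P p.1).derivative.eval p.2) Set.univ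
  bound : ∀ w, ∀ b ∈ (P w).roots, ‖b‖ ≤ Real.sqrt (nw w)

/-- the Euler operator `∑ z_i ∂/∂z_i` -/
noncomputable def eul {d : ℕ} (f : MvPolynomial (Fin d) ℂ) : MvPolynomial (Fin d) ℂ :=
  ∑ i, MvPolynomial.X i * MvPolynomial.pderiv i f

end PCX
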