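import Pool.Agent.PCX.Defs

/-!
# [PCX-X1] the weight inequality

`eval_QS`: evaluation is multiplicative (`Polynomial.eval_multiset_prod`).

`weight`: write `x_c = 1 - c t` (`‖x_c‖ ≤ 2`, `≠ 0`), `Π_c = ∏_{l ∈ S.erase c} ‖x_l‖`.
`D = 0`: `QS S = 1`, the left side is `0` or `1`; any `C ≥ 1`.  Let `D ≥ 1` and let `j ∈ S` have minimal `‖x_j‖`
(`Multiset.exists_min_image` or `Finset.exists_min_image` on `S.toFinset`).  `S = j ::ₘ S.erase j`.
* `‖(QS S).eval t‖ = ‖x_j‖ Π_j`, `Π_j ≥ ‖x_j‖^(D-1)`.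
* `(QS S)' = ∑_{c ∈ S} (QS (S.erase c)) * (-C c)` (`Polynomial.derivative_prod`), the term of `j` is bounded by `Π_j`, all
  the others contain the factor `x_j` and are bounded by `2^D ‖x_j‖` (`‖c‖, ‖t‖ ≤ 1`); better: `QS S = (1 - C j X) * QS S'`
  with `S' = S.erase j`, so `(QS S)'(t) = -j (QS S')(t) + x_j (QS S')'(t)` and
  `‖(QS S')'(t)‖ ≤ D 2^D` for all multisets of at most `D` numbers in the unit disc (induction).
  So `‖t (QS S)'(t)‖ ≤ Π_j + D 2^D ‖x_j‖`, and with `(a+b)^(2N) ≤ 2^(2N) (a^(2N) + b^(2N))`: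
  left side `≤ C (Π_j^(2N) + ‖x_j‖^(2N)) (‖x_j‖ Π_j)^(-2p) ≤ C Π_j^(2N-2p) ‖x_j‖^(-2p) + C ‖x_j‖^(2N - 2pD)`, and the last
  term is `≤ C` because `pD ≤ N`, `‖x_j‖ ≤ 2`.
* For every `l`: `x_l = x_j + (j - l) t`, so `‖x_l‖ ≤ ‖x_j‖ + ‖j - l‖`; multiply out over `l ∈ S.erase j` (induction on
  the multiset, all factors `≤ 4`): `Π_j ≤ sep S j + 4^D ‖x_j‖`.  Hence
  `Π_j^(2N-2p) ≤ C (sep S j ^ (2(N-p)) + ‖x_j‖^(2N-2p))` and `2N - 2p ≥ 2p`:
  `Π_j^(2N-2p) ‖x_j‖^(-2p) ≤ C sep S j ^ (2(N-p)) ‖x_j‖^(-2p) + C`.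
* the term of `j` is at most the sum over `S` of the nonnegative terms (`Multiset.single_le_sum`).
-/

open MeasureTheory Set Filter Topology

namespace PCX

theorem eval_QS (S : Multiset ℂ) (t : ℂ) : (QS S).eval t = (S.map fun c => 1 - c * t).prod := by
  unfold QS
  rw [Polynomial.eval_multiset_prod, Multiset.map_map]
  congr 1
  apply Multiset.map_congr rfl
  intro c _
  simp

theorem x1_QS_cons (c : ℂ) (S : Multiset ℂ) :
    QS (c ::ₘ S) = (1 - Polynomial.C c * Polynomial.X) * QS S := by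
  unfold QS
  rw [Multiset.map_cons, Multiset.prod_cons]

theorem x1_norm_le {c t : ℂ} (hc : ‖c‖ ≤ 1) (ht : ‖t‖ ≤ 1) : ‖1 - c * t‖ ≤ 2 := by
  have h1 : ‖c * t‖ ≤ 1 := by
    rw [norm_mul]
    exact mul_le_one₀ hc (norm_nonneg _) ht
  calc ‖1 - c * t‖ ≤ ‖(1 : ℂ)‖ + ‖c * t‖ := norm_sub_le _ _
    _ ≤ 1 + 1 := by rw [norm_one]; gcongr
    _ = 2 := by norm_num

theorem x1_dbound (S : Multiset ℂ) (t : ℂ) (ht : ‖t‖ ≤ 1) : (∀ c ∈ S, ‖c‖ ≤ 1) →
    ‖(QS S).eval t‖ ≤ 2 ^ Multiset.card S ∧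
    ‖(QS S).derivative.eval t‖ ≤ Multiset.card S * 2 ^ Multiset.card S := by
  induction S using Multiset.induction with
  | empty =>
    intro _
    simp [QS]
  | cons c S ih =>
    intro hc
    obtain ⟨ih1, ih2⟩ := ih (fun c' hc' => hc c' (Multiset.mem_cons_of_mem hc'))
    have hc1 := hc c (Multiset.mem_cons_self c S)
    have hx := x1_norm_le hc1 ht
    rw [x1_QS_cons, Multiset.card_cons]
    set n := Multiset.card S
    have e1 : ((1 - Polynomial.C c * Polynomial.X) * QS S).eval t = (1 - c * t) * (QS S).eval t := by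
      simp
    have e2 : ((1 - Polynomial.C c * Polynomial.X) * QS S).derivative.eval t =
        -c * (QS S).eval t + (1 - c * t) * (QS S).derivative.eval t := by
      simp
    rw [e1, e2]
    constructor
    · rw [norm_mul, pow_succ, mul_comm ((2 : ℝ) ^ n) 2]
      gcongr
    · have h1 : ‖-c * (QS S).eval t‖ ≤ 2 ^ n := by
        rw [norm_mul, norm_neg]
        calc ‖c‖ * ‖(QS S).eval t‖ ≤ 1 * 2 ^ n := by gcongr
          _ = 2 ^ n := one_mul _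
      have h2 : ‖(1 - c * t) * (QS S).derivative.eval t‖ ≤ 2 * (n * 2 ^ n) := by
        rw [norm_mul]
        gcongr
      refine (norm_add_le _ _).trans ((add_le_add h1 h2).trans ?_)
      push_cast
      rw [pow_succ]
      have : (0 : ℝ) < 2 ^ n := by positivity
      nlinarith

theorem x1_prod_le (j t : ℂ) (hj : ‖j‖ ≤ 1) (ht : ‖t‖ ≤ 1) (S : Multiset ℂ) : (∀ c ∈ S, ‖c‖ ≤ 1) →
    (S.map fun l => ‖1 - l * t‖).prod ≤ (S.map fun l => ‖j - l‖).prod +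
      4 ^ Multiset.card S * ‖1 - j * t‖ ∧ (S.map fun l => ‖1 - l * t‖).prod ≤ 2 ^ Multiset.card S ∧
    0 ≤ (S.map fun l => ‖1 - l * t‖).prod ∧ 0 ≤ (S.map fun l => ‖j - l‖).prod := by
  induction S using Multiset.induction with
  | empty =>
    intro _
    simp
  | cons c S ih =>
    intro hc
    obtain ⟨ih1, ih2, ih3, ih4⟩ := ih (fun c' hc' => hc c' (Multiset.mem_cons_of_mem hc'))
    have hc1 := hc c (Multiset.mem_cons_self c S)
    have hx := x1_norm_le hc1 ht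
    rw [Multiset.map_cons, Multiset.prod_cons, Multiset.map_cons, Multiset.prod_cons,
      Multiset.card_cons]
    set n := Multiset.card S
    set A := (S.map fun l => ‖1 - l * t‖).prod
    set P := (S.map fun l => ‖j - l‖).prod
    set x := ‖1 - j * t‖
    have hx0 : 0 ≤ x := norm_nonneg _
    have ha : ‖1 - c * t‖ ≤ x + ‖j - c‖ := by
      have e1 : 1 - c * t = (1 - j * t) + (j - c) * t := by ring
      rw [e1]
      refine (norm_add_le _ _).trans ?_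
      gcongr
      rw [norm_mul]
      calc ‖j - c‖ * ‖t‖ ≤ ‖j - c‖ * 1 := by gcongr
        _ = ‖j - c‖ := mul_one _
    have hb : ‖j - c‖ ≤ 2 := by
      calc ‖j - c‖ ≤ ‖j‖ + ‖c‖ := norm_sub_le _ _
        _ ≤ 1 + 1 := by gcongr
        _ = 2 := by norm_num
    have hb0 := norm_nonneg (j - c)
    have ha0 := norm_nonneg (1 - c * t)
    have h24 : (2 : ℝ) ^ n ≤ 4 ^ n := by gcongr; norm_num
    have h4 : (0 : ℝ) < 4 ^ n := by positivity
    refine ⟨?_, ?_, mul_nonneg ha0 ih3, mul_nonneg hb0 ih4⟩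
    · calc ‖1 - c * t‖ * A ≤ (x + ‖j - c‖) * A := by gcongr
        _ = x * A + ‖j - c‖ * A := by ring
        _ ≤ x * 2 ^ n + ‖j - c‖ * (P + 4 ^ n * x) := by gcongr
        _ = ‖j - c‖ * P + (2 ^ n * x + ‖j - c‖ * (4 ^ n * x)) := by ring
        _ ≤ ‖j - c‖ * P + (4 ^ n * x + 2 * (4 ^ n * x)) := by gcongr
        _ ≤ ‖j - c‖ * P + 4 ^ (n + 1) * x := by
          rw [pow_succ]
          nlinarith [mul_nonneg h4.le hx0]
    · rw [pow_succ, mul_comm ((2 : ℝ) ^ n) 2]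
      gcongr

theorem x1_pow_le (x : ℝ) (hx : 0 ≤ x) (t : ℂ) (S : Multiset ℂ) : (∀ c ∈ S, x ≤ ‖1 - c * t‖) →
    x ^ Multiset.card S ≤ (S.map fun l => ‖1 - l * t‖).prod := by
  induction S using Multiset.induction with
  | empty =>
    intro _
    simp
  | cons c S ih =>
    intro hc
    have ih1 := ih (fun c' hc' => hc c' (Multiset.mem_cons_of_mem hc'))
    have hc1 := hc c (Multiset.mem_cons_self c S)
    rw [Multiset.map_cons, Multiset.prod_cons, Multiset.card_cons, pow_succ, mul_comm]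
    gcongr

theorem x1_real (D p N : ℕ) (h1 : p * (D + 1) ≤ N) (h2 : 2 * p ≤ N) (B : ℝ) (hB : 0 ≤ B)
    (x Q s E : ℝ) (hx : 0 < x) (hx2 : x ≤ 2) (hQ : 0 < Q) (hQx : x ^ D ≤ Q) (hs : 0 ≤ s)
    (hQs : Q ≤ s + 4 ^ D * x) (hE0 : 0 ≤ E) (hE : E ≤ Q + B * x) :
    E ^ (2 * N) * ((x * Q) ^ (2 * p))⁻¹ ≤
      2 ^ (2 * N) * (2 ^ (2 * N) + 2 ^ (2 * N) * (4 ^ D) ^ (2 * (N - p)) * 2 ^ (2 * N) +
        B ^ (2 * N) * 2 ^ (2 * N)) * (1 + s ^ (2 * (N - p)) * (x ^ (2 * p))⁻¹) := by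
  have hpow2 : ∀ k : ℕ, k ≤ 2 * N → x ^ k ≤ 2 ^ (2 * N) := by
    intro k hk
    calc x ^ k ≤ 2 ^ k := by gcongr
      _ ≤ 2 ^ (2 * N) := pow_le_pow_right₀ (by norm_num) hk
  have hadd : ∀ (a b : ℝ) (n : ℕ), 0 ≤ a → 0 ≤ b → n ≤ 2 * N →
      (a + b) ^ n ≤ 2 ^ (2 * N) * (a ^ n + b ^ n) := by
    intro a b n ha hb hn
    refine (add_pow_le ha hb n).trans ?_
    gcongr
    · norm_num
    · omega
  have hE2 : E ^ (2 * N) ≤ 2 ^ (2 * N) * (Q ^ (2 * N) + (B * x) ^ (2 * N)) :=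
    (pow_le_pow_left₀ hE0 hE _).trans (hadd Q (B * x) (2 * N) hQ.le (by positivity) le_rfl)
  have hT1 : Q ^ (2 * N) * ((x * Q) ^ (2 * p))⁻¹ = Q ^ (2 * (N - p)) * (x ^ (2 * p))⁻¹ := by
    have e1 : 2 * N = 2 * (N - p) + 2 * p := by omega
    rw [e1, pow_add, mul_pow]
    field_simp
  have hT2 : (B * x) ^ (2 * N) * ((x * Q) ^ (2 * p))⁻¹ ≤ B ^ (2 * N) * 2 ^ (2 * N) := by
    have e1 : (x ^ (D + 1)) ^ (2 * p) ≤ (x * Q) ^ (2 * p) := by
      apply pow_le_pow_left₀ (by positivity)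
      rw [pow_succ, mul_comm]
      gcongr
    have e2 : (0 : ℝ) < (x ^ (D + 1)) ^ (2 * p) := by positivity
    have e3 : ((x * Q) ^ (2 * p))⁻¹ ≤ ((x ^ (D + 1)) ^ (2 * p))⁻¹ := inv_anti₀ e2 e1
    calc (B * x) ^ (2 * N) * ((x * Q) ^ (2 * p))⁻¹
        ≤ (B * x) ^ (2 * N) * ((x ^ (D + 1)) ^ (2 * p))⁻¹ := by gcongr
      _ = B ^ (2 * N) * x ^ (2 * N - (D + 1) * (2 * p)) := by
          rw [mul_pow, ← pow_mul]
          have e4 : (D + 1) * (2 * p) ≤ 2 * N := by nlinarith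
          have e5 : x ^ (2 * N) = x ^ (2 * N - (D + 1) * (2 * p)) * x ^ ((D + 1) * (2 * p)) := by
            rw [← pow_add]
            congr 1
            omega
          rw [e5]
          field_simp
      _ ≤ B ^ (2 * N) * 2 ^ (2 * N) := by
          gcongr
          exact hpow2 _ (by omega)
  have hQ2 : Q ^ (2 * (N - p)) * (x ^ (2 * p))⁻¹ ≤
      2 ^ (2 * N) * (s ^ (2 * (N - p)) * (x ^ (2 * p))⁻¹) +
        2 ^ (2 * N) * (4 ^ D) ^ (2 * (N - p)) * 2 ^ (2 * N) := by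
    have e1 : Q ^ (2 * (N - p)) ≤ 2 ^ (2 * N) * (s ^ (2 * (N - p)) + (4 ^ D * x) ^ (2 * (N - p))) :=
      (pow_le_pow_left₀ hQ.le hQs _).trans (hadd s (4 ^ D * x) _ hs (by positivity) (by omega))
    have e2 : (4 ^ D * x) ^ (2 * (N - p)) * (x ^ (2 * p))⁻¹ ≤
        (4 ^ D) ^ (2 * (N - p)) * 2 ^ (2 * N) := by
      have e5 : x ^ (2 * (N - p)) = x ^ (2 * (N - p) - 2 * p) * x ^ (2 * p) := by
        rw [← pow_add]
        congr 1
        omega
      rw [mul_pow, e5, mul_assoc, mul_assoc, mul_inv_cancel₀ (by positivity), mul_one]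
      gcongr
      exact hpow2 _ (by omega)
    calc Q ^ (2 * (N - p)) * (x ^ (2 * p))⁻¹
        ≤ 2 ^ (2 * N) * (s ^ (2 * (N - p)) + (4 ^ D * x) ^ (2 * (N - p))) * (x ^ (2 * p))⁻¹ := by
          gcongr
      _ = 2 ^ (2 * N) * (s ^ (2 * (N - p)) * (x ^ (2 * p))⁻¹) +
          2 ^ (2 * N) * ((4 ^ D * x) ^ (2 * (N - p)) * (x ^ (2 * p))⁻¹) := by ring
      _ ≤ 2 ^ (2 * N) * (s ^ (2 * (N - p)) * (x ^ (2 * p))⁻¹) +
          2 ^ (2 * N) * ((4 ^ D) ^ (2 * (N - p)) * 2 ^ (2 * N)) := by gcongr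
      _ = _ := by ring
  set u := s ^ (2 * (N - p)) * (x ^ (2 * p))⁻¹ with hu
  have hu0 : 0 ≤ u := by positivity
  have hfin : E ^ (2 * N) * ((x * Q) ^ (2 * p))⁻¹ ≤
      2 ^ (2 * N) * ((2 ^ (2 * N) * u + 2 ^ (2 * N) * (4 ^ D) ^ (2 * (N - p)) * 2 ^ (2 * N)) +
        B ^ (2 * N) * 2 ^ (2 * N)) := by
    calc E ^ (2 * N) * ((x * Q) ^ (2 * p))⁻¹
        ≤ 2 ^ (2 * N) * (Q ^ (2 * N) + (B * x) ^ (2 * N)) * ((x * Q) ^ (2 * p))⁻¹ := by gcongr
      _ = 2 ^ (2 * N) * (Q ^ (2 * N) * ((x * Q) ^ (2 * p))⁻¹ +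
          (B * x) ^ (2 * N) * ((x * Q) ^ (2 * p))⁻¹) := by ring
      _ ≤ _ := by
          rw [hT1]
          gcongr
  refine hfin.trans ?_
  have c1 : (0 : ℝ) ≤ 2 ^ (2 * N) := by positivity
  have c2 : (0 : ℝ) ≤ 2 ^ (2 * N) * (4 ^ D) ^ (2 * (N - p)) * 2 ^ (2 * N) := by positivity
  have c3 : (0 : ℝ) ≤ B ^ (2 * N) * 2 ^ (2 * N) := by positivity
  generalize (2 : ℝ) ^ (2 * N) * (4 ^ D) ^ (2 * (N - p)) * 2 ^ (2 * N) = a at *
  generalize B ^ (2 * N) * 2 ^ (2 * N) = b at *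
  generalize (2 : ℝ) ^ (2 * N) = c at *
  nlinarith [mul_nonneg c1 c1, mul_nonneg c1 (mul_nonneg c2 hu0),
    mul_nonneg c1 (mul_nonneg c3 hu0)]

theorem weight (D p N : ℕ) (h1 : p * D ≤ N) (h2 : 2 * p ≤ N) : ∃ C : ℝ, 0 ≤ C ∧
    ∀ (S : Multiset ℂ) (t : ℂ), Multiset.card S = D → (∀ c ∈ S, ‖c‖ ≤ 1) → ‖t‖ ≤ 1 →
      (∀ c ∈ S, c * t ≠ 1) →
      ‖t * (QS S).derivative.eval t‖ ^ (2 * N) * (‖(QS S).eval t‖ ^ (2 * p))⁻¹ ≤
        C * (1 + (S.map fun c => sep S c ^ (2 * (N - p)) * (‖1 - c * t‖ ^ (2 * p))⁻¹).sum) := by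
  classical
  rcases Nat.eq_zero_or_pos D with hD | hD
  · refine ⟨1, zero_le_one, ?_⟩
    intro S t hS _ _ _
    rw [hD, Multiset.card_eq_zero] at hS
    subst hS
    have e1 : ‖t * (QS 0).derivative.eval t‖ = 0 := by simp [QS]
    rw [e1]
    have e2 : ((0 : ℝ)) ^ (2 * N) ≤ 1 := by
      rcases Nat.eq_zero_or_pos (2 * N) with h | h
      · rw [h]; simp
      · rw [zero_pow (by omega)]; norm_num
    simp [QS]
    exact e2
  · obtain ⟨D', rfl⟩ : ∃ D', D = D' + 1 := ⟨D - 1, by omega⟩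
    refine ⟨2 ^ (2 * N) * (2 ^ (2 * N) + 2 ^ (2 * N) * (4 ^ D') ^ (2 * (N - p)) * 2 ^ (2 * N) +
        ((D' : ℝ) * 2 ^ D') ^ (2 * N) * 2 ^ (2 * N)), by positivity, ?_⟩
    intro S t hS hc ht hne
    have hSne : S.toFinset.Nonempty := by
      rw [Multiset.toFinset_nonempty]
      intro h
      rw [h] at hS
      simp at hS
    obtain ⟨j, hjS, hjmin⟩ := Finset.exists_min_image S.toFinset (fun c => ‖1 - c * t‖) hSne
    rw [Multiset.mem_toFinset] at hjS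
    obtain ⟨S', hS'⟩ : ∃ S', S = j ::ₘ S' := Multiset.exists_cons_of_mem hjS
    have hcard : Multiset.card S' = D' := by
      rw [hS', Multiset.card_cons] at hS
      omega
    have hsub : ∀ c ∈ S', c ∈ S := fun c h => by
      rw [hS']
      exact Multiset.mem_cons_of_mem h
    have hj1 := hc j hjS
    have hsep : sep S j = (S'.map fun l => ‖j - l‖).prod := by
      unfold sep
      rw [hS', Multiset.erase_cons_head]
    have hQprod : ‖(QS S').eval t‖ = (S'.map fun l => ‖1 - l * t‖).prod := by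
      rw [eval_QS]
      have := Multiset.prod_hom (S'.map fun c => 1 - c * t) (normHom : ℂ →*₀ ℝ)
      rw [Multiset.map_map] at this
      exact this.symm
    obtain ⟨a1, a2, a3, a4⟩ := x1_prod_le j t hj1 ht S' (fun c h => hc c (hsub c h))
    obtain ⟨b1, b2⟩ := x1_dbound S' t ht (fun c h => hc c (hsub c h))
    rw [hcard] at a1 a2 b1 b2
    have hx : 0 < ‖1 - j * t‖ := norm_pos_iff.2 (sub_ne_zero.2 (hne j hjS).symm)
    have hx2 := x1_norm_le hj1 ht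
    have hpow := x1_pow_le ‖1 - j * t‖ hx.le t S'
      (fun c h => hjmin c (Multiset.mem_toFinset.2 (hsub c h)))
    rw [hcard] at hpow
    have hQpos : 0 < ‖(QS S').eval t‖ := by
      rw [hQprod]
      exact lt_of_lt_of_le (by positivity) hpow
    have hE : ‖t * (QS S).derivative.eval t‖ ≤ ‖(QS S').eval t‖ + (D' : ℝ) * 2 ^ D' * ‖1 - j * t‖ := by
      have e2 : (QS S).derivative.eval t =
          -j * (QS S').eval t + (1 - j * t) * (QS S').derivative.eval t := by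
        rw [hS', x1_QS_cons]
        simp
      rw [e2, norm_mul]
      have h3 : ‖-j * (QS S').eval t + (1 - j * t) * (QS S').derivative.eval t‖ ≤
          ‖(QS S').eval t‖ + (D' : ℝ) * 2 ^ D' * ‖1 - j * t‖ := by
        refine (norm_add_le _ _).trans ?_
        rw [norm_mul, norm_mul, norm_neg]
        have h4 : ‖j‖ * ‖(QS S').eval t‖ ≤ 1 * ‖(QS S').eval t‖ := by gcongr
        have h5 : ‖1 - j * t‖ * ‖(QS S').derivative.eval t‖ ≤
            ‖1 - j * t‖ * ((D' : ℝ) * 2 ^ D') := by gcongr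
        linarith
      calc ‖t‖ * ‖-j * (QS S').eval t + (1 - j * t) * (QS S').derivative.eval t‖
          ≤ 1 * ‖-j * (QS S').eval t + (1 - j * t) * (QS S').derivative.eval t‖ := by gcongr
        _ ≤ _ := by rw [one_mul]; exact h3
    have hev : ‖(QS S).eval t‖ = ‖1 - j * t‖ * ‖(QS S').eval t‖ := by
      rw [hS', x1_QS_cons, ← norm_mul]
      simp
    have key := x1_real D' p N h1 h2 ((D' : ℝ) * 2 ^ D') (by positivity) ‖1 - j * t‖
      ‖(QS S').eval t‖ (sep S j) ‖t * (QS S).derivative.eval t‖ hx hx2 hQpos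
      (by rw [hQprod]; exact hpow) (by rw [hsep]; exact a4)
      (by rw [hQprod, hsep]; exact a1) (norm_nonneg _) hE
    rw [hev]
    refine key.trans ?_
    gcongr
    have hmem : sep S j ^ (2 * (N - p)) * (‖1 - j * t‖ ^ (2 * p))⁻¹ ∈
        (S.map fun c => sep S c ^ (2 * (N - p)) * (‖1 - c * t‖ ^ (2 * p))⁻¹) :=
      Multiset.mem_map_of_mem _ hjS
    refine Multiset.single_le_sum ?_ _ hmem
    intro y hy
    rw [Multiset.mem_map] at hy
    obtain ⟨c, _, rfl⟩ := hy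
    have : 0 ≤ sep S c ^ (2 * (N - p)) := by
      rw [pow_mul]
      positivity
    positivity

end PCX
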