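import Pool.Agent.PCX.Defs
import Pool.Agent.PCV.A1
import Pool.Agent.PCM.P3

/-!
# [PCX-X10] the Euler operator

* `eul_coe`: coefficient of index `α`: `coeff α (X_i ∂_i f) = α_i coeff α f`; easier: both sides are linear in `f`, so
  it is enough to treat monomials (`MvPolynomial.induction_on'` / `MvPolynomial.pderiv_monomial`), or write
  `f = ∑ monomial`.
* `eul_add`, `eul_mul` (`Derivation`: `MvPolynomial.pderiv i` is a derivation), `eul_C`, `constantCoeff_eul`.
* `eval_slice'`: `PCV.eval_slice` and evaluation of `QS` (`Polynomial.eval_multiset_prod`).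
* `slice_eul`: both sides are `t` times the derivative of `s ↦ eval (s z) f = (QS (bs D f z)).eval s` at `t`: the chain rule
  gives `d/ds eval (s z) f = ∑ z_i eval (s z) (∂_i f)` (prove this by `MvPolynomial.induction_on`, or for monomials), and
  `HasDerivAt` of a polynomial; uniqueness of derivatives.
* `totalDegree_polar`: on the homogeneous components (or on monomials): the coefficient of `α` in
  `C (D+1) * f - eul f` is `(D + 1 - |α|) coeff α f`, zero if `|α| = D + 1`; so all monomials have degree `≤ D`
  (`MvPolynomial.totalDegree_le_of_support...`, `Finset.sup_le`).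
-/

open MeasureTheory Set Filter Topology

namespace PCX

open PCV

theorem x10_add {d : ℕ} (f g : MvPolynomial (Fin d) ℂ) : eul (f + g) = eul f + eul g := by
  unfold eul
  rw [← Finset.sum_add_distrib]
  refine Finset.sum_congr rfl (fun i _ => ?_)
  rw [map_add, mul_add]

theorem x10_monomial {d : ℕ} (s : Fin d →₀ ℕ) (a : ℂ) :
    eul (MvPolynomial.monomial s a) = ((∑ i, s i : ℕ)) • MvPolynomial.monomial s a := by
  unfold eul
  simp only [MvPolynomial.X_mul_pderiv_monomial]
  rw [← Finset.sum_smul]

theorem coeff_eul {d : ℕ} (f : MvPolynomial (Fin d) ℂ) (α : Fin d →₀ ℕ) :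
    MvPolynomial.coeff α (eul f) = ((∑ i, α i : ℕ) : ℂ) * MvPolynomial.coeff α f := by
  classical
  induction f using MvPolynomial.induction_on' with
  | monomial s a =>
    rw [x10_monomial, MvPolynomial.coeff_smul, MvPolynomial.coeff_monomial]
    by_cases h : s = α
    · subst h
      rw [if_pos rfl, nsmul_eq_mul]
    · rw [if_neg h, smul_zero, mul_zero]
  | add p q hp hq =>
    rw [x10_add, MvPolynomial.coeff_add, MvPolynomial.coeff_add, hp, hq, mul_add]

theorem eul_coe {d : ℕ} (f : MvPolynomial (Fin d) ℂ) :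
    ((eul f : MvPolynomial (Fin d) ℂ) : PCM.A d) = PCM.R d (f : PCM.A d) := by
  ext α
  rw [MvPolynomial.coeff_coe, coeff_eul, PCM.coeff_R, MvPolynomial.coeff_coe]

theorem eul_add {d : ℕ} (f g : MvPolynomial (Fin d) ℂ) : eul (f + g) = eul f + eul g :=
  x10_add f g

theorem eul_mul {d : ℕ} (f g : MvPolynomial (Fin d) ℂ) : eul (f * g) = eul f * g + f * eul g := by
  unfold eul
  rw [Finset.sum_mul, Finset.mul_sum, ← Finset.sum_add_distrib]
  refine Finset.sum_congr rfl (fun i _ => ?_)
  rw [MvPolynomial.pderiv_mul]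
  ring

theorem eul_C {d : ℕ} (c : ℂ) : eul (MvPolynomial.C c : MvPolynomial (Fin d) ℂ) = 0 := by
  unfold eul
  simp

theorem constantCoeff_eul {d : ℕ} (f : MvPolynomial (Fin d) ℂ) :
    MvPolynomial.constantCoeff (eul f) = 0 := by
  rw [MvPolynomial.constantCoeff_eq, coeff_eul]
  simp

theorem x10_QS (S : Multiset ℂ) (t : ℂ) : (QS S).eval t = (S.map fun c => 1 - c * t).prod := by
  unfold QS
  rw [Polynomial.eval_multiset_prod, Multiset.map_map]
  congr 1
  apply Multiset.map_congr rfl
  intro c _
  simp

theorem eval_slice' {d : ℕ} (D : ℕ) (f : MvPolynomial (Fin d) ℂ) (hD : f.totalDegree ≤ D)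
    (h0 : MvPolynomial.constantCoeff f = 1) (z : Fin d → ℂ) (t : ℂ) :
    MvPolynomial.eval (fun i => t * z i) f = (QS (bs D f z)).eval t := by
  rw [eval_slice D f hD h0 z t, x10_QS]

theorem x10_deriv {d : ℕ} (f : MvPolynomial (Fin d) ℂ) (z : Fin d → ℂ) (t : ℂ) :
    HasDerivAt (fun s : ℂ => MvPolynomial.eval (fun i => s * z i) f)
      (∑ i, z i * MvPolynomial.eval (fun i => t * z i) (MvPolynomial.pderiv i f)) t := by
  classical
  induction f using MvPolynomial.induction_on with
  | C a =>
    simp only [MvPolynomial.eval_C, MvPolynomial.pderiv_C, map_zero, mul_zero,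
      Finset.sum_const_zero]
    exact hasDerivAt_const t a
  | add p q hp hq =>
    have h1 := hp.add hq
    have h2 : (∑ i, z i * MvPolynomial.eval (fun i => t * z i) (MvPolynomial.pderiv i (p + q))) =
        (∑ i, z i * MvPolynomial.eval (fun i => t * z i) (MvPolynomial.pderiv i p)) +
        ∑ i, z i * MvPolynomial.eval (fun i => t * z i) (MvPolynomial.pderiv i q) := by
      rw [← Finset.sum_add_distrib]
      refine Finset.sum_congr rfl (fun i _ => ?_)
      rw [map_add, map_add, mul_add]
    rw [h2]
    refine h1.congr_of_eventuallyEq (Filter.Eventually.of_forall fun s => ?_)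
    simp
  | mul_X p n hp =>
    have h1 := hp.mul ((hasDerivAt_id t).mul_const (z n))
    have h2 : (∑ i, z i * MvPolynomial.eval (fun i => t * z i)
        (MvPolynomial.pderiv i (p * MvPolynomial.X n))) =
        (∑ i, z i * MvPolynomial.eval (fun i => t * z i) (MvPolynomial.pderiv i p)) * (t * z n) +
        MvPolynomial.eval (fun i => t * z i) p * (1 * z n) := by
      rw [Finset.sum_mul]
      have h3 : ∀ i, z i * MvPolynomial.eval (fun i => t * z i)
        (MvPolynomial.pderiv i (p * MvPolynomial.X n)) =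
          z i * MvPolynomial.eval (fun i => t * z i) (MvPolynomial.pderiv i p) * (t * z n) +
          (if i = n then z n * MvPolynomial.eval (fun i => t * z i) p else 0) := by
        intro i
        rw [MvPolynomial.pderiv_mul]
        by_cases h : i = n
        · subst h
          simp
          ring
        · rw [if_neg h, MvPolynomial.pderiv_X_of_ne (Ne.symm h)]
          simp
          ring
      simp only [h3]
      rw [Finset.sum_add_distrib, Finset.sum_ite_eq' Finset.univ n]
      simp
      ring
    rw [h2]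
    refine h1.congr_of_eventuallyEq (Filter.Eventually.of_forall fun s => ?_)
    simp

theorem slice_eul {d : ℕ} (D : ℕ) (f : MvPolynomial (Fin d) ℂ) (hD : f.totalDegree ≤ D)
    (h0 : MvPolynomial.constantCoeff f = 1) (z : Fin d → ℂ) (t : ℂ) :
    MvPolynomial.eval (fun i => t * z i) (eul f) = t * (QS (bs D f z)).derivative.eval t := by
  have h1 := x10_deriv f z t
  have h2 : (fun s : ℂ => MvPolynomial.eval (fun i => s * z i) f) =
      fun s => (QS (bs D f z)).eval s := by
    funext s
    exact eval_slice' D f hD h0 z s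
  rw [h2] at h1
  have h3 := h1.unique ((QS (bs D f z)).hasDerivAt t)
  rw [← h3]
  unfold eul
  rw [map_sum, Finset.mul_sum]
  refine Finset.sum_congr rfl (fun i _ => ?_)
  rw [map_mul, MvPolynomial.eval_X]
  ring

theorem totalDegree_polar {d : ℕ} (D : ℕ) (f : MvPolynomial (Fin d) ℂ)
    (hD : f.totalDegree ≤ D + 1) :
    (MvPolynomial.C ((D + 1 : ℕ) : ℂ) * f - eul f).totalDegree ≤ D := by
  unfold MvPolynomial.totalDegree
  apply Finset.sup_le
  intro α hα
  rw [MvPolynomial.mem_support_iff, MvPolynomial.coeff_sub, MvPolynomial.coeff_C_mul,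
    coeff_eul, ← sub_mul] at hα
  have h1 : MvPolynomial.coeff α f ≠ 0 := right_ne_zero_of_mul hα
  have h2 : (α.sum fun _ e => e) ≤ f.totalDegree :=
    MvPolynomial.le_totalDegree (MvPolynomial.mem_support_iff.2 h1)
  have h3 : (α.sum fun _ e => e) = ∑ i, α i := Finsupp.sum_fintype _ _ (fun _ => rfl)
  have h4 : (((D + 1 : ℕ) : ℂ) - ((∑ i, α i : ℕ) : ℂ)) ≠ 0 := left_ne_zero_of_mul hα
  have h5 : (∑ i, α i) ≠ D + 1 := by
    intro h
    apply h4
    rw [h, sub_self]
  omega

end PCX
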