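import Pool.Agent.PCX.X10

/-!
# [PCX-X11] the polar derivative

For `z ∈ Ball d` the elements `c` of `S = bs D g z` satisfy `‖c‖ ≤ √(∑ ‖z i‖²) < 1` (`bs_bound`), and
`eval z g = (QS S).eval 1 = ∏ (1 - c)`, `eval z (eul g) = (QS S)'(1)` (`slice_eul` with `t = 1`).
* `polar_bound`: `(QS S)'(1) = - ∑_c c ∏_{l ∈ S.erase c} (1 - l)`, so `D (QS S)(1) - (QS S)'(1)
  = (QS S)(1) ∑_{c ∈ S} (1 + c/(1-c)) = (QS S)(1) ∑_{c ∈ S} 1/(1-c)` (multiset induction: prove
  `(card S : ℂ) * (QS S).eval 1 - (QS S).derivative.eval 1 = (QS S).eval 1 * (S.map fun c => (1-c)⁻¹).sum` for all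
  multisets with `c ≠ 1`).  `Re (1/(1-c)) ≥ 1/2` for `‖c‖ < 1` (`Re (1-c) ≥ ‖1-c‖²/2` because
  `‖1-c‖² = 1 - 2 Re c + ‖c‖² ≤ 2 (1 - Re c)`), so the sum has real part `≥ D/2 ≥ 1/2` and modulus `≥ 1/2`.
* `dil_bound`: `‖1 - c‖ ≤ 2 ‖1 - ρ c‖` (`1 - c = (1 - ρ c) - (1-ρ) c`, `(1-ρ)‖c‖ ≤ 1 - ρ‖c‖ ≤ ‖1 - ρ c‖`), `D` factors.
* `lower_bound`: `‖1 - s c‖ ≥ 1 - s ‖c‖ ≥ 1 - s`.
The power identities use `eval (fun i => (ρ:ℂ) * z i) g = ∏ (1 - c ρ)` (`eval_slice'`).
-/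

open MeasureTheory Set Filter Topology

namespace PCX

open PCV

theorem x11_QS_cons (c : ℂ) (S : Multiset ℂ) :
    QS (c ::ₘ S) = (1 - Polynomial.C c * Polynomial.X) * QS S := by
  unfold QS
  rw [Multiset.map_cons, Multiset.prod_cons]

theorem x11_QS (S : Multiset ℂ) (t : ℂ) : (QS S).eval t = (S.map fun c => 1 - c * t).prod := by
  unfold QS
  rw [Polynomial.eval_multiset_prod, Multiset.map_map]
  congr 1
  apply Multiset.map_congr rfl
  intro c _
  simp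

theorem x11_sum (S : Multiset ℂ) : (∀ c ∈ S, c ≠ 1) →
    (Multiset.card S : ℂ) * (QS S).eval 1 - (QS S).derivative.eval 1 =
      (QS S).eval 1 * (S.map fun c => (1 - c)⁻¹).sum := by
  induction S using Multiset.induction with
  | empty =>
    intro _
    simp [QS]
  | cons c S ih =>
    intro hc
    have ih1 := ih (fun c' hc' => hc c' (Multiset.mem_cons_of_mem hc'))
    have hc1 := hc c (Multiset.mem_cons_self c S)
    have hc2 : (1 : ℂ) - c ≠ 0 := sub_ne_zero.2 hc1.symm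
    rw [x11_QS_cons, Multiset.card_cons, Multiset.map_cons, Multiset.sum_cons]
    have e1 : ((1 - Polynomial.C c * Polynomial.X) * QS S).eval 1 = (1 - c) * (QS S).eval 1 := by
      simp
    have e2 : ((1 - Polynomial.C c * Polynomial.X) * QS S).derivative.eval 1 =
        -c * (QS S).eval 1 + (1 - c) * (QS S).derivative.eval 1 := by
      simp
    rw [e1, e2]
    push_cast
    have e3 : (1 - c) * (QS S).eval 1 * ((1 - c)⁻¹ + (S.map fun c => (1 - c)⁻¹).sum) =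
        (QS S).eval 1 + (1 - c) * ((QS S).eval 1 * (S.map fun c => (1 - c)⁻¹).sum) := by
      field_simp
    rw [e3, ← ih1]
    ring

theorem x11_re (c : ℂ) (hc : ‖c‖ < 1) : 1 / 2 ≤ ((1 - c)⁻¹).re := by
  have hc1 : (1 : ℂ) - c ≠ 0 := by
    intro h
    have : c = 1 := (sub_eq_zero.1 h).symm
    rw [this, norm_one] at hc
    exact lt_irrefl _ hc
  have hn : 0 < Complex.normSq (1 - c) := Complex.normSq_pos.2 hc1
  have h1 : Complex.normSq (1 - c) ≤ 2 * (1 - c).re := by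
    have h2 : ‖c‖ ^ 2 < 1 := by nlinarith [norm_nonneg c]
    rw [← Complex.normSq_eq_norm_sq, Complex.normSq_apply] at h2
    rw [Complex.normSq_apply]
    simp only [Complex.sub_re, Complex.one_re, Complex.sub_im, Complex.one_im]
    nlinarith
  rw [Complex.inv_re, le_div_iff₀ hn]
  linarith

theorem x11_sum_re (S : Multiset ℂ) : (∀ c ∈ S, ‖c‖ < 1) →
    (Multiset.card S : ℝ) / 2 ≤ ((S.map fun c => (1 - c)⁻¹).sum).re := by
  induction S using Multiset.induction with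
  | empty =>
    intro _
    simp
  | cons c S ih =>
    intro hc
    have ih1 := ih (fun c' hc' => hc c' (Multiset.mem_cons_of_mem hc'))
    have hc1 := x11_re c (hc c (Multiset.mem_cons_self c S))
    rw [Multiset.card_cons, Multiset.map_cons, Multiset.sum_cons, Complex.add_re]
    push_cast
    linarith

theorem x11_bound {d : ℕ} (D : ℕ) (g : MvPolynomial (Fin d) ℂ)
    (hD : g.totalDegree ≤ D) (h0 : MvPolynomial.constantCoeff g = 1)
    (hg : ∀ z ∈ PCM.Ball d, MvPolynomial.eval z g ≠ 0) (z : Fin d → ℂ) (hz : z ∈ PCM.Ball d) :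
    ∀ c ∈ bs D g z, ‖c‖ < 1 := by
  intro c hc
  refine (bs_bound D g hD h0 hg z c hc).trans_lt ?_
  rw [Real.sqrt_lt' one_pos, one_pow]
  exact hz

theorem x11_dil (S : Multiset ℂ) (ρ : ℝ) (hρ0 : 0 ≤ ρ) (hρ : ρ ≤ 1) : (∀ c ∈ S, ‖c‖ < 1) →
    ‖(S.map fun c => 1 - c).prod‖ ≤ 2 ^ Multiset.card S * ‖(S.map fun c : ℂ => 1 - c * (ρ : ℂ)).prod‖ := by
  induction S using Multiset.induction with
  | empty =>
    intro _
    simp
  | cons c S ih =>
    intro hc
    have ih1 := ih (fun c' hc' => hc c' (Multiset.mem_cons_of_mem hc'))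
    have hc1 := hc c (Multiset.mem_cons_self c S)
    rw [Multiset.card_cons, Multiset.map_cons, Multiset.prod_cons, Multiset.map_cons,
      Multiset.prod_cons, norm_mul, norm_mul]
    have h1 : ‖1 - c‖ ≤ 2 * ‖1 - c * ρ‖ := by
      have e1 : 1 - c = (1 - c * ρ) - (1 - ρ : ℝ) * c := by push_cast; ring
      have e2 : ‖((1 - ρ : ℝ) : ℂ) * c‖ = (1 - ρ) * ‖c‖ := by
        rw [norm_mul, Complex.norm_real, Real.norm_of_nonneg (by linarith)]
      have e3 : 1 - ρ * ‖c‖ ≤ ‖1 - c * ρ‖ := by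
        have h2 := norm_sub_norm_le (1 : ℂ) (c * ρ)
        rw [norm_one, norm_mul, Complex.norm_real, Real.norm_of_nonneg hρ0] at h2
        linarith
      have e4 : ‖1 - c‖ ≤ ‖1 - c * ρ‖ + (1 - ρ) * ‖c‖ := by
        rw [e1, ← e2]
        exact norm_sub_le _ _
      linarith
    calc ‖1 - c‖ * ‖(S.map fun c => 1 - c).prod‖
        ≤ (2 * ‖1 - c * ρ‖) * (2 ^ Multiset.card S * ‖(S.map fun c : ℂ => 1 - c * (ρ : ℂ)).prod‖) := by
          gcongr
      _ = _ := by rw [pow_succ]; ring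

theorem x11_lower (S : Multiset ℂ) (s : ℝ) (hs0 : 0 ≤ s) (hs : s ≤ 1) : (∀ c ∈ S, ‖c‖ < 1) →
    (1 - s) ^ Multiset.card S ≤ ‖(S.map fun c : ℂ => 1 - c * (s : ℂ)).prod‖ := by
  induction S using Multiset.induction with
  | empty =>
    intro _
    simp
  | cons c S ih =>
    intro hc
    have ih1 := ih (fun c' hc' => hc c' (Multiset.mem_cons_of_mem hc'))
    have hc1 := hc c (Multiset.mem_cons_self c S)
    rw [Multiset.card_cons, Multiset.map_cons, Multiset.prod_cons, norm_mul, pow_succ, mul_comm]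
    have e3 : 1 - s ≤ ‖1 - c * s‖ := by
      have h2 := norm_sub_norm_le (1 : ℂ) (c * s)
      rw [norm_one, norm_mul, Complex.norm_real, Real.norm_of_nonneg hs0] at h2
      nlinarith
    have : 0 ≤ 1 - s := by linarith
    gcongr

theorem polar_bound {d : ℕ} (D : ℕ) (hD1 : 1 ≤ D) (g : MvPolynomial (Fin d) ℂ)
    (hD : g.totalDegree ≤ D) (h0 : MvPolynomial.constantCoeff g = 1)
    (hg : ∀ z ∈ PCM.Ball d, MvPolynomial.eval z g ≠ 0) (z : Fin d → ℂ) (hz : z ∈ PCM.Ball d) :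
    ‖MvPolynomial.eval z g‖ ≤
      2 * ‖MvPolynomial.eval z (MvPolynomial.C (D : ℂ) * g - eul g)‖ := by
  have hS := x11_bound D g hD h0 hg z hz
  have hcard := card_bs D g hD h0 z
  have hz1 : (fun i => (1 : ℂ) * z i) = z := by
    funext i
    exact one_mul _
  have h1 := eval_slice' D g hD h0 z 1
  have h2 := slice_eul D g hD h0 z 1
  rw [hz1] at h1 h2
  rw [one_mul] at h2
  have h3 := x11_sum (bs D g z) (fun c hc h => by
    have := hS c hc
    rw [h, norm_one] at this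
    exact lt_irrefl _ this)
  have h4 := x11_sum_re (bs D g z) hS
  rw [hcard] at h3 h4
  have h5 : MvPolynomial.eval z (MvPolynomial.C (D : ℂ) * g - eul g) =
      MvPolynomial.eval z g * ((bs D g z).map fun c => (1 - c)⁻¹).sum := by
    rw [map_sub, map_mul, MvPolynomial.eval_C, h1, h2, h3]
  rw [h5, norm_mul]
  have hD' : (1 : ℝ) ≤ D := by exact_mod_cast hD1
  have h6 : 1 / 2 ≤ ‖((bs D g z).map fun c => (1 - c)⁻¹).sum‖ := by
    have := Complex.re_le_norm (((bs D g z).map fun c => (1 - c)⁻¹).sum)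
    linarith
  nlinarith [norm_nonneg (MvPolynomial.eval z g)]

theorem dil_bound {d : ℕ} (D : ℕ) (g : MvPolynomial (Fin d) ℂ)
    (hD : g.totalDegree ≤ D) (h0 : MvPolynomial.constantCoeff g = 1)
    (hg : ∀ z ∈ PCM.Ball d, MvPolynomial.eval z g ≠ 0) (ρ : ℝ) (hρ0 : 0 ≤ ρ) (hρ : ρ ≤ 1)
    (z : Fin d → ℂ) (hz : z ∈ PCM.Ball d) :
    ‖MvPolynomial.eval z g‖ ≤ 2 ^ D * ‖MvPolynomial.eval (fun i => (ρ : ℂ) * z i) g‖ := by
  have hS := x11_bound D g hD h0 hg z hz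
  have hcard := card_bs D g hD h0 z
  have hz1 : (fun i => (1 : ℂ) * z i) = z := by
    funext i
    exact one_mul _
  have h1 := eval_slice' D g hD h0 z 1
  rw [hz1, x11_QS] at h1
  simp only [mul_one] at h1
  have h2 := eval_slice' D g hD h0 z (ρ : ℂ)
  rw [x11_QS] at h2
  rw [h1, h2]
  have h3 := x11_dil (bs D g z) ρ hρ0 hρ hS
  rwa [hcard] at h3

theorem lower_bound {d : ℕ} (D : ℕ) (g : MvPolynomial (Fin d) ℂ)
    (hD : g.totalDegree ≤ D) (h0 : MvPolynomial.constantCoeff g = 1)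
    (hg : ∀ z ∈ PCM.Ball d, MvPolynomial.eval z g ≠ 0) (s : ℝ) (hs0 : 0 ≤ s) (hs : s ≤ 1)
    (z : Fin d → ℂ) (hz : z ∈ PCM.Ball d) :
    (1 - s) ^ D ≤ ‖MvPolynomial.eval (fun i => (s : ℂ) * z i) g‖ := by
  have hS := x11_bound D g hD h0 hg z hz
  have hcard := card_bs D g hD h0 z
  have h2 := eval_slice' D g hD h0 z (s : ℂ)
  rw [x11_QS] at h2
  rw [h2]
  have h3 := x11_lower (bs D g z) s hs0 hs hS
  rwa [hcard] at h3

end PCX
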