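import Pool.Agent.PCX.X10
import Pool.Agent.PCM.P3
import Pool.Agent.PCM.P20

/-!
# [PCX-X12] Leibniz' rule and polynomials

* `R_pow_mul`: induction on `k` with `R_mul`, `R_pow_succ_apply` and Pascal's rule (`Finset.sum_range_succ'`,
  `Nat.choose_succ_succ`; compare `PCM/P3`).
* `R_pow_coe`: induction with `eul_coe`.
* `dvd_eul`: induction on `a`: if `Y = u^k v^l Z` then `eul Y = k u^(k-1) eul u v^l Z + u^k l v^(l-1) eul v Z + u^k v^l eul Z`
  is divisible by `u^(k-1) v^(l-1)` (truncated subtraction; for `k = 0` the first term vanishes).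
  `Function.iterate_succ'`.
* `eul_dil`: on monomials / coefficients, or by `MvPolynomial.induction_on` with `eul_mul` (`dil` is an algebra map,
  `dil ρ (X i) = C ρ * X i`).
* `poly_bound`, `poly_lip`: the closed ball `{∑ ‖z i‖² ≤ 1}` is compact, or `MvPolynomial.induction_on`:
  constants, variables (`‖z i‖ ≤ 1`), sums, products.
-/

open MeasureTheory Set Filter Topology

namespace PCX

open PCV

theorem x12_leibniz {d : ℕ} (k : ℕ) (a b : PCM.A d) : (PCM.R d ^ k) (a * b) =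
    ∑ ij ∈ Finset.HasAntidiagonal.antidiagonal k,
      k.choose ij.1 • ((PCM.R d ^ ij.1) a * (PCM.R d ^ ij.2) b) := by
  induction k with
  | zero => simp
  | succ k ih =>
    rw [PCM.R_pow_succ_apply, ih, map_sum,
      Finset.sum_antidiagonal_choose_succ_nsmul
        (fun i j => (PCM.R d ^ i) a * (PCM.R d ^ j) b) k, ← Finset.sum_add_distrib]
    refine Finset.sum_congr rfl (fun ij hij => ?_)
    have hsym : k.choose ij.1 = k.choose ij.2 := by
      rw [Finset.HasAntidiagonal.mem_antidiagonal] at hij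
      exact Nat.choose_symm_of_eq_add hij.symm
    rw [map_nsmul, PCM.R_mul, ← PCM.R_pow_succ_apply, ← PCM.R_pow_succ_apply, smul_add, ← hsym,
      add_comm]

theorem R_pow_mul {d : ℕ} (k : ℕ) (a b : PCM.A d) : (PCM.R d ^ k) (a * b) =
    ∑ j ∈ Finset.range (k + 1),
      (k.choose j : ℂ) • ((PCM.R d ^ j) a * (PCM.R d ^ (k - j)) b) := by
  rw [x12_leibniz, Finset.Nat.sum_antidiagonal_eq_sum_range_succ_mk]
  refine Finset.sum_congr rfl (fun j _ => ?_)
  rw [Nat.cast_smul_eq_nsmul]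

theorem R_pow_coe {d : ℕ} (k : ℕ) (f : MvPolynomial (Fin d) ℂ) :
    (PCM.R d ^ k) (f : PCM.A d) = ((eul^[k] f : MvPolynomial (Fin d) ℂ) : PCM.A d) := by
  induction k with
  | zero => simp
  | succ k ih => rw [PCM.R_pow_succ_apply, ih, Function.iterate_succ_apply', eul_coe]

theorem x12_dvd_pow {d : ℕ} (k : ℕ) (u : MvPolynomial (Fin d) ℂ) :
    u ^ (k - 1) ∣ eul (u ^ k) := by
  induction k with
  | zero =>
    simp
  | succ k ih =>
    rw [Nat.add_sub_cancel, pow_succ, eul_mul]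
    refine dvd_add ?_ (dvd_mul_right _ _)
    rcases Nat.eq_zero_or_pos k with h | h
    · subst h
      simp
    · have e1 : u ^ k = u ^ (k - 1) * u := by
        rw [← pow_succ]
        congr 1
        omega
      conv_lhs => rw [e1]
      exact mul_dvd_mul ih dvd_rfl

theorem x12_eul_X {d : ℕ} (n : Fin d) :
    eul (MvPolynomial.X n : MvPolynomial (Fin d) ℂ) = MvPolynomial.X n := by
  classical
  unfold eul
  rw [Finset.sum_eq_single n]
  · rw [MvPolynomial.pderiv_X_self, mul_one]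
  · intro i _ hi
    rw [MvPolynomial.pderiv_X_of_ne hi.symm, mul_zero]
  · intro h
    exact absurd (Finset.mem_univ n) h

theorem dvd_eul {d : ℕ} (a N n : ℕ) (u v : MvPolynomial (Fin d) ℂ) :
    u ^ (N - a) * v ^ (n - a) ∣ eul^[a] (u ^ N * v ^ n) := by
  induction a with
  | zero => simp
  | succ a ih =>
    rw [Function.iterate_succ_apply']
    obtain ⟨Z, hZ⟩ := ih
    rw [hZ, eul_mul, eul_mul]
    have e1 : N - (a + 1) = (N - a) - 1 := by omega
    have e2 : n - (a + 1) = (n - a) - 1 := by omega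
    rw [e1, e2]
    have p1 : u ^ (N - a - 1) ∣ u ^ (N - a) := pow_dvd_pow _ (by omega)
    have p2 : v ^ (n - a - 1) ∣ v ^ (n - a) := pow_dvd_pow _ (by omega)
    refine dvd_add (Dvd.dvd.mul_right (dvd_add ?_ ?_) _) (Dvd.dvd.mul_right ?_ _)
    · exact mul_dvd_mul (x12_dvd_pow _ u) p2
    · exact mul_dvd_mul p1 (x12_dvd_pow _ v)
    · exact mul_dvd_mul p1 p2

theorem eul_dil {d : ℕ} (ρ : ℝ) (f : MvPolynomial (Fin d) ℂ) : eul (dil ρ f) = dil ρ (eul f) := by
  induction f using MvPolynomial.induction_on with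
  | C a =>
    have h1 : dil ρ (MvPolynomial.C a : MvPolynomial (Fin d) ℂ) = MvPolynomial.C a := by
      unfold dil
      exact MvPolynomial.aeval_C _ _
    rw [h1, eul_C]
    unfold dil
    rw [map_zero]
  | add p q hp hq =>
    have h1 : ∀ p q : MvPolynomial (Fin d) ℂ, dil ρ (p + q) = dil ρ p + dil ρ q := by
      intro p q
      unfold dil
      rw [map_add]
    rw [h1, eul_add, hp, hq, eul_add, h1]
  | mul_X p n hp =>
    have h1 : ∀ p q : MvPolynomial (Fin d) ℂ, dil ρ (p + q) = dil ρ p + dil ρ q := by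
      intro p q
      unfold dil
      rw [map_add]
    have h2 : ∀ p q : MvPolynomial (Fin d) ℂ, dil ρ (p * q) = dil ρ p * dil ρ q := by
      intro p q
      unfold dil
      rw [map_mul]
    have h3 : dil ρ (MvPolynomial.X n : MvPolynomial (Fin d) ℂ) =
        MvPolynomial.C (ρ : ℂ) * MvPolynomial.X n := by
      unfold dil
      rw [MvPolynomial.aeval_X]
    rw [h2, eul_mul, hp, eul_mul, h1, h2, h2, h3, eul_mul, eul_C, x12_eul_X, h3, zero_mul,
      zero_add]

theorem poly_bound {d : ℕ} (P : MvPolynomial (Fin d) ℂ) : ∃ C : ℝ, 0 ≤ C ∧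
    ∀ z ∈ PCM.Ball d, ‖MvPolynomial.eval z P‖ ≤ C := by
  induction P using MvPolynomial.induction_on with
  | C a =>
    refine ⟨‖a‖, norm_nonneg _, ?_⟩
    intro z _
    rw [MvPolynomial.eval_C]
  | add p q hp hq =>
    obtain ⟨C₁, h1, h2⟩ := hp
    obtain ⟨C₂, h3, h4⟩ := hq
    refine ⟨C₁ + C₂, by positivity, ?_⟩
    intro z hz
    rw [map_add]
    exact (norm_add_le _ _).trans (add_le_add (h2 z hz) (h4 z hz))
  | mul_X p n hp =>
    obtain ⟨C₁, h1, h2⟩ := hp
    refine ⟨C₁, h1, ?_⟩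
    intro z hz
    rw [map_mul, MvPolynomial.eval_X, norm_mul]
    have h3 : ‖z n‖ ≤ 1 := by
      have h4 : ‖z n‖ ^ 2 ≤ ∑ i, ‖z i‖ ^ 2 :=
        Finset.single_le_sum (f := fun i => ‖z i‖ ^ 2) (fun i _ => sq_nonneg _)
          (Finset.mem_univ n)
      have h5 : ∑ i, ‖z i‖ ^ 2 < 1 := hz
      nlinarith [norm_nonneg (z n)]
    calc ‖MvPolynomial.eval z p‖ * ‖z n‖ ≤ C₁ * 1 := by
          gcongr
          exact h2 z hz
      _ = C₁ := mul_one _

theorem x12_ball {d : ℕ} (s : ℝ) (hs0 : 0 ≤ s) (hs1 : s ≤ 1) (z : Fin d → ℂ)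
    (hz : z ∈ PCM.Ball d) : (fun i => (s : ℂ) * z i) ∈ PCM.Ball d := by
  have h5 : ∑ i, ‖z i‖ ^ 2 < 1 := hz
  show ∑ i, ‖(s : ℂ) * z i‖ ^ 2 < 1
  refine lt_of_le_of_lt (Finset.sum_le_sum fun i _ => ?_) h5
  rw [norm_mul, Complex.norm_real, Real.norm_of_nonneg hs0]
  apply pow_le_pow_left₀ (by positivity)
  calc s * ‖z i‖ ≤ 1 * ‖z i‖ := by gcongr
    _ = ‖z i‖ := one_mul _

theorem poly_lip {d : ℕ} (P : MvPolynomial (Fin d) ℂ) : ∃ C : ℝ, 0 ≤ C ∧
    ∀ r s : ℝ, 0 ≤ r → r ≤ 1 → 0 ≤ s → s ≤ 1 → ∀ z ∈ PCM.Ball d,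
      ‖MvPolynomial.eval (fun i => (r : ℂ) * z i) P - MvPolynomial.eval (fun i => (s : ℂ) * z i) P‖ ≤
        C * |r - s| := by
  induction P using MvPolynomial.induction_on with
  | C a =>
    refine ⟨0, le_rfl, ?_⟩
    intro r s _ _ _ _ z _
    rw [MvPolynomial.eval_C, MvPolynomial.eval_C, sub_self, norm_zero, zero_mul]
  | add p q hp hq =>
    obtain ⟨C₁, h1, h2⟩ := hp
    obtain ⟨C₂, h3, h4⟩ := hq
    refine ⟨C₁ + C₂, by positivity, ?_⟩
    intro r s hr0 hr1 hs0 hs1 z hz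
    rw [map_add, map_add, add_sub_add_comm, add_mul]
    exact (norm_add_le _ _).trans (add_le_add (h2 r s hr0 hr1 hs0 hs1 z hz)
      (h4 r s hr0 hr1 hs0 hs1 z hz))
  | mul_X p n hp =>
    obtain ⟨C₁, h1, h2⟩ := hp
    obtain ⟨B, hB0, hB⟩ := poly_bound p
    refine ⟨C₁ + B, by positivity, ?_⟩
    intro r s hr0 hr1 hs0 hs1 z hz
    have h3 : ‖z n‖ ≤ 1 := by
      have h4 : ‖z n‖ ^ 2 ≤ ∑ i, ‖z i‖ ^ 2 :=
        Finset.single_le_sum (f := fun i => ‖z i‖ ^ 2) (fun i _ => sq_nonneg _)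
          (Finset.mem_univ n)
      have h5 : ∑ i, ‖z i‖ ^ 2 < 1 := hz
      nlinarith [norm_nonneg (z n)]
    have h6 := h2 r s hr0 hr1 hs0 hs1 z hz
    have h7 := hB _ (x12_ball s hs0 hs1 z hz)
    have h8 : (MvPolynomial.eval (fun i => (r : ℂ) * z i)) (p * MvPolynomial.X n) -
        (MvPolynomial.eval (fun i => (s : ℂ) * z i)) (p * MvPolynomial.X n) =
        (MvPolynomial.eval (fun i => (r : ℂ) * z i) p -
          MvPolynomial.eval (fun i => (s : ℂ) * z i) p) * (r * z n) +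
        MvPolynomial.eval (fun i => (s : ℂ) * z i) p * (((r - s : ℝ) : ℂ) * z n) := by
      rw [map_mul, map_mul, MvPolynomial.eval_X, MvPolynomial.eval_X]
      push_cast
      ring
    rw [h8]
    refine (norm_add_le _ _).trans ?_
    have h9 : ‖(r : ℂ) * z n‖ ≤ 1 := by
      rw [norm_mul, Complex.norm_real, Real.norm_of_nonneg hr0]
      exact mul_le_one₀ hr1 (norm_nonneg _) h3
    have h10 : ‖((r - s : ℝ) : ℂ) * z n‖ ≤ |r - s| := by
      rw [norm_mul, Complex.norm_real, Real.norm_eq_abs]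
      calc |r - s| * ‖z n‖ ≤ |r - s| * 1 := by gcongr
        _ = |r - s| := mul_one _
    rw [add_mul]
    refine add_le_add ?_ ?_
    · refine (norm_mul _ _).le.trans ?_
      calc _ ≤ (C₁ * |r - s|) * 1 := mul_le_mul h6 h9 (norm_nonneg _) (by positivity)
        _ = C₁ * |r - s| := mul_one _
    · refine (norm_mul _ _).le.trans ?_
      exact mul_le_mul h7 h10 (norm_nonneg _) hB0

end PCX
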