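import Pool.Agent.PCX.X12
import Pool.Agent.PCV.N4

/-!
# [PCX-X13] derivatives of the inverse of a dilate

Strong induction on `c`.  `c = 0`: `ev (dil ρ g) z * ev G z = 1` (`ev_mul`, `ev_one`, `ev_coe`, `eval_dil`), so
`‖ev G z‖ = ‖eval (ρ z) g‖⁻¹`; take `C = 1`.
`c ≥ 1`: apply `R^c` to `dil ρ g * G = 1` (`R^c 1 = 0` from `R_one`) and Leibniz (`R_pow_mul`); the term `j = 0` is
`dil ρ g * R^c G`, so multiplying by `G`:
`R^c G = - G * ∑_{j=1}^{c} choose c j • (R^j (dil ρ g) * R^(c-j) G)`.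
`R^j (dil ρ g) = dil ρ (eul^[j] g)` (`R_pow_coe`, `eul_dil`), its value at `z` is `eval (ρ z) (eul^[j] g)`, bounded by a
constant (`poly_bound`, `ρ z ∈ Ball`); `‖R^(c-j) G (z)‖ ≤ C_(c-j) ‖eval (ρ z) g‖^(-(c-j+1))`; and
`‖eval (ρ z) g‖ ≤ C₀`, so `x^(-1) x^(-(c-j+1)) = x^(-(c-j+2)) ≤ C x^(-(c+1))` for `1 ≤ j ≤ c`, `0 < x ≤ C₀`.
-/

open MeasureTheory Set Filter Topology

namespace PCX

open PCV

theorem x13_dil {d : ℕ} (g : MvPolynomial (Fin d) ℂ) (ρ : ℝ) (j : ℕ) (z : Fin d → ℂ) :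
    PCM.ev ((PCM.R d ^ j) ((dil ρ g : MvPolynomial (Fin d) ℂ) : PCM.A d)) z =
      MvPolynomial.eval (fun i => (ρ : ℂ) * z i) (eul^[j] g) := by
  have h : eul^[j] (dil ρ g) = dil ρ (eul^[j] g) := by
    induction j with
    | zero => rfl
    | succ j ih => rw [Function.iterate_succ_apply', ih, eul_dil, Function.iterate_succ_apply']
  rw [R_pow_coe, ev_coe, h, eval_dil]

theorem x13_one {d : ℕ} (c : ℕ) : (PCM.R d ^ (c + 1)) (1 : PCM.A d) = 0 := by
  rw [pow_succ, Module.End.mul_apply, PCM.R_one, map_zero]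

theorem inv_bound {d : ℕ} (g : MvPolynomial (Fin d) ℂ) (c : ℕ) : ∃ C : ℝ, 0 ≤ C ∧
    ∀ (ρ : ℝ) (G : PCM.A d), 0 ≤ ρ → ρ ≤ 1 → PCM.Conv G →
      ((dil ρ g : MvPolynomial (Fin d) ℂ) : PCM.A d) * G = 1 → ∀ z ∈ PCM.Ball d,
      ‖PCM.ev ((PCM.R d ^ c) G) z‖ ≤
        C * (‖MvPolynomial.eval (fun i => (ρ : ℂ) * z i) g‖ ^ (c + 1))⁻¹ := by
  have hval : ∀ (ρ : ℝ) (G : PCM.A d), PCM.Conv G →
      ((dil ρ g : MvPolynomial (Fin d) ℂ) : PCM.A d) * G = 1 → ∀ z ∈ PCM.Ball d,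
      MvPolynomial.eval (fun i => (ρ : ℂ) * z i) g * PCM.ev G z = 1 := by
    intro ρ G hG hgG z hz
    have h1 := PCM.ev_mul (conv_coe (dil ρ g)) hG hz
    rw [hgG, PCM.ev_one, ev_coe, eval_dil] at h1
    exact h1.symm
  induction c using Nat.strong_induction_on with
  | _ c ih =>
    rcases Nat.eq_zero_or_pos c with hc | hc
    · subst hc
      refine ⟨1, zero_le_one, ?_⟩
      intro ρ G _ _ hG hgG z hz
      have h1 := hval ρ G hG hgG z hz
      have h2 : PCM.ev G z = (MvPolynomial.eval (fun i => (ρ : ℂ) * z i) g)⁻¹ :=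
        eq_inv_of_mul_eq_one_right h1
      rw [pow_zero, Module.End.one_apply, h2, zero_add, pow_one, norm_inv, one_mul]
    · obtain ⟨c, rfl⟩ : ∃ c', c = c' + 1 := ⟨c - 1, by omega⟩
      have ih' : ∀ k, ∃ C : ℝ, 0 ≤ C ∧ (k < c + 1 → ∀ (ρ : ℝ) (G : PCM.A d), 0 ≤ ρ → ρ ≤ 1 →
          PCM.Conv G → ((dil ρ g : MvPolynomial (Fin d) ℂ) : PCM.A d) * G = 1 → ∀ z ∈ PCM.Ball d,
          ‖PCM.ev ((PCM.R d ^ k) G) z‖ ≤
          C * (‖MvPolynomial.eval (fun i => (ρ : ℂ) * z i) g‖ ^ (k + 1))⁻¹) := by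
        intro k
        by_cases hk : k < c + 1
        · obtain ⟨C, h1, h2⟩ := ih k hk
          exact ⟨C, h1, fun _ => h2⟩
        · exact ⟨0, le_rfl, fun h => absurd h hk⟩
      choose Cc hCc0 hCc using ih'
      have hB : ∀ j, ∃ B : ℝ, 0 ≤ B ∧ ∀ z ∈ PCM.Ball d, ‖MvPolynomial.eval z (eul^[j] g)‖ ≤ B :=
        fun j => poly_bound _
      choose B hB0 hB using hB
      refine ⟨∑ j ∈ Finset.range (c + 1), ((c + 1).choose (j + 1) : ℝ) * B (j + 1) *
        (Cc (c - j) * B 0 ^ j), Finset.sum_nonneg (fun j _ => by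
          have := hB0 (j + 1)
          have := hCc0 (c - j)
          have := hB0 0
          positivity), ?_⟩
      intro ρ G hρ0 hρ1 hG hgG z hz
      have hρz : (fun i => (ρ : ℂ) * z i) ∈ PCM.Ball d := x12_ball ρ hρ0 hρ1 z hz
      have h1 := hval ρ G hG hgG z hz
      obtain ⟨x, hx⟩ : ∃ x : ℂ, x = MvPolynomial.eval (fun i => (ρ : ℂ) * z i) g := ⟨_, rfl⟩
      have hx0 : x ≠ 0 := by
        rw [hx]
        exact left_ne_zero_of_mul_eq_one h1
      have hxn : 0 < ‖x‖ := norm_pos_iff.2 hx0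
      have hxB : ‖x‖ ≤ B 0 := by
        rw [hx]
        exact hB 0 _ hρz
      have hL := R_pow_mul (c + 1) ((dil ρ g : MvPolynomial (Fin d) ℂ) : PCM.A d) G
      rw [hgG, x13_one, Finset.sum_range_succ'] at hL
      have hconv : ∀ j k, PCM.Conv ((PCM.R d ^ j) ((dil ρ g : MvPolynomial (Fin d) ℂ) : PCM.A d) *
          (PCM.R d ^ k) G) := fun j k =>
        PCM.conv_mul (PCM.conv_R_pow (conv_coe _) j) (PCM.conv_R_pow hG k)
      have hev := congrArg (fun a => PCM.ev a z) hL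
      have hev0 : PCM.ev (0 : PCM.A d) z = 0 := by
        unfold PCM.ev
        simp
      rw [hev0, PCM.ev_add (PCM.conv_sum _ _ (fun j _ => PCM.conv_smul _ (hconv _ _)))
        (PCM.conv_smul _ (hconv _ _)) hz,
        PCM.ev_sum _ _ (fun j _ => PCM.conv_smul _ (hconv _ _)) hz, PCM.ev_smul,
        PCM.ev_mul (PCM.conv_R_pow (conv_coe _) 0) (PCM.conv_R_pow hG _) hz, x13_dil] at hev
      simp only [Nat.choose_zero_right, Nat.cast_one, one_mul, Nat.sub_zero,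
        Function.iterate_zero, id_eq] at hev
      rw [← hx] at hev
      have hmain : x * PCM.ev ((PCM.R d ^ (c + 1)) G) z = -∑ j ∈ Finset.range (c + 1),
          PCM.ev (((c + 1).choose (j + 1) : ℂ) •
            ((PCM.R d ^ (j + 1)) ((dil ρ g : MvPolynomial (Fin d) ℂ) : PCM.A d) *
              (PCM.R d ^ (c + 1 - (j + 1))) G)) z := by
        linear_combination -hev
      have hnorm : ‖x‖ * ‖PCM.ev ((PCM.R d ^ (c + 1)) G) z‖ ≤
          (∑ j ∈ Finset.range (c + 1), ((c + 1).choose (j + 1) : ℝ) * B (j + 1) *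
        (Cc (c - j) * B 0 ^ j)) * (‖x‖ ^ (c + 1))⁻¹ := by
        rw [← norm_mul, hmain, norm_neg, Finset.sum_mul]
        refine (norm_sum_le _ _).trans (Finset.sum_le_sum (fun j hj => ?_))
        have hjc : j ≤ c := Nat.lt_succ_iff.1 (Finset.mem_range.1 hj)
        rw [PCM.ev_smul, PCM.ev_mul (PCM.conv_R_pow (conv_coe _) _) (PCM.conv_R_pow hG _) hz,
          x13_dil, norm_mul, norm_mul, Complex.norm_natCast]
        have e1 := hB (j + 1) _ hρz
        have e2 : c + 1 - (j + 1) = c - j := by omega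
        rw [e2]
        have e3 := hCc (c - j) (by omega) ρ G hρ0 hρ1 hG hgG z hz
        rw [← hx] at e3
        have e4 : (‖x‖ ^ (c - j + 1))⁻¹ ≤ B 0 ^ j * (‖x‖ ^ (c + 1))⁻¹ := by
          have e5 : ‖x‖ ^ (c + 1) = ‖x‖ ^ j * ‖x‖ ^ (c - j + 1) := by
            rw [← pow_add]
            congr 1
            omega
          have e6 : ‖x‖ ^ j ≤ B 0 ^ j := pow_le_pow_left₀ hxn.le hxB j
          rw [e5, mul_inv, ← mul_assoc]
          have e7 : 1 ≤ B 0 ^ j * (‖x‖ ^ j)⁻¹ := by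
            rw [← div_eq_mul_inv, le_div_iff₀ (by positivity), one_mul]
            exact e6
          have e8 : 0 < (‖x‖ ^ (c - j + 1))⁻¹ := by positivity
          nlinarith
        have hc0 := hCc0 (c - j)
        have hb0 := hB0 (j + 1)
        calc ((c + 1).choose (j + 1) : ℝ) *
            (‖MvPolynomial.eval (fun i => (ρ : ℂ) * z i) (eul^[j + 1] g)‖ *
              ‖PCM.ev ((PCM.R d ^ (c - j)) G) z‖)
            ≤ ((c + 1).choose (j + 1) : ℝ) * (B (j + 1) *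
              (Cc (c - j) * (‖x‖ ^ (c - j + 1))⁻¹)) := by gcongr
          _ ≤ ((c + 1).choose (j + 1) : ℝ) * (B (j + 1) *
              (Cc (c - j) * (B 0 ^ j * (‖x‖ ^ (c + 1))⁻¹))) := by gcongr
          _ = _ := by ring
      rw [← hx]
      rw [pow_succ ‖x‖ (c + 1), mul_inv, ← mul_assoc, ← div_eq_mul_inv _ ‖x‖, le_div_iff₀ hxn,
        mul_comm]
      exact hnorm

end PCX
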