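import Pool.Agent.PCX.X13

/-!
# [PCX-X14] the pointwise bound

Notation: `q = (eul g)^N * f^n`, `g_ρ = dil ρ g`, `x = ‖eval (ρ z) g‖`.  In the ring of power series
`q * g * G = q + q * (g - g_ρ) * G` because `g_ρ * G = 1`.
* `R^K q` is a polynomial, bounded on the ball.
* By `R_pow_mul` twice, `R^K (q (g - g_ρ) G)` is a finite sum over `a + b + c = K` of multinomial constants times
  `R^a q * R^b (g - g_ρ) * R^c G`.  `R^a q = eul^[a] q` is divisible by `(eul g)^(N-a) f^(n-a)` (`dvd_eul`), so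
  `‖R^a q (z)‖ ≤ C ‖eul g (z)‖^(N-a) ‖f z‖^(n-a) ≤ C ‖eul g (z)‖^(N-K) ‖f z‖^(n-a)` (bounded, `N - a ≥ N - K`).
  `‖R^b (g - g_ρ)(z)‖ = ‖eval z (eul^[b] g) - eval (ρ z) (eul^[b] g)‖ ≤ C (1-ρ)` (`poly_lip` with `r = 1`, `s = ρ`).
  `‖R^c G (z)‖ ≤ C x^(-(c+1))` (`inv_bound`), `c ≤ K - a`.
  `‖f z‖ ≤ C₀ ‖g z‖ ≤ C₀² x`, `x ≤ C`.  So `‖f z‖^(n-a) x^(-(c+1)) ≤ C x^(n-a) x^(-(K-a+1))` and this is
  `≤ C x^(-(K+1-n))`: if `a ≤ n` the exponent is exactly `n - K - 1`; if `a > n` then `n - a = 0` and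
  `K - a + 1 ≤ K + 1 - n` (use `x ≤ C`, raising the exponent of `x⁻¹`).
-/

open MeasureTheory Set Filter Topology

namespace PCX

open PCV

theorem x14_pow (x X : ℝ) (hx : 0 < x) (hxX : x ≤ X) (i k m : ℕ) (h : k ≤ m + i) :
    x ^ i * (x ^ k)⁻¹ ≤ X ^ (i + m - k) * (x ^ m)⁻¹ := by
  have e1 : x ^ i * (x ^ k)⁻¹ = x ^ (i + m - k) * (x ^ m)⁻¹ := by
    have e2 : x ^ i * x ^ m = x ^ (i + m - k) * x ^ k := by
      rw [← pow_add, ← pow_add]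
      congr 1
      omega
    field_simp
    linarith
  rw [e1]
  have : x ^ (i + m - k) ≤ X ^ (i + m - k) := pow_le_pow_left₀ hx.le hxX _
  gcongr

theorem x14_q {d : ℕ} (a N n : ℕ) (u v : MvPolynomial (Fin d) ℂ) : ∃ Z : ℝ, 0 ≤ Z ∧
    ∀ z ∈ PCM.Ball d, ‖MvPolynomial.eval z (eul^[a] (u ^ N * v ^ n))‖ ≤
      Z * (‖MvPolynomial.eval z u‖ ^ (N - a) * ‖MvPolynomial.eval z v‖ ^ (n - a)) := by
  obtain ⟨W, hW⟩ := dvd_eul a N n u v
  obtain ⟨Z, hZ0, hZ⟩ := poly_bound W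
  refine ⟨Z, hZ0, ?_⟩
  intro z hz
  rw [hW, map_mul, map_mul, map_pow, map_pow, norm_mul, norm_mul, norm_pow, norm_pow, mul_comm]
  have := hZ z hz
  gcongr

theorem x14_real (K N n a b : ℕ) (hnK : n ≤ K) (hKN : K ≤ N) (ha : a ≤ K) (hb : b ≤ K - a)
    (Z E W X L I u v x q l G δ : ℝ) (hZ : 0 ≤ Z) (hE : 1 ≤ E) (hW : 0 ≤ W) (hX : 0 ≤ X)
    (hL : 0 ≤ L) (hI : 0 ≤ I) (hu : 0 ≤ u) (hv : 0 ≤ v) (hx : 0 < x) (hl : 0 ≤ l)
    (hG : 0 ≤ G) (hδ : 0 ≤ δ)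
    (huE : u ≤ E) (hvx : v ≤ W * x) (hxX : x ≤ X) (hq : q ≤ Z * (u ^ (N - a) * v ^ (n - a)))
    (hq0 : 0 ≤ q) (hlL : l ≤ L * δ) (hGI : G ≤ I * (x ^ (K - a - b + 1))⁻¹) :
    q * (l * G) ≤ (Z * E ^ (K - a) * W ^ (n - a) * L * I *
      X ^ ((n - a) + (K + 1 - n) - (K - a - b + 1))) * (δ * (u ^ (N - K) * (x ^ (K + 1 - n))⁻¹)) := by
  have h1 : u ^ (N - a) ≤ E ^ (K - a) * u ^ (N - K) := by
    have e1 : N - a = (K - a) + (N - K) := by omega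
    rw [e1, pow_add]
    have : u ^ (K - a) ≤ E ^ (K - a) := pow_le_pow_left₀ hu huE _
    gcongr
  have h2 : v ^ (n - a) ≤ W ^ (n - a) * x ^ (n - a) := by
    rw [← mul_pow]
    exact pow_le_pow_left₀ hv hvx _
  have h3 := x14_pow x X hx hxX (n - a) (K - a - b + 1) (K + 1 - n) (by omega)
  have hq1 : q ≤ Z * ((E ^ (K - a) * u ^ (N - K)) * (W ^ (n - a) * x ^ (n - a))) :=
    hq.trans (by gcongr)
  calc q * (l * G) ≤ (Z * ((E ^ (K - a) * u ^ (N - K)) * (W ^ (n - a) * x ^ (n - a)))) *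
        ((L * δ) * (I * (x ^ (K - a - b + 1))⁻¹)) := by gcongr
    _ = (Z * E ^ (K - a) * W ^ (n - a) * L * I) * (δ * u ^ (N - K)) *
        (x ^ (n - a) * (x ^ (K - a - b + 1))⁻¹) := by ring
    _ ≤ (Z * E ^ (K - a) * W ^ (n - a) * L * I) * (δ * u ^ (N - K)) *
        (X ^ ((n - a) + (K + 1 - n) - (K - a - b + 1)) * (x ^ (K + 1 - n))⁻¹) := by gcongr
    _ = _ := by ring

theorem pointwise {d : ℕ} (f g : MvPolynomial (Fin d) ℂ) (C₀ : ℝ)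
    (hfg : ∀ z ∈ PCM.Ball d, ‖MvPolynomial.eval z f‖ ≤ C₀ * ‖MvPolynomial.eval z g‖)
    (hdil : ∀ ρ : ℝ, 0 ≤ ρ → ρ ≤ 1 → ∀ z ∈ PCM.Ball d,
      ‖MvPolynomial.eval z g‖ ≤ C₀ * ‖MvPolynomial.eval (fun i => (ρ : ℂ) * z i) g‖)
    (K N n : ℕ) (hnK : n ≤ K) (hKN : K ≤ N) : ∃ C : ℝ, 0 ≤ C ∧
    ∀ (ρ : ℝ) (G : PCM.A d), 0 ≤ ρ → ρ ≤ 1 → PCM.Conv G →
      ((dil ρ g : MvPolynomial (Fin d) ℂ) : PCM.A d) * G = 1 → ∀ z ∈ PCM.Ball d,
      ‖PCM.ev ((PCM.R d ^ K) (((eul g ^ N * f ^ n * g : MvPolynomial (Fin d) ℂ) : PCM.A d) * G))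
        z‖ ≤
        C * (1 + (1 - ρ) * (‖MvPolynomial.eval z (eul g)‖ ^ (N - K) *
          (‖MvPolynomial.eval (fun i => (ρ : ℂ) * z i) g‖ ^ (K + 1 - n))⁻¹)) := by
  obtain ⟨CK, hCK0, hCK⟩ := poly_bound (eul^[K] (eul g ^ N * f ^ n))
  obtain ⟨E', hE'0, hE'⟩ := poly_bound (eul g)
  obtain ⟨X, hX0, hX⟩ := poly_bound g
  have hZ := fun a => x14_q a N n (eul g) f
  choose Z hZ0 hZ using hZ
  have hL := fun b => poly_lip (eul^[b] g)
  choose L hL0 hL using hL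
  have hI := fun c => inv_bound g c
  choose I hI0 hI using hI
  obtain ⟨T, hT⟩ : ∃ T : ℕ → ℕ → ℝ, T = fun a b => (K.choose a : ℝ) * ((K - a).choose b *
    (Z a * (1 + E') ^ (K - a) * (|C₀| * |C₀|) ^ (n - a) * L b * I (K - a - b) *
      X ^ ((n - a) + (K + 1 - n) - (K - a - b + 1)))) := ⟨_, rfl⟩
  have hT0 : ∀ a b, 0 ≤ T a b := by
    intro a b
    have h1 := hZ0 a
    have h2 := hL0 b
    have h3 := hI0 (K - a - b)
    rw [hT]
    positivity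
  refine ⟨CK + ∑ a ∈ Finset.range (K + 1), ∑ b ∈ Finset.range (K - a + 1), T a b,
    add_nonneg hCK0 (Finset.sum_nonneg (fun a _ => Finset.sum_nonneg (fun b _ => hT0 a b))), ?_⟩
  intro ρ G hρ0 hρ1 hG hgG z hz
  have hρz : (fun i => (ρ : ℂ) * z i) ∈ PCM.Ball d := x12_ball ρ hρ0 hρ1 z hz
  have hz1 : (fun i => ((1 : ℝ) : ℂ) * z i) = z := by
    funext i
    rw [Complex.ofReal_one, one_mul]
  obtain ⟨x, hx⟩ : ∃ x : ℝ, x = ‖MvPolynomial.eval (fun i => (ρ : ℂ) * z i) g‖ := ⟨_, rfl⟩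
  obtain ⟨u, hu⟩ : ∃ u : ℝ, u = ‖MvPolynomial.eval z (eul g)‖ := ⟨_, rfl⟩
  have hxpos : 0 < x := by
    have h1 := PCM.ev_mul (conv_coe (dil ρ g)) hG hz
    rw [hgG, PCM.ev_one, ev_coe, eval_dil] at h1
    rw [hx]
    exact norm_pos_iff.2 (left_ne_zero_of_mul_eq_one h1.symm)
  have hu0 : 0 ≤ u := by rw [hu]; exact norm_nonneg _
  have hv : ‖MvPolynomial.eval z f‖ ≤ |C₀| * |C₀| * x := by
    have h1 := hfg z hz
    have h2 := hdil ρ hρ0 hρ1 z hz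
    rw [← hx] at h2
    have h3 : ‖MvPolynomial.eval z g‖ ≤ |C₀| * x :=
      h2.trans (by gcongr; exact le_abs_self _)
    calc ‖MvPolynomial.eval z f‖ ≤ C₀ * ‖MvPolynomial.eval z g‖ := h1
      _ ≤ |C₀| * ‖MvPolynomial.eval z g‖ := by gcongr; exact le_abs_self _
      _ ≤ |C₀| * (|C₀| * x) := by gcongr
      _ = _ := by ring
  have hδ : 0 ≤ 1 - ρ := by linarith
  -- decomposition
  obtain ⟨q, hq⟩ : ∃ q : MvPolynomial (Fin d) ℂ, q = eul g ^ N * f ^ n := ⟨_, rfl⟩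
  have hdec : (((eul g ^ N * f ^ n * g : MvPolynomial (Fin d) ℂ) : PCM.A d) * G) =
      (q : PCM.A d) + (q : PCM.A d) *
        (((g : PCM.A d) - ((dil ρ g : MvPolynomial (Fin d) ℂ) : PCM.A d)) * G) := by
    rw [← hq, MvPolynomial.coe_mul, sub_mul, hgG]
    ring
  have hcd : PCM.Conv ((g : PCM.A d) - ((dil ρ g : MvPolynomial (Fin d) ℂ) : PCM.A d)) :=
    PCM.conv_sub (conv_coe _) (conv_coe _)
  have hc2 : ∀ k, PCM.Conv ((PCM.R d ^ k)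
      (((g : PCM.A d) - ((dil ρ g : MvPolynomial (Fin d) ℂ) : PCM.A d)) * G)) := fun k =>
    PCM.conv_R_pow (PCM.conv_mul hcd hG) k
  have hev : PCM.ev ((PCM.R d ^ K) (((eul g ^ N * f ^ n * g : MvPolynomial (Fin d) ℂ) : PCM.A d) * G))
      z = MvPolynomial.eval z (eul^[K] q) + ∑ a ∈ Finset.range (K + 1), (K.choose a : ℂ) *
        (MvPolynomial.eval z (eul^[a] q) * ∑ b ∈ Finset.range (K - a + 1), ((K - a).choose b : ℂ) *
          ((MvPolynomial.eval z (eul^[b] g) -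
            MvPolynomial.eval (fun i => (ρ : ℂ) * z i) (eul^[b] g)) *
            PCM.ev ((PCM.R d ^ (K - a - b)) G) z)) := by
    have hcq : ∀ a, PCM.Conv ((PCM.R d ^ a) (q : PCM.A d)) := fun a =>
      PCM.conv_R_pow (conv_coe _) a
    have hterm : ∀ a b, PCM.Conv ((PCM.R d ^ b) ((g : PCM.A d) -
        ((dil ρ g : MvPolynomial (Fin d) ℂ) : PCM.A d)) * (PCM.R d ^ (a - b)) G) := fun a b =>
      PCM.conv_mul (PCM.conv_R_pow hcd b) (PCM.conv_R_pow hG _)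
    rw [hdec, map_add, PCM.ev_add (hcq K) (PCM.conv_R_pow (PCM.conv_mul (conv_coe _)
      (PCM.conv_mul hcd hG)) K) hz, R_pow_mul]
    rw [PCM.ev_sum _ _ (fun a _ => PCM.conv_smul _ (PCM.conv_mul (hcq a) (hc2 _))) hz]
    rw [R_pow_coe, ev_coe]
    congr 1
    refine Finset.sum_congr rfl (fun a _ => ?_)
    rw [PCM.ev_smul, PCM.ev_mul (hcq a) (hc2 _) hz, R_pow_coe, ev_coe, R_pow_mul,
      PCM.ev_sum _ _ (fun b _ => PCM.conv_smul _ (hterm _ b)) hz]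
    congr 2
    refine Finset.sum_congr rfl (fun b _ => ?_)
    rw [PCM.ev_smul, PCM.ev_mul (PCM.conv_R_pow hcd b) (PCM.conv_R_pow hG _) hz, map_sub,
      PCM.ev_sub (PCM.conv_R_pow (conv_coe _) b) (PCM.conv_R_pow (conv_coe _) b) hz, x13_dil,
      R_pow_coe, ev_coe]
  rw [hev, ← hx, ← hu]
  obtain ⟨Y, hY⟩ : ∃ Y : ℝ, Y = (1 - ρ) * (u ^ (N - K) * (x ^ (K + 1 - n))⁻¹) := ⟨_, rfl⟩
  have hY0 : 0 ≤ Y := by rw [hY]; positivity
  have hsum : ‖∑ a ∈ Finset.range (K + 1), (K.choose a : ℂ) *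
        (MvPolynomial.eval z (eul^[a] q) * ∑ b ∈ Finset.range (K - a + 1), ((K - a).choose b : ℂ) *
          ((MvPolynomial.eval z (eul^[b] g) -
            MvPolynomial.eval (fun i => (ρ : ℂ) * z i) (eul^[b] g)) *
            PCM.ev ((PCM.R d ^ (K - a - b)) G) z))‖ ≤
      (∑ a ∈ Finset.range (K + 1), ∑ b ∈ Finset.range (K - a + 1), T a b) * Y := by
    rw [Finset.sum_mul]
    refine (norm_sum_le _ _).trans (Finset.sum_le_sum (fun a ha => ?_))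
    have haK : a ≤ K := Nat.lt_succ_iff.1 (Finset.mem_range.1 ha)
    rw [Finset.mul_sum, Finset.mul_sum, Finset.sum_mul]
    refine (norm_sum_le _ _).trans (Finset.sum_le_sum (fun b hb => ?_))
    have hbK : b ≤ K - a := Nat.lt_succ_iff.1 (Finset.mem_range.1 hb)
    have hq1 := hZ a z hz
    rw [← hu, ← hq] at hq1
    have hl1 := hL b 1 ρ zero_le_one le_rfl hρ0 hρ1 z hz
    rw [hz1, abs_of_nonneg hδ] at hl1
    have hG1 := hI (K - a - b) ρ G hρ0 hρ1 hG hgG z hz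
    rw [← hx] at hG1
    have key := x14_real K N n a b hnK hKN haK hbK (Z a) (1 + E') (|C₀| * |C₀|) X (L b)
      (I (K - a - b)) u ‖MvPolynomial.eval z f‖ x ‖MvPolynomial.eval z (eul^[a] q)‖
      ‖MvPolynomial.eval z (eul^[b] g) - MvPolynomial.eval (fun i => (ρ : ℂ) * z i) (eul^[b] g)‖
      ‖PCM.ev ((PCM.R d ^ (K - a - b)) G) z‖ (1 - ρ) (hZ0 a) (by linarith) (by positivity) hX0
      (hL0 b) (hI0 _) hu0 (norm_nonneg _) hxpos (norm_nonneg _) (norm_nonneg _) hδ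
      (by
        have := hE' z hz
        rw [← hu] at this
        linarith) hv (by rw [hx]; exact hX _ hρz) hq1 (norm_nonneg _) hl1 hG1
    rw [← hY] at key
    rw [norm_mul, norm_mul, norm_mul, norm_mul, Complex.norm_natCast, Complex.norm_natCast]
    rw [hT]
    calc (K.choose a : ℝ) * (‖MvPolynomial.eval z (eul^[a] q)‖ * (((K - a).choose b : ℝ) *
          (‖MvPolynomial.eval z (eul^[b] g) -
            MvPolynomial.eval (fun i => (ρ : ℂ) * z i) (eul^[b] g)‖ *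
            ‖PCM.ev ((PCM.R d ^ (K - a - b)) G) z‖)))
        = (K.choose a : ℝ) * (((K - a).choose b : ℝ) * (‖MvPolynomial.eval z (eul^[a] q)‖ *
          (‖MvPolynomial.eval z (eul^[b] g) -
            MvPolynomial.eval (fun i => (ρ : ℂ) * z i) (eul^[b] g)‖ *
            ‖PCM.ev ((PCM.R d ^ (K - a - b)) G) z‖))) := by ring
      _ ≤ (K.choose a : ℝ) * (((K - a).choose b : ℝ) * (_ * Y)) := by gcongr
      _ = _ := by ring
  rw [hq] at hsum ⊢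
  have h1 := hCK z hz
  have hS0 : 0 ≤ ∑ a ∈ Finset.range (K + 1), ∑ b ∈ Finset.range (K - a + 1), T a b :=
    Finset.sum_nonneg (fun a _ => Finset.sum_nonneg (fun b _ => hT0 a b))
  rw [← hY]
  refine (norm_add_le _ _).trans ((add_le_add h1 hsum).trans ?_)
  nlinarith [mul_nonneg hCK0 hY0]

end PCX
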