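import Pool.Agent.PCX.X14
import Pool.Agent.PCX.X11

/-!
# [PCX-X15] the pointwise bound for dilates

Let `z ∈ Ball d`, `0 ≤ ρ < 1`, `0 ≤ r < 1`, `s = ρ r`.  Apply `pointwise` (`C₀ = max` of the constants, `dil_bound`) at
`r z ∈ Ball d` (`ρ (r z) = s z`), with `p = K + 1 - n`, `N' = N - K`, `u = ‖eval (r z) (eul g)‖`,
`v = ‖eval (s z) (eul g)‖`, `x = ‖eval (s z) g‖`:
`‖..‖² ≤ C² (1 + (1-ρ) u^N' x^(-p))² ≤ 2 C² (1 + (1-ρ)² u^(2N') x^(-2p))`.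
`1 - ρ ≤ 1 - s`.  `u ≤ v + C (r - s) ≤ v + C (1-s)` (`poly_lip` for `eul g`), so
`u^(2N') ≤ 2^(2N') (v^(2N') + C^(2N') (1-s)^(2N'))`, and
`(1-s)² (1-s)^(2N') x^(-2p) ≤ (1-s)^(2 + 2N' - 2pD) ≤ 1` by `lower_bound` (`x ≥ (1-s)^D`) and `p D ≤ N'`.
(`MvPolynomial.eval (fun i => ((ρ * r : ℝ) : ℂ) * z i) = eval (fun i => ρ * (r * z i))`.)
-/

open MeasureTheory Set Filter Topology

namespace PCX

open PCV

theorem x15_real (D p N' : ℕ) (hN : p * D ≤ N') (C L y u v x ρ s : ℝ) (hC : 0 ≤ C)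
    (hL : 0 ≤ L) (hy0 : 0 ≤ y) (hu : 0 ≤ u) (hv : 0 ≤ v) (hx : 0 < x) (hs0 : 0 ≤ s) (hs1 : s ≤ 1)
    (hρs : s ≤ ρ) (hρ1 : ρ ≤ 1) (huv : u ≤ v + L * (1 - s)) (hxs : (1 - s) ^ D ≤ x)
    (hy : y ≤ C * (1 + (1 - ρ) * (u ^ N' * (x ^ p)⁻¹))) :
    y ^ 2 ≤ 2 * C ^ 2 * (1 + 2 ^ (2 * N') * (1 + L ^ (2 * N'))) *
      (1 + (1 - s) ^ 2 * (v ^ (2 * N') * (x ^ (2 * p))⁻¹)) := by
  have h1s : 0 ≤ 1 - s := by linarith
  have h1ρ : 0 ≤ 1 - ρ := by linarith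
  obtain ⟨a, ha⟩ : ∃ a : ℝ, a = u ^ N' * (x ^ p)⁻¹ := ⟨_, rfl⟩
  have ha0 : 0 ≤ a := by rw [ha]; positivity
  have ha2 : a ^ 2 = u ^ (2 * N') * (x ^ (2 * p))⁻¹ := by
    rw [ha, mul_pow, inv_pow, ← pow_mul, ← pow_mul, mul_comm N' 2, mul_comm p 2]
  rw [← ha] at hy
  have h2 : y ≤ C * (1 + (1 - s) * a) := by
    refine hy.trans ?_
    gcongr
  have h3 : y ^ 2 ≤ C ^ 2 * (2 * (1 + (1 - s) ^ 2 * a ^ 2)) := by
    calc y ^ 2 ≤ (C * (1 + (1 - s) * a)) ^ 2 := pow_le_pow_left₀ hy0 h2 2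
      _ = C ^ 2 * (1 + (1 - s) * a) ^ 2 := by ring
      _ ≤ C ^ 2 * (2 * (1 + (1 - s) ^ 2 * a ^ 2)) := by
        gcongr
        nlinarith [sq_nonneg (1 - (1 - s) * a)]
  have h4 : u ^ (2 * N') ≤ 2 ^ (2 * N') * (v ^ (2 * N') + L ^ (2 * N') * (1 - s) ^ (2 * N')) := by
    have e1 : u ^ (2 * N') ≤ (v + L * (1 - s)) ^ (2 * N') := pow_le_pow_left₀ hu huv _
    have e2 := add_pow_le hv (by positivity : 0 ≤ L * (1 - s)) (2 * N')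
    refine e1.trans (e2.trans ?_)
    rw [mul_pow]
    gcongr
    · norm_num
    · omega
  have h5 : (1 - s) ^ (2 * N') * (x ^ (2 * p))⁻¹ ≤ 1 := by
    rw [← div_eq_mul_inv, div_le_one (by positivity)]
    calc (1 - s) ^ (2 * N') ≤ (1 - s) ^ (2 * (p * D)) :=
          pow_le_pow_of_le_one h1s (by linarith) (by omega)
      _ = ((1 - s) ^ D) ^ (2 * p) := by
          rw [← pow_mul]
          congr 1
          ring
      _ ≤ x ^ (2 * p) := pow_le_pow_left₀ (by positivity) hxs _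
  obtain ⟨w, hw⟩ : ∃ w : ℝ, w = v ^ (2 * N') * (x ^ (2 * p))⁻¹ := ⟨_, rfl⟩
  have hw0 : 0 ≤ w := by rw [hw]; positivity
  have hs2 : (1 - s) ^ 2 ≤ 1 := pow_le_one₀ h1s (by linarith)
  have h6 : (1 - s) ^ 2 * a ^ 2 ≤ 2 ^ (2 * N') * ((1 - s) ^ 2 * w + L ^ (2 * N')) := by
    rw [ha2]
    calc (1 - s) ^ 2 * (u ^ (2 * N') * (x ^ (2 * p))⁻¹)
        ≤ (1 - s) ^ 2 * ((2 ^ (2 * N') * (v ^ (2 * N') + L ^ (2 * N') * (1 - s) ^ (2 * N'))) *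
          (x ^ (2 * p))⁻¹) := by gcongr
      _ = 2 ^ (2 * N') * ((1 - s) ^ 2 * w + L ^ (2 * N') * ((1 - s) ^ 2 *
          ((1 - s) ^ (2 * N') * (x ^ (2 * p))⁻¹))) := by rw [hw]; ring
      _ ≤ 2 ^ (2 * N') * ((1 - s) ^ 2 * w + L ^ (2 * N') * (1 * 1)) := by gcongr
      _ = _ := by ring
  rw [← hw]
  have hP : (0 : ℝ) ≤ 2 ^ (2 * N') := by positivity
  have hQ : 0 ≤ L ^ (2 * N') := by positivity
  have hsw : 0 ≤ (1 - s) ^ 2 * w := by positivity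
  generalize (2 : ℝ) ^ (2 * N') = P at *
  generalize L ^ (2 * N') = Q at *
  generalize (1 - s) ^ 2 * w = t at *
  have h7 : 1 + (1 - s) ^ 2 * a ^ 2 ≤ (1 + P * (1 + Q)) * (1 + t) := by
    nlinarith [mul_nonneg hP hQ, mul_nonneg hP hsw, mul_nonneg (mul_nonneg hP hQ) hsw]
  calc y ^ 2 ≤ C ^ 2 * (2 * (1 + (1 - s) ^ 2 * a ^ 2)) := h3
    _ ≤ C ^ 2 * (2 * ((1 + P * (1 + Q)) * (1 + t))) := by gcongr
    _ = _ := by ring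

theorem pointwise_sq {d : ℕ} (D : ℕ) (f g : MvPolynomial (Fin d) ℂ) (C₀ : ℝ)
    (hfg : ∀ z ∈ PCM.Ball d, ‖MvPolynomial.eval z f‖ ≤ C₀ * ‖MvPolynomial.eval z g‖)
    (hD : g.totalDegree ≤ D) (h0 : MvPolynomial.constantCoeff g = 1)
    (hg : ∀ z ∈ PCM.Ball d, MvPolynomial.eval z g ≠ 0)
    (K N n : ℕ) (hnK : n ≤ K) (hKN : (K + 1 - n) * D + K ≤ N) : ∃ C : ℝ, 0 ≤ C ∧
    ∀ (ρ r : ℝ) (G : PCM.A d), 0 ≤ ρ → ρ < 1 → 0 ≤ r → r < 1 → PCM.Conv G →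
      ((dil ρ g : MvPolynomial (Fin d) ℂ) : PCM.A d) * G = 1 → ∀ z ∈ PCM.Ball d,
      ‖PCM.ev ((PCM.R d ^ K) (((eul g ^ N * f ^ n * g : MvPolynomial (Fin d) ℂ) : PCM.A d) * G))
        (fun i => (r : ℂ) * z i)‖ ^ 2 ≤
        C * (1 + (1 - ρ * r) ^ 2 *
          (‖MvPolynomial.eval (fun i => ((ρ * r : ℝ) : ℂ) * z i) (eul g)‖ ^ (2 * (N - K)) *
          (‖MvPolynomial.eval (fun i => ((ρ * r : ℝ) : ℂ) * z i) g‖ ^ (2 * (K + 1 - n)))⁻¹)) := by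
  have hKN' : K ≤ N := by omega
  obtain ⟨C, hC0, hC⟩ := pointwise f g (max C₀ (2 ^ D))
    (fun z hz => (hfg z hz).trans (by
      gcongr
      exact le_max_left _ _))
    (fun ρ hρ0 hρ1 z hz => (dil_bound D g hD h0 hg ρ hρ0 hρ1 z hz).trans (by
      gcongr
      exact le_max_right _ _)) K N n hnK hKN'
  obtain ⟨L, hL0, hL⟩ := poly_lip (eul g)
  refine ⟨2 * C ^ 2 * (1 + 2 ^ (2 * (N - K)) * (1 + L ^ (2 * (N - K)))), by positivity, ?_⟩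
  intro ρ r G hρ0 hρ1 hr0 hr1 hG hgG z hz
  have hrz : (fun i => (r : ℂ) * z i) ∈ PCM.Ball d := x12_ball r hr0 hr1.le z hz
  have h1 := hC ρ G hρ0 hρ1.le hG hgG _ hrz
  have e1 : (fun i => (ρ : ℂ) * ((r : ℂ) * z i)) = fun i => ((ρ * r : ℝ) : ℂ) * z i := by
    funext i
    push_cast
    ring
  rw [e1] at h1
  have hs0 : 0 ≤ ρ * r := by positivity
  have hsρ : ρ * r ≤ ρ := by nlinarith
  have hs1 : ρ * r ≤ 1 := by linarith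
  have hlow := lower_bound D g hD h0 hg (ρ * r) hs0 hs1 z hz
  have hxpos : 0 < ‖MvPolynomial.eval (fun i => ((ρ * r : ℝ) : ℂ) * z i) g‖ := by
    refine lt_of_lt_of_le ?_ hlow
    have : 0 < 1 - ρ * r := by nlinarith
    positivity
  have hlip := hL r (ρ * r) hr0 hr1.le hs0 hs1 z hz
  have huv : ‖MvPolynomial.eval (fun i => (r : ℂ) * z i) (eul g)‖ ≤
      ‖MvPolynomial.eval (fun i => ((ρ * r : ℝ) : ℂ) * z i) (eul g)‖ + L * (1 - ρ * r) := by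
    have e2 : |r - ρ * r| ≤ 1 - ρ * r := by
      rw [abs_of_nonneg (by nlinarith)]
      linarith
    have e3 := norm_add_le (MvPolynomial.eval (fun i => ((ρ * r : ℝ) : ℂ) * z i) (eul g))
      (MvPolynomial.eval (fun i => (r : ℂ) * z i) (eul g) -
        MvPolynomial.eval (fun i => ((ρ * r : ℝ) : ℂ) * z i) (eul g))
    rw [add_sub_cancel] at e3
    have e4 : L * |r - ρ * r| ≤ L * (1 - ρ * r) := by gcongr
    linarith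
  exact x15_real D (K + 1 - n) (N - K) (by omega) C L _ _ _ _ ρ (ρ * r) hC0 hL0 (norm_nonneg _)
    (norm_nonneg _) (norm_nonneg _) hxpos hs0 hs1 hsρ hρ1.le huv hlow h1

end PCX
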