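import Pool.Agent.PCX.X7

/-!
# [PCX-X8] the integral of the separation weights

`C₇, A` from `meas`; `M₀ = A + 1`.  Let `K ≥ 1` be a bound of `‖(P w)'(b)‖` for `‖w‖ ≤ 1`, `b ∈ (P w).roots` (compactness;
`‖b‖ ≤ √(nw w) ≤ √(1+m)`, or `lip`).  `E x y` the set in `meas`, `Ê` its measurable hull, `x_k = 2^(-k)`,
`y_l = 2^(-(l+1))`.
Pointwise, for `‖w‖ ≤ 1`, `b ∈ (P w).roots`, `δ = 1 - ‖b‖/√nw ∈ [0,1]`, `τ = 1 - s > 0`, `v = ‖(P w)'(b)‖`: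
`1 - s ‖b‖/√nw = 1 - s (1-δ) ≥ max τ δ =: u`.  Let `k` be the natural number with `2^(-(k+1)) < u ≤ 2^(-k)`; then
`2^(-k) ≥ τ` and `u⁻¹^e ≤ 2^((k+1)e)`, `w ∈ E x_k y` whenever `y ≤ v`.  And if `v ≠ 0` there is `l` with
`v^(2M) ≤ K^(2M) 2^(-2Ml)` and `y_l ≤ v` (`l = 0` if `v ≥ 1`, otherwise `2^(-(l+1)) ≤ v < 2^(-l)`); if `v = 0` the term is
`0` (`M ≥ 1`).  So, as extended real numbers,
`term ≤ ∑' k, ∑' l, [τ ≤ 2^(-k)] ofReal (K^(2M) 2^(-2Ml) 2^((k+1)e)) 1_{Ê x_k y_l}(w)`.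
There are `D` elements.  Integrate: with `(1-s)² = τ² ≤ 2^(-k-k₀)..`: let `k₀` be the largest `k` with `τ ≤ 2^(-k)`, so
`τ² ≤ 2^(-2k₀)`; the total is at most
`D K^(2M) C₇ 2^e ∑_{k ≤ k₀} 2^(-2k₀) 2^(ke) 2^(-km/2) ∑_l 2^(-2Ml) 2^(A(l+1))`.
`2M ≥ A + 1`: the sum over `l` is `≤ 2^A · 2`.  `2e ≤ m + 4`: `2^(ke) 2^(-km/2) ≤ 2^(2k)`, and
`∑_{k ≤ k₀} 2^(2k-2k₀) ≤ 4/3`.
(One may avoid `k₀`: for `τ ≤ 2^(-k)` use `τ² ≤ τ 2^(-k)`.. or bound `τ² ∑_{k : τ ≤ 2^(-k)} 2^(2k) ≤ 4/3` directly.)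
-/

open MeasureTheory Set Filter Topology

namespace PCX

open PCV

/-- the sets of `meas` -/
def x8E (m : ℕ) (P : (Fin m → ℂ) → Polynomial ℂ) (k l : ℕ) : Set (Fin m → ℂ) :=
  {w : Fin m → ℂ | ‖w‖ ≤ 1 ∧ ∃ b ∈ (P w).roots, (1 - (1 / 2 : ℝ) ^ k) * Real.sqrt (nw w) ≤ ‖b‖ ∧
        (1 / 2 : ℝ) ^ (l + 1) ≤ ‖(P w).derivative.eval b‖}

/-- the coefficients -/
noncomputable def x8a (K : ℝ) (M e k l : ℕ) : ENNReal :=
  ENNReal.ofReal (K ^ (2 * M) * ((1 / 2 : ℝ) ^ l) ^ (2 * M) * (2 ^ (k + 1)) ^ e)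

theorem x8_pt (m : ℕ) (P : (Fin m → ℂ) → Polynomial ℂ) (K : ℝ) (hK : 1 ≤ K) (M e n₀ : ℕ)
    (hM : 1 ≤ M) (s : ℝ) (hs0 : 0 ≤ s) (hs1 : s < 1)
    (hn₀ : (1 / 2 : ℝ) ^ (n₀ + 1) < 1 - s) (w : Fin m → ℂ) (hw : ‖w‖ ≤ 1) (b : ℂ)
    (hb : b ∈ (P w).roots) (hbn : ‖b‖ ≤ Real.sqrt (nw w))
    (hbK : ‖(P w).derivative.eval b‖ ≤ K) :
    ENNReal.ofReal (‖(P w).derivative.eval b‖ ^ (2 * M)) *
      ((ENNReal.ofReal (1 - s * (‖b‖ / Real.sqrt (nw w))))⁻¹) ^ e ≤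
    ∑ k ∈ Finset.range (n₀ + 1), ∑' l, x8a K M e k l *
      (toMeasurable volume (x8E m P k l)).indicator (fun _ => (1 : ENNReal)) w := by
  have hnw : 0 < Real.sqrt (nw w) := Real.sqrt_pos.2 (v12_nw_pos w)
  obtain ⟨v, hv⟩ : ∃ v : ℝ, v = ‖(P w).derivative.eval b‖ := ⟨_, rfl⟩
  obtain ⟨r, hr⟩ : ∃ r : ℝ, r = ‖b‖ / Real.sqrt (nw w) := ⟨_, rfl⟩
  rw [← hv] at hbK
  rw [← hv, ← hr]
  have hv0 : 0 ≤ v := by rw [hv]; exact norm_nonneg _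
  have hr0 : 0 ≤ r := by rw [hr]; positivity
  have hr1 : r ≤ 1 := by
    rw [hr, div_le_one hnw]
    exact hbn
  rcases hv0.eq_or_lt with hv00 | hvpos
  · rw [← hv00, zero_pow (by omega), ENNReal.ofReal_zero, zero_mul]
    exact bot_le
  have hu1 : 1 - s * r ≤ 1 := by nlinarith [mul_nonneg hs0 hr0]
  have huτ : 1 - s ≤ 1 - s * r := by nlinarith
  have hur : 1 - r ≤ 1 - s * r := by nlinarith
  have hu0 : 0 < 1 - s * r := by linarith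
  obtain ⟨k, hk1, hk2⟩ := exists_nat_pow_near_of_lt_one hu0 hu1 (by norm_num : (0 : ℝ) < 1 / 2)
    (by norm_num)
  have hkn : k ∈ Finset.range (n₀ + 1) := by
    rw [Finset.mem_range]
    by_contra hcon
    push Not at hcon
    have h1 : (1 / 2 : ℝ) ^ k ≤ (1 / 2) ^ (n₀ + 1) :=
      pow_le_pow_of_le_one (by norm_num) (by norm_num) hcon
    linarith
  obtain ⟨l, hl1, hl2⟩ : ∃ l : ℕ, (1 / 2 : ℝ) ^ (l + 1) ≤ v ∧ v ≤ K * (1 / 2) ^ l := by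
    rcases le_or_gt 1 v with h | h
    · refine ⟨0, ?_, ?_⟩
      · norm_num
        linarith
      · simpa using hbK
    · obtain ⟨l, h1, h2⟩ := exists_nat_pow_near_of_lt_one hvpos h.le
        (by norm_num : (0 : ℝ) < 1 / 2) (by norm_num)
      refine ⟨l, h1.le, h2.trans ?_⟩
      have : (0 : ℝ) < (1 / 2) ^ l := by positivity
      nlinarith
  have hmem : w ∈ toMeasurable volume (x8E m P k l) := by
    apply subset_toMeasurable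
    refine ⟨hw, b, hb, ?_, ?_⟩
    · have h1 : 1 - (1 / 2 : ℝ) ^ k ≤ r := by linarith
      rw [hr, le_div_iff₀ hnw] at h1
      exact h1
    · rw [← hv]
      exact hl1
  have hterm : ENNReal.ofReal (v ^ (2 * M)) * ((ENNReal.ofReal (1 - s * r))⁻¹) ^ e ≤
      x8a K M e k l := by
    unfold x8a
    rw [← ENNReal.ofReal_inv_of_pos hu0, ← ENNReal.ofReal_pow (by positivity),
      ← ENNReal.ofReal_mul (by positivity)]
    apply ENNReal.ofReal_le_ofReal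
    have h1 : v ^ (2 * M) ≤ K ^ (2 * M) * ((1 / 2 : ℝ) ^ l) ^ (2 * M) := by
      rw [← mul_pow]
      exact pow_le_pow_left₀ hv0 hl2 _
    have h2 : (1 - s * r)⁻¹ ≤ 2 ^ (k + 1) := by
      rw [inv_le_comm₀ hu0 (by positivity), ← inv_pow]
      have : (2 : ℝ)⁻¹ = 1 / 2 := by norm_num
      rw [this]
      exact hk1.le
    have h3 : ((1 - s * r)⁻¹) ^ e ≤ (2 ^ (k + 1)) ^ e := pow_le_pow_left₀ (by positivity) h2 e
    have h4 : (0 : ℝ) ≤ ((1 - s * r)⁻¹) ^ e := by positivity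
    have h5 : (0 : ℝ) ≤ K ^ (2 * M) * ((1 / 2 : ℝ) ^ l) ^ (2 * M) := by positivity
    exact mul_le_mul h1 h3 h4 h5
  refine hterm.trans ?_
  have h6 : x8a K M e k l ≤ ∑' l, x8a K M e k l *
      (toMeasurable volume (x8E m P k l)).indicator (fun _ => (1 : ENNReal)) w := by
    refine le_trans ?_ (ENNReal.le_tsum l)
    rw [Set.indicator_of_mem hmem, mul_one]
  exact h6.trans (Finset.single_le_sum (f := fun k => ∑' l, x8a K M e k l *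
      (toMeasurable volume (x8E m P k l)).indicator (fun _ => (1 : ENNReal)) w)
      (fun _ _ => bot_le) hkn)

theorem x8_geom (n : ℕ) : ∑ k ∈ Finset.range n, (4 : ℝ) ^ k ≤ 4 ^ n / 3 := by
  induction n with
  | zero => norm_num
  | succ n ih =>
    rw [Finset.sum_range_succ, pow_succ]
    linarith

theorem x8_half : ∑' l : ℕ, ENNReal.ofReal ((1 / 2 : ℝ) ^ l) = 2 := by
  rw [← ENNReal.ofReal_tsum_of_nonneg (fun n => by positivity) summable_geometric_two,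
    tsum_geometric_two]
  simp

theorem x8_aux (A B : ℝ) (e m : ℕ) : (A ^ e * B ^ m) ^ 2 = A ^ (2 * e) * (B ^ 2) ^ m := by
  ring

theorem x8_aux2 (A : ℝ) : A ^ 4 = (A ^ 2) ^ 2 := by
  ring

theorem x8_coef (K C₇ : ℝ) (hK : 1 ≤ K) (hC₇ : 0 < C₇) (M e A m k l : ℕ) (hM : A + 1 ≤ M)
    (he : 2 * e ≤ m + 4) (τ : ℝ) (hτ : 0 ≤ τ) :
    ENNReal.ofReal (τ ^ 2) * (x8a K M e k l *
      ENNReal.ofReal (C₇ * ((1 / 2 : ℝ) ^ (l + 1))⁻¹ ^ A * Real.sqrt ((1 / 2) ^ k) ^ m)) ≤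
    ENNReal.ofReal (K ^ (2 * M) * C₇ * 2 ^ A * 2 ^ e * (τ ^ 2 * 4 ^ k)) *
      ENNReal.ofReal ((1 / 2 : ℝ) ^ l) := by
  unfold x8a
  have hsq : 0 ≤ Real.sqrt ((1 / 2 : ℝ) ^ k) := Real.sqrt_nonneg _
  rw [← ENNReal.ofReal_mul (by positivity), ← ENNReal.ofReal_mul (by positivity),
    ← ENNReal.ofReal_mul (by positivity)]
  apply ENNReal.ofReal_le_ofReal
  have h1 : (2 ^ (k + 1) : ℝ) ^ e * Real.sqrt ((1 / 2) ^ k) ^ m ≤ 2 ^ e * 4 ^ k := by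
    have h2 : (2 ^ k : ℝ) ^ e * Real.sqrt ((1 / 2) ^ k) ^ m ≤ 4 ^ k := by
      have h3 : ((2 ^ k : ℝ) ^ e * Real.sqrt ((1 / 2) ^ k) ^ m) ^ 2 ≤ (4 ^ k) ^ 2 := by
        have e1 : ((2 ^ k : ℝ) ^ e * Real.sqrt ((1 / 2) ^ k) ^ m) ^ 2 =
            (2 ^ k) ^ (2 * e) * ((1 / 2) ^ k) ^ m := by
          have e2 : Real.sqrt ((1 / 2 : ℝ) ^ k) ^ 2 = (1 / 2) ^ k := Real.sq_sqrt (by positivity)
          calc ((2 ^ k : ℝ) ^ e * Real.sqrt ((1 / 2) ^ k) ^ m) ^ 2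
              = (2 ^ k) ^ (2 * e) * (Real.sqrt ((1 / 2) ^ k) ^ 2) ^ m := x8_aux _ _ _ _
            _ = _ := by rw [e2]
        rw [e1]
        have e3 : (4 : ℝ) ^ k = (2 ^ k) ^ 2 := by
          rw [← pow_mul, mul_comm k 2, pow_mul]
          norm_num
        rw [e3]
        have e4 : (2 ^ k : ℝ) ^ (2 * e) ≤ (2 ^ k) ^ (m + 4) :=
          pow_le_pow_right₀ (one_le_pow₀ (by norm_num)) he
        have e5 : (2 ^ k : ℝ) ^ m * ((1 / 2) ^ k) ^ m = 1 := by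
          rw [← mul_pow, ← mul_pow]
          norm_num
        calc (2 ^ k : ℝ) ^ (2 * e) * ((1 / 2) ^ k) ^ m
            ≤ (2 ^ k) ^ (m + 4) * ((1 / 2) ^ k) ^ m := by gcongr
          _ = ((2 ^ k : ℝ) ^ m * ((1 / 2) ^ k) ^ m) * (2 ^ k) ^ 4 := by rw [pow_add]; ring
          _ = ((2 ^ k) ^ 2) ^ 2 := by rw [e5, one_mul, x8_aux2]
      exact le_of_sq_le_sq h3 (by positivity)
    calc (2 ^ (k + 1) : ℝ) ^ e * Real.sqrt ((1 / 2) ^ k) ^ m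
        = 2 ^ e * ((2 ^ k : ℝ) ^ e * Real.sqrt ((1 / 2) ^ k) ^ m) := by
          rw [pow_succ, mul_pow]
          ring
      _ ≤ 2 ^ e * 4 ^ k := by gcongr
  have h2 : ((1 / 2 : ℝ) ^ l) ^ (2 * M) * ((1 / 2 : ℝ) ^ (l + 1))⁻¹ ^ A ≤ 2 ^ A * (1 / 2) ^ l := by
    have e1 : ((1 / 2 : ℝ) ^ (l + 1))⁻¹ ^ A = 2 ^ A * (2 ^ l) ^ A := by
      rw [← inv_pow, ← mul_pow, pow_succ, mul_comm]
      norm_num
    rw [e1]
    have e2 : ((1 / 2 : ℝ) ^ l) ^ (2 * M) ≤ ((1 / 2 : ℝ) ^ l) ^ (A + 1) :=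
      pow_le_pow_of_le_one (by positivity) (pow_le_one₀ (by norm_num) (by norm_num)) (by omega)
    have e5 : (2 ^ l : ℝ) ^ A * ((1 / 2) ^ l) ^ A = 1 := by
      rw [← mul_pow, ← mul_pow]
      norm_num
    calc ((1 / 2 : ℝ) ^ l) ^ (2 * M) * (2 ^ A * (2 ^ l) ^ A)
        ≤ ((1 / 2 : ℝ) ^ l) ^ (A + 1) * (2 ^ A * (2 ^ l) ^ A) := by gcongr
      _ = 2 ^ A * (((2 ^ l : ℝ) ^ A * ((1 / 2) ^ l) ^ A) * (1 / 2) ^ l) := by rw [pow_succ]; ring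
      _ = 2 ^ A * (1 / 2) ^ l := by rw [e5, one_mul]
  have hK0 : (0 : ℝ) ≤ K ^ (2 * M) := by positivity
  calc τ ^ 2 * (K ^ (2 * M) * ((1 / 2 : ℝ) ^ l) ^ (2 * M) * (2 ^ (k + 1)) ^ e *
        (C₇ * ((1 / 2 : ℝ) ^ (l + 1))⁻¹ ^ A * Real.sqrt ((1 / 2) ^ k) ^ m))
      = (K ^ (2 * M) * C₇ * τ ^ 2) * ((((1 / 2 : ℝ) ^ l) ^ (2 * M) * ((1 / 2 : ℝ) ^ (l + 1))⁻¹ ^ A) *
        ((2 ^ (k + 1) : ℝ) ^ e * Real.sqrt ((1 / 2) ^ k) ^ m)) := by ring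
    _ ≤ (K ^ (2 * M) * C₇ * τ ^ 2) * ((2 ^ A * (1 / 2) ^ l) * (2 ^ e * 4 ^ k)) := by
        gcongr
    _ = _ := by ring

theorem layer (m D : ℕ) (P : (Fin m → ℂ) → Polynomial ℂ) (hP : PFam m D P) :
    ∃ M₀ : ℕ, ∀ M e : ℕ, M₀ ≤ M → 2 * e ≤ m + 4 → ∃ C : NNReal, ∀ s : ℝ, 0 ≤ s → s < 1 →
      ENNReal.ofReal ((1 - s) ^ 2) * ∫⁻ w in Metric.closedBall (0 : Fin m → ℂ) 1,
        ((P w).roots.map fun b => ENNReal.ofReal (‖(P w).derivative.eval b‖ ^ (2 * M)) *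
          ((ENNReal.ofReal (1 - s * (‖b‖ / Real.sqrt (nw w))))⁻¹) ^ e).sum ≤ C := by
  obtain ⟨C₇, A, hC₇, hmeas⟩ := meas m D P hP
  refine ⟨A + 1, ?_⟩
  intro M e hM he
  obtain ⟨L, hL1, hL⟩ := lip m D P hP (Real.sqrt (1 + m))
  obtain ⟨K, hKdef⟩ : ∃ K : ℝ, K = 1 + ‖(P 0).derivative.eval 0‖ + L * (1 + Real.sqrt (1 + m)) :=
    ⟨_, rfl⟩
  have hsq : 0 ≤ Real.sqrt (1 + (m : ℝ)) := Real.sqrt_nonneg _
  have hK1 : 1 ≤ K := by
    rw [hKdef]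
    have h1 : 0 ≤ L * (1 + Real.sqrt (1 + m)) := by positivity
    have h2 := norm_nonneg ((P 0).derivative.eval 0)
    linarith
  have hbK : ∀ w : Fin m → ℂ, ‖w‖ ≤ 1 → ∀ b ∈ (P w).roots, ‖(P w).derivative.eval b‖ ≤ K := by
    intro w hw b hb
    have h1 : ‖b‖ ≤ Real.sqrt (1 + m) := by
      refine (hP.bound w b hb).trans (Real.sqrt_le_sqrt ?_)
      have := nw_le w 1 hw
      linarith
    have h2 := (hL w 0 b 0 (by linarith) (by simp) h1 (by simpa using hsq)).2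
    rw [sub_zero, sub_zero] at h2
    have h3 : ‖(P w).derivative.eval b‖ ≤ ‖(P 0).derivative.eval 0‖ +
        ‖(P w).derivative.eval b - (P 0).derivative.eval 0‖ := by
      have := norm_add_le ((P 0).derivative.eval 0)
        ((P w).derivative.eval b - (P 0).derivative.eval 0)
      rwa [add_sub_cancel] at this
    have h4 : L * (‖w‖ + ‖b‖) ≤ L * (1 + Real.sqrt (1 + m)) := by gcongr
    rw [hKdef]
    linarith
  obtain ⟨G, hG⟩ : ∃ G : ℝ, G = K ^ (2 * M) * C₇ * 2 ^ A * 2 ^ e := ⟨_, rfl⟩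
  have hG0 : 0 ≤ G := by rw [hG]; positivity
  refine ⟨D * (2 * (G * (4 / 3)).toNNReal), ?_⟩
  intro s hs0 hs1
  obtain ⟨n₀, hn1, hn2⟩ := exists_nat_pow_near_of_lt_one (x := 1 - s) (by linarith) (by linarith)
    (by norm_num : (0 : ℝ) < 1 / 2) (by norm_num)
  obtain ⟨F, hF⟩ : ∃ F : (Fin m → ℂ) → ENNReal, F = fun w =>
      ∑ k ∈ Finset.range (n₀ + 1), ∑' l, x8a K M e k l *
      (toMeasurable volume (x8E m P k l)).indicator (fun _ => (1 : ENNReal)) w := ⟨_, rfl⟩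
  have hpt : ∀ w ∈ Metric.closedBall (0 : Fin m → ℂ) 1,
      ((P w).roots.map fun b => ENNReal.ofReal (‖(P w).derivative.eval b‖ ^ (2 * M)) *
          ((ENNReal.ofReal (1 - s * (‖b‖ / Real.sqrt (nw w))))⁻¹) ^ e).sum ≤ D * F w := by
    intro w hw
    rw [mem_closedBall_zero_iff] at hw
    have h1 := Multiset.sum_le_card_nsmul ((P w).roots.map fun b =>
      ENNReal.ofReal (‖(P w).derivative.eval b‖ ^ (2 * M)) *
          ((ENNReal.ofReal (1 - s * (‖b‖ / Real.sqrt (nw w))))⁻¹) ^ e) (F w) (by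
      intro x hx
      rw [Multiset.mem_map] at hx
      obtain ⟨b, hb, rfl⟩ := hx
      rw [hF]
      exact x8_pt m P K hK1 M e n₀ (by omega) s hs0 hs1 hn1 w hw b hb (hP.bound w b hb)
        (hbK w hw b hb))
    refine h1.trans ?_
    rw [Multiset.card_map, nsmul_eq_mul]
    gcongr
    rw [← hP.deg w]
    exact (P w).card_roots'
  have hmeasF : ∀ k l, Measurable (fun w : Fin m → ℂ => x8a K M e k l *
      (toMeasurable volume (x8E m P k l)).indicator (fun _ => (1 : ENNReal)) w) := by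
    intro k l
    exact ((measurable_const.indicator (measurableSet_toMeasurable _ _))).const_mul _
  have hint : ∫⁻ w, F w = ∑ k ∈ Finset.range (n₀ + 1), ∑' l, x8a K M e k l *
      volume (x8E m P k l) := by
    rw [hF, lintegral_finsetSum _ (fun k _ => Measurable.ennreal_tsum (hmeasF k))]
    refine Finset.sum_congr rfl (fun k _ => ?_)
    rw [lintegral_tsum (fun l => (hmeasF k l).aemeasurable)]
    refine tsum_congr (fun l => ?_)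
    rw [lintegral_const_mul _ (measurable_const.indicator (measurableSet_toMeasurable _ _)),
      lintegral_indicator (measurableSet_toMeasurable _ _), lintegral_one,
      Measure.restrict_apply_univ, measure_toMeasurable]
  have hF2 : ∫⁻ w in Metric.closedBall (0 : Fin m → ℂ) 1,
        ((P w).roots.map fun b => ENNReal.ofReal (‖(P w).derivative.eval b‖ ^ (2 * M)) *
          ((ENNReal.ofReal (1 - s * (‖b‖ / Real.sqrt (nw w))))⁻¹) ^ e).sum ≤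
      D * ∑ k ∈ Finset.range (n₀ + 1), ∑' l, x8a K M e k l * volume (x8E m P k l) := by
    refine (setLIntegral_mono' Metric.isClosed_closedBall.measurableSet hpt).trans ?_
    rw [lintegral_const_mul' _ _ (ENNReal.natCast_ne_top D), ← hint]
    gcongr
    exact Measure.restrict_le_self
  have hvol : ∀ k l, volume (x8E m P k l) ≤
      ENNReal.ofReal (C₇ * ((1 / 2 : ℝ) ^ (l + 1))⁻¹ ^ A * Real.sqrt ((1 / 2) ^ k) ^ m) := by
    intro k l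
    exact hmeas ((1 / 2) ^ k) ((1 / 2) ^ (l + 1)) (by positivity)
      (pow_le_one₀ (by norm_num) (by norm_num)) (by positivity)
      (pow_le_one₀ (by norm_num) (by norm_num))
  have hτ : 0 ≤ 1 - s := by linarith
  calc ENNReal.ofReal ((1 - s) ^ 2) * ∫⁻ w in Metric.closedBall (0 : Fin m → ℂ) 1,
        ((P w).roots.map fun b => ENNReal.ofReal (‖(P w).derivative.eval b‖ ^ (2 * M)) *
          ((ENNReal.ofReal (1 - s * (‖b‖ / Real.sqrt (nw w))))⁻¹) ^ e).sum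
      ≤ ENNReal.ofReal ((1 - s) ^ 2) *
        (D * ∑ k ∈ Finset.range (n₀ + 1), ∑' l, x8a K M e k l * volume (x8E m P k l)) := by
        gcongr
    _ ≤ ENNReal.ofReal ((1 - s) ^ 2) * (D * ∑ k ∈ Finset.range (n₀ + 1), ∑' l, x8a K M e k l *
        ENNReal.ofReal (C₇ * ((1 / 2 : ℝ) ^ (l + 1))⁻¹ ^ A * Real.sqrt ((1 / 2) ^ k) ^ m)) := by
        gcongr with k hk l
        exact hvol k l
    _ = D * ∑ k ∈ Finset.range (n₀ + 1), ∑' l, ENNReal.ofReal ((1 - s) ^ 2) * (x8a K M e k l *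
        ENNReal.ofReal (C₇ * ((1 / 2 : ℝ) ^ (l + 1))⁻¹ ^ A * Real.sqrt ((1 / 2) ^ k) ^ m)) := by
        rw [mul_left_comm, Finset.mul_sum]
        congr 1
        refine Finset.sum_congr rfl (fun k _ => ?_)
        rw [ENNReal.tsum_mul_left]
    _ ≤ D * ∑ k ∈ Finset.range (n₀ + 1), ∑' l, ENNReal.ofReal (G * ((1 - s) ^ 2 * 4 ^ k)) *
        ENNReal.ofReal ((1 / 2 : ℝ) ^ l) := by
        refine mul_le_mul' le_rfl (Finset.sum_le_sum (fun k _ => ENNReal.tsum_le_tsum (fun l => ?_)))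
        rw [hG]
        exact x8_coef K C₇ hK1 hC₇ M e A m k l hM he (1 - s) hτ
    _ = D * (∑ k ∈ Finset.range (n₀ + 1), ENNReal.ofReal (G * ((1 - s) ^ 2 * 4 ^ k))) * 2 := by
        rw [mul_assoc, Finset.sum_mul]
        congr 1
        refine Finset.sum_congr rfl (fun k _ => ?_)
        rw [ENNReal.tsum_mul_left, x8_half]
    _ ≤ D * ENNReal.ofReal (G * (4 / 3)) * 2 := by
        gcongr
        rw [← ENNReal.ofReal_sum_of_nonneg (fun k _ => by positivity)]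
        apply ENNReal.ofReal_le_ofReal
        rw [← Finset.mul_sum, ← Finset.mul_sum]
        gcongr
        have h1 := x8_geom (n₀ + 1)
        have h2 : (1 - s) ^ 2 ≤ ((1 / 2 : ℝ) ^ n₀) ^ 2 := pow_le_pow_left₀ hτ hn2 2
        have h3 : ((1 / 2 : ℝ) ^ n₀) ^ 2 * 4 ^ (n₀ + 1) = 4 := by
          have h4 : ((1 / 2 : ℝ) ^ n₀) ^ 2 = (1 / 4) ^ n₀ := by
            rw [← pow_mul, mul_comm n₀ 2, pow_mul]
            norm_num
          rw [h4, pow_succ, ← mul_assoc, ← mul_pow]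
          norm_num
        calc (1 - s) ^ 2 * ∑ k ∈ Finset.range (n₀ + 1), (4 : ℝ) ^ k
            ≤ ((1 / 2 : ℝ) ^ n₀) ^ 2 * (4 ^ (n₀ + 1) / 3) := by gcongr
          _ = (((1 / 2 : ℝ) ^ n₀) ^ 2 * 4 ^ (n₀ + 1)) / 3 := by ring
          _ = 4 / 3 := by rw [h3]
    _ = _ := by
        have h1 : ENNReal.ofReal (G * (4 / 3)) = ((G * (4 / 3)).toNNReal : ENNReal) := rfl
        rw [h1]
        push_cast
        ring

end PCX
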