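import Pool.Agent.PCX.Defs
import Pool.Agent.PCV.A3
import Pool.Agent.PCV.V3

/-!
# [PCX-X9] the slices of a polynomial form a family

* `pfam`: `a1_monic` (or `a3_deg`) gives monic and degree.  `bs_bound` and `sum_ins` give `bound`
  (`bs D g (ins i w) = (revSlice D g (ins i w)).roots` by definition).  `hol`, `hol'`:
  `(revSlice D g z).eval X = ∑_{j ≤ D} g_j(z) X^(D-j)` and the derivative `∑ g_j(z) (D-j) X^(D-j-1)`; finite sums of
  products of analytic functions: `w ↦ eval (ins i w) (g_j)` is analytic (as in `PCV/A3`: each coordinate of `ins i w` is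
  constant or a coordinate of `w`; `MvPolynomial` induction).
* `sep_roots`: `P = ∏_{l ∈ P.roots} (X - C l)` (splits, monic).  With `P.roots = b ::ₘ S'`, `S' = P.roots.erase b`:
  `P = (X - C b) * Q`, `P' = Q + (X - C b) Q'`, `P'(b) = Q(b) = ∏_{l ∈ S'} (b - l)`.
* `sep_scale`: `(S.map f).erase (f c) = (S.erase c).map f` for the injective map `f l = l/r`
  (`Multiset.map_erase`), and each factor `‖c/r - l/r‖ = ‖c-l‖/r ≤ ‖c-l‖`.
-/

open MeasureTheory Set Filter Topology

namespace PCX

open PCV

theorem x9_coef (m : ℕ) (g : MvPolynomial (Fin (m + 1)) ℂ) (i : Fin (m + 1)) :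
    AnalyticOnNhd ℂ (fun p : (Fin m → ℂ) × ℂ => MvPolynomial.eval (ins i p.1) g) Set.univ := by
  have h2 : (fun p : (Fin m → ℂ) × ℂ => MvPolynomial.eval (ins i p.1) g) =
      fun p => MvPolynomial.aeval (ins i p.1) g := by
    funext p
    exact (DFunLike.congr_fun (MvPolynomial.coe_aeval_eq_eval _) _).symm
  rw [h2]
  refine AnalyticOnNhd.aeval_mvPolynomial (fun c => ?_) g
  exact (a3_ins i c).comp analyticOnNhd_fst (Set.mapsTo_univ _ _)

theorem pfam (m D : ℕ) (g : MvPolynomial (Fin (m + 1)) ℂ) (hD : g.totalDegree ≤ D)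
    (h0 : MvPolynomial.constantCoeff g = 1)
    (hg : ∀ z ∈ PCM.Ball (m + 1), MvPolynomial.eval z g ≠ 0) (i : Fin (m + 1)) :
    PFam m D (fun w => revSlice D g (ins i w)) := by
  refine ⟨fun w => (a1_monic D g h0 _).1, fun w => (a1_monic D g h0 _).2, ?_, ?_, ?_⟩
  · have h1 : (fun p : (Fin m → ℂ) × ℂ => (revSlice D g (ins i p.1)).eval p.2) =
        fun p => ∑ j ∈ Finset.range (D + 1),
          MvPolynomial.eval (ins i p.1) (MvPolynomial.homogeneousComponent j g) *
            p.2 ^ (D - j) := by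
      funext p
      unfold revSlice
      rw [Polynomial.eval_finsetSum]
      refine Finset.sum_congr rfl (fun j _ => ?_)
      simp
    rw [h1]
    refine Finset.analyticOnNhd_fun_sum _ (fun j _ => ?_)
    exact (x9_coef m _ i).mul (analyticOnNhd_snd.pow _)
  · have h1 : (fun p : (Fin m → ℂ) × ℂ => (revSlice D g (ins i p.1)).derivative.eval p.2) =
        fun p => ∑ j ∈ Finset.range (D + 1),
          MvPolynomial.eval (ins i p.1) (MvPolynomial.homogeneousComponent j g) *
            (((D - j : ℕ) : ℂ) * p.2 ^ (D - j - 1)) := by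
      funext p
      unfold revSlice
      rw [Polynomial.derivative_sum, Polynomial.eval_finsetSum]
      refine Finset.sum_congr rfl (fun j _ => ?_)
      rw [Polynomial.derivative_C_mul_X_pow]
      simp [mul_assoc]
    rw [h1]
    refine Finset.analyticOnNhd_fun_sum _ (fun j _ => ?_)
    exact (x9_coef m _ i).mul (analyticOnNhd_const.mul (analyticOnNhd_snd.pow _))
  · intro w b hb
    have h1 := bs_bound D g hD h0 hg (ins i w) b hb
    rwa [sum_ins] at h1

theorem sep_roots (P : Polynomial ℂ) (hP : P.Monic) (b : ℂ) (hb : b ∈ P.roots) :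
    ‖P.derivative.eval b‖ = sep P.roots b := by
  classical
  obtain ⟨S', hS'⟩ : ∃ S', P.roots = b ::ₘ S' := Multiset.exists_cons_of_mem hb
  have h1 : P = (P.roots.map fun b => Polynomial.X - Polynomial.C b).prod :=
    (IsAlgClosed.splits P).eq_prod_roots_of_monic hP
  have hsep : sep P.roots b = (S'.map fun l => ‖b - l‖).prod := by
    unfold sep
    rw [hS', Multiset.erase_cons_head]
  rw [hS', Multiset.map_cons, Multiset.prod_cons] at h1
  have h2 : P.derivative.eval b = ((S'.map fun b => Polynomial.X - Polynomial.C b).prod).eval b := by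
    conv_lhs => rw [h1]
    simp
  rw [h2, hsep, Polynomial.eval_multiset_prod, Multiset.map_map]
  have h3 := Multiset.prod_hom (S'.map fun l => b - l) (normHom : ℂ →*₀ ℝ)
  rw [Multiset.map_map] at h3
  have h4 : (S'.map ((fun p => Polynomial.eval b p) ∘ fun b => Polynomial.X - Polynomial.C b)) =
      S'.map fun l => b - l := by
    apply Multiset.map_congr rfl
    intro l _
    simp
  rw [h4]
  exact h3.symm

theorem sep_scale (S : Multiset ℂ) (c : ℂ) (r : ℝ) (hr : 1 ≤ r) :
    sep (S.map fun l => l / (r : ℂ)) (c / (r : ℂ)) ≤ sep S c := by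
  classical
  have hr0 : (r : ℂ) ≠ 0 := by
    have : r ≠ 0 := by linarith
    exact_mod_cast this
  have hinj : Function.Injective (fun l : ℂ => l / (r : ℂ)) := by
    intro a b h
    exact (div_left_inj' hr0).1 h
  have h1 : sep (S.map fun l => l / (r : ℂ)) (c / (r : ℂ)) =
      ((S.erase c).map fun l => ‖c / (r : ℂ) - l / (r : ℂ)‖).prod := by
    unfold sep
    have h2 := Multiset.map_erase (fun l : ℂ => l / (r : ℂ)) hinj c S
    rw [← h2, Multiset.map_map]
    rfl
  have h3 : ∀ T : Multiset ℂ, (T.map fun l => ‖c / (r : ℂ) - l / (r : ℂ)‖).prod ≤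
      (T.map fun l => ‖c - l‖).prod ∧ 0 ≤ (T.map fun l => ‖c / (r : ℂ) - l / (r : ℂ)‖).prod := by
    intro T
    induction T using Multiset.induction with
    | empty => simp
    | cons a T ih =>
      rw [Multiset.map_cons, Multiset.prod_cons, Multiset.map_cons, Multiset.prod_cons]
      have e1 : ‖c / (r : ℂ) - a / (r : ℂ)‖ ≤ ‖c - a‖ := by
        rw [← sub_div, norm_div, Complex.norm_real, Real.norm_of_nonneg (by linarith)]
        exact div_le_self (norm_nonneg _) hr
      exact ⟨mul_le_mul e1 ih.1 ih.2 (norm_nonneg _), mul_nonneg (norm_nonneg _) ih.2⟩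
  rw [h1]
  refine (h3 (S.erase c)).1.trans (le_of_eq ?_)
  unfold sep
  congr

theorem sep_nonneg (S : Multiset ℂ) (c : ℂ) : 0 ≤ sep S c := by
  unfold sep
  apply Multiset.prod_nonneg
  intro x hx
  rw [Multiset.mem_map] at hx
  obtain ⟨l, _, rfl⟩ := hx
  exact norm_nonneg _

end PCX
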