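import Pool.Agent.PCX.X2
import Pool.Agent.PCX.X8
import Pool.Agent.PCX.X9
import Pool.Agent.PCX.X15
import Pool.Agent.PCV.N2

/-!
# [PCX-X16] the weighted integral over the ball

`d = m+1`, `p`, `M = N - p`.  Fix `0 ≤ s < 1`.  The function
`F z = ofReal ((1 - ∑‖z i‖²)^d * (‖eval (s z) (eul g)‖^(2N) * (‖eval (s z) g‖^(2p))⁻¹))` on the ball (`0` outside) is
measurable; `chart_le` (`PCV/N2`): `∫⁻ Ball ≤ ∑_i ∫⁻ w in closedBall 0 1, ∫⁻ μ in ball 0 1, F (μ/√nw · ins i w)`.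
Fix `i`, `w`, put `r = √(nw w) ≥ 1`, `B = bs D g (ins i w)`, `S = B.map (·/r)`: `card S = D`, `‖c‖ ≤ 1` (`bs_bound`,
`sum_ins`).  `1 - ∑ ‖μ/r · ins i w‖² = 1 - ‖μ‖²`.  By `eval_slice'` and `slice_eul` with `t = s μ/r` (and
`(QS B).eval (t'/r) = (QS S).eval t'`, `(t'/r) (QS B)'(t'/r) = t' (QS S)'(t')`: `QS S = (QS B).comp (C r⁻¹ * X)`),
the inner integrand is the one of `slice_int` with `q = d`, so the inner integral is
`≤ C (1 + ∑_{c ∈ S} ofReal (sep S c^(2M)) (ofReal (1 - s‖c‖))⁻¹^e)`, and for `c = b/r`: `sep S c ≤ sep B b` (`sep_scale`)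
`= ‖(revSlice D g (ins i w))'(b)‖` (`sep_roots`), `‖c‖ = ‖b‖/r`.
Multiply by `ofReal ((1-s)²) ≤ 1` and integrate over `w`: `layer` for the family `pfam` (`M₀` = maximum over `i` of
the constants, finitely many).  (`lintegral_mono`, `lintegral_add_left measurable_const`.)
-/

open MeasureTheory Set Filter Topology

namespace PCX

open PCV

theorem x16_comp (B : Multiset ℂ) (r : ℂ) :
    QS (B.map fun l => l / r) = (QS B).comp (Polynomial.C r⁻¹ * Polynomial.X) := by
  unfold QS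
  rw [Polynomial.multiset_prod_comp, Multiset.map_map, Multiset.map_map]
  congr 1
  refine Multiset.map_congr rfl fun b _ => ?_
  show 1 - Polynomial.C (b / r) * Polynomial.X =
    (1 - Polynomial.C b * Polynomial.X).comp (Polynomial.C r⁻¹ * Polynomial.X)
  rw [Polynomial.sub_comp, Polynomial.one_comp, Polynomial.mul_comp, Polynomial.C_comp,
    Polynomial.X_comp, ← mul_assoc, ← Polynomial.C_mul, div_eq_mul_inv]

theorem x16_eval (B : Multiset ℂ) (r t : ℂ) :
    (QS (B.map fun l => l / r)).eval t = (QS B).eval (t / r) := by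
  rw [x16_comp, Polynomial.eval_comp, Polynomial.eval_mul, Polynomial.eval_C, Polynomial.eval_X]
  congr 1
  rw [div_eq_mul_inv, mul_comm]

theorem x16_deriv (B : Multiset ℂ) (r t : ℂ) :
    t * (QS (B.map fun l => l / r)).derivative.eval t =
      t / r * (QS B).derivative.eval (t / r) := by
  rw [x16_comp, Polynomial.derivative_comp, Polynomial.eval_mul, Polynomial.eval_comp,
    Polynomial.eval_mul, Polynomial.eval_C, Polynomial.eval_X]
  have h1 : (Polynomial.C r⁻¹ * Polynomial.X : Polynomial ℂ).derivative = Polynomial.C r⁻¹ := by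
    rw [Polynomial.derivative_C_mul, Polynomial.derivative_X, mul_one]
  rw [h1, Polynomial.eval_C, show r⁻¹ * t = t / r by rw [div_eq_mul_inv, mul_comm]]
  rw [div_eq_mul_inv t r]
  ring

theorem x16_nw {m : ℕ} (w : Fin m → ℂ) : 1 ≤ Real.sqrt (nw w) := by
  rw [Real.one_le_sqrt]
  exact one_le_nw w

theorem x16_sq {m : ℕ} (i : Fin (m + 1)) (w : Fin m → ℂ) (μ : ℂ) :
    ∑ j, ‖μ / (Real.sqrt (nw w) : ℂ) * ins i w j‖ ^ 2 = ‖μ‖ ^ 2 := by
  have h1 := x16_nw w
  have h2 : Real.sqrt (nw w) ^ 2 = nw w := Real.sq_sqrt (by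
    have := one_le_nw w
    linarith)
  have h3 : ∀ j, ‖μ / (Real.sqrt (nw w) : ℂ) * ins i w j‖ ^ 2 = ‖μ‖ ^ 2 / nw w * ‖ins i w j‖ ^ 2 := by
    intro j
    rw [norm_mul, norm_div, Complex.norm_real, Real.norm_eq_abs,
      abs_of_nonneg (Real.sqrt_nonneg _), mul_pow, div_pow, h2]
  have h4 := one_le_nw w
  rw [Finset.sum_congr rfl fun j _ => h3 j, ← Finset.mul_sum, sum_ins,
    div_mul_cancel₀ _ (by linarith)]

theorem ball_int (m D : ℕ) (g : MvPolynomial (Fin (m + 1)) ℂ) (hD : g.totalDegree ≤ D)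
    (h0 : MvPolynomial.constantCoeff g = 1)
    (hg : ∀ z ∈ PCM.Ball (m + 1), MvPolynomial.eval z g ≠ 0) (p : ℕ) :
    ∃ N₀ : ℕ, ∀ N e : ℕ, N₀ ≤ N → 1 ≤ e → 2 * e ≤ m + 4 → 2 * p ≤ e + (m + 1) + 2 →
      ∃ C : NNReal, ∀ s : ℝ, 0 ≤ s → s < 1 → ENNReal.ofReal ((1 - s) ^ 2) *
        ∫⁻ z in PCM.Ball (m + 1), ENNReal.ofReal ((1 - ∑ i, ‖z i‖ ^ 2) ^ (m + 1) *
          (‖MvPolynomial.eval (fun i => (s : ℂ) * z i) (eul g)‖ ^ (2 * N) *
            (‖MvPolynomial.eval (fun i => (s : ℂ) * z i) g‖ ^ (2 * p))⁻¹)) ≤ C := by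
  choose M₀ hM₀ using fun i => layer m D _ (pfam m D g hD h0 hg i)
  refine ⟨p + (∑ i, M₀ i) + p * D + 2 * p, fun N e hN he1 he2 hpe => ?_⟩
  have hM : ∀ i, M₀ i ≤ N - p := by
    intro i
    have h1 : M₀ i ≤ ∑ j, M₀ j := Finset.single_le_sum (f := M₀) (fun _ _ => Nat.zero_le _)
      (Finset.mem_univ i)
    omega
  choose C₁ hC₁ using fun i => hM₀ i (N - p) e (hM i) he2
  obtain ⟨C₂, hC₂⟩ := slice_int D p N (m + 1) e (by omega) (by omega) he1 hpe
  obtain ⟨V, hV⟩ : ∃ V : NNReal, volume (Metric.closedBall (0 : Fin m → ℂ) 1) = V :=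
    ⟨_, (ENNReal.coe_toNNReal (measure_closedBall_lt_top).ne).symm⟩
  refine ⟨∑ i, C₂ * (V + C₁ i), fun s hs0 hs1 => ?_⟩
  set F0 : (Fin (m + 1) → ℂ) → ENNReal := fun z =>
    ENNReal.ofReal ((1 - ∑ i, ‖z i‖ ^ 2) ^ (m + 1) *
          (‖MvPolynomial.eval (fun i => (s : ℂ) * z i) (eul g)‖ ^ (2 * N) *
            (‖MvPolynomial.eval (fun i => (s : ℂ) * z i) g‖ ^ (2 * p))⁻¹)) with hF0
  have hBm : MeasurableSet (PCM.Ball (m + 1)) := by
    unfold PCM.Ball
    refine IsOpen.measurableSet (isOpen_lt ?_ continuous_const)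
    fun_prop
  have hev : ∀ P : MvPolynomial (Fin (m + 1)) ℂ,
      Measurable fun z : Fin (m + 1) → ℂ => ‖MvPolynomial.eval (fun i => (s : ℂ) * z i) P‖ := by
    intro P
    have h1 : Continuous fun z : Fin (m + 1) → ℂ =>
        MvPolynomial.eval (fun i => (s : ℂ) * z i) P := by
      refine (MvPolynomial.continuous_eval P).comp ?_
      fun_prop
    exact h1.norm.measurable
  have hF0m : Measurable F0 := by
    have h1 : Measurable fun z : Fin (m + 1) → ℂ => (1 - ∑ i, ‖z i‖ ^ 2) ^ (m + 1) := by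
      fun_prop
    exact (h1.mul (((hev (eul g)).pow_const _).mul (((hev g).pow_const _).inv))).ennreal_ofReal
  set F : (Fin (m + 1) → ℂ) → ENNReal := (PCM.Ball (m + 1)).indicator F0 with hF
  have hFm : Measurable F := hF0m.indicator hBm
  have hFF : ∫⁻ z in PCM.Ball (m + 1), F0 z = ∫⁻ z in PCM.Ball (m + 1), F z := by
    refine setLIntegral_congr_fun hBm fun z hz => ?_
    rw [hF, Set.indicator_of_mem hz]
  rw [hFF]
  refine (mul_le_mul' le_rfl (chart_le m F hFm)).trans ?_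
  rw [Finset.mul_sum]
  push_cast
  refine Finset.sum_le_sum fun i _ => ?_
  -- the inner integral
  have hinner : ∀ w : Fin m → ℂ, ∫⁻ μ in Metric.ball (0 : ℂ) 1,
      F (fun j => μ / (Real.sqrt (nw w) : ℂ) * ins i w j) ≤
      C₂ * (1 + ((revSlice D g (ins i w)).roots.map fun b =>
        ENNReal.ofReal (‖(revSlice D g (ins i w)).derivative.eval b‖ ^ (2 * (N - p))) *
          ((ENNReal.ofReal (1 - s * (‖b‖ / Real.sqrt (nw w))))⁻¹) ^ e).sum) := by
    intro w
    have hr1 := x16_nw w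
    have hr0 : 0 < Real.sqrt (nw w) := by linarith
    set B : Multiset ℂ := (revSlice D g (ins i w)).roots with hB
    set S : Multiset ℂ := B.map fun l => l / (Real.sqrt (nw w) : ℂ) with hS
    have hcard : Multiset.card S = D := by
      rw [hS, Multiset.card_map]
      exact card_bs D g hD h0 (ins i w)
    have hSn : ∀ c ∈ S, ‖c‖ ≤ 1 := by
      intro c hc
      obtain ⟨b, hb, rfl⟩ := Multiset.mem_map.1 hc
      rw [norm_div, Complex.norm_real, Real.norm_eq_abs, abs_of_pos hr0, div_le_one hr0]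
      exact (pfam m D g hD h0 hg i).bound w b hb
    have h1 := hC₂ S s hcard hSn hs0 hs1
    refine le_trans (le_of_eq ?_) (h1.trans ?_)
    · refine setLIntegral_congr_fun Metric.isOpen_ball.measurableSet fun μ hμ => ?_
      rw [mem_ball_zero_iff] at hμ
      have h2 : (fun j => μ / (Real.sqrt (nw w) : ℂ) * ins i w j) ∈ PCM.Ball (m + 1) := by
        show ∑ j, ‖μ / (Real.sqrt (nw w) : ℂ) * ins i w j‖ ^ 2 < 1
        rw [x16_sq]
        nlinarith [norm_nonneg μ]
      have h3 : (fun j => (s : ℂ) * (μ / (Real.sqrt (nw w) : ℂ) * ins i w j)) =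
          fun j => ((s : ℂ) * μ) / (Real.sqrt (nw w) : ℂ) * ins i w j := by
        funext j
        ring
      show F (fun j => μ / (Real.sqrt (nw w) : ℂ) * ins i w j) = _
      rw [hF, Set.indicator_of_mem h2, hF0]
      simp only []
      rw [x16_sq, h3, slice_eul D g hD h0, eval_slice' D g hD h0]
      have h4 : (QS (bs D g (ins i w))).eval ((s : ℂ) * μ / (Real.sqrt (nw w) : ℂ)) =
          (QS S).eval ((s : ℂ) * μ) := (x16_eval B _ _).symm
      have h5 : (s : ℂ) * μ / (Real.sqrt (nw w) : ℂ) *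
          (QS (bs D g (ins i w))).derivative.eval ((s : ℂ) * μ / (Real.sqrt (nw w) : ℂ)) =
          (s : ℂ) * μ * (QS S).derivative.eval ((s : ℂ) * μ) := (x16_deriv B _ _).symm
      rw [h4, h5]
    · refine mul_le_mul' le_rfl (add_le_add le_rfl ?_)
      rw [hS, Multiset.map_map]
      refine Multiset.sum_map_le_sum_map _ _ fun b hb => ?_
      have h6 : sep S (b / (Real.sqrt (nw w) : ℂ)) ≤
          ‖(revSlice D g (ins i w)).derivative.eval b‖ := by
        rw [sep_roots _ ((pfam m D g hD h0 hg i).monic w) b hb]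
        exact sep_scale B b (Real.sqrt (nw w)) hr1
      show ENNReal.ofReal (sep S (b / (Real.sqrt (nw w) : ℂ)) ^ (2 * (N - p))) *
          ((ENNReal.ofReal (1 - s * ‖b / (Real.sqrt (nw w) : ℂ)‖))⁻¹) ^ e ≤ _
      rw [norm_div, Complex.norm_real, Real.norm_eq_abs, abs_of_pos hr0]
      refine mul_le_mul' (ENNReal.ofReal_le_ofReal ?_) le_rfl
      exact pow_le_pow_left₀ (sep_nonneg _ _) h6 _
  have hlay := hC₁ i s hs0 hs1
  have hsq : ENNReal.ofReal ((1 - s) ^ 2) ≤ 1 := by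
    rw [ENNReal.ofReal_le_one]
    nlinarith
  calc ENNReal.ofReal ((1 - s) ^ 2) * ∫⁻ w in Metric.closedBall (0 : Fin m → ℂ) 1,
        ∫⁻ μ in Metric.ball (0 : ℂ) 1, F (fun j => μ / (Real.sqrt (nw w) : ℂ) * ins i w j)
      ≤ ENNReal.ofReal ((1 - s) ^ 2) * ∫⁻ w in Metric.closedBall (0 : Fin m → ℂ) 1,
        C₂ * (1 + ((revSlice D g (ins i w)).roots.map fun b =>
        ENNReal.ofReal (‖(revSlice D g (ins i w)).derivative.eval b‖ ^ (2 * (N - p))) *
          ((ENNReal.ofReal (1 - s * (‖b‖ / Real.sqrt (nw w))))⁻¹) ^ e).sum) :=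
        mul_le_mul' le_rfl (lintegral_mono fun w => hinner w)
    _ = C₂ * (ENNReal.ofReal ((1 - s) ^ 2) * V + ENNReal.ofReal ((1 - s) ^ 2) *
        ∫⁻ w in Metric.closedBall (0 : Fin m → ℂ) 1,
          ((revSlice D g (ins i w)).roots.map fun b =>
        ENNReal.ofReal (‖(revSlice D g (ins i w)).derivative.eval b‖ ^ (2 * (N - p))) *
          ((ENNReal.ofReal (1 - s * (‖b‖ / Real.sqrt (nw w))))⁻¹) ^ e).sum) := by
        rw [lintegral_const_mul' _ _ ENNReal.coe_ne_top, lintegral_add_left measurable_const,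
          setLIntegral_const, one_mul, hV]
        ring
    _ ≤ C₂ * (V + C₁ i) := by
        refine mul_le_mul' le_rfl (add_le_add ?_ hlay)
        calc ENNReal.ofReal ((1 - s) ^ 2) * (V : ENNReal) ≤ 1 * V := mul_le_mul' hsq le_rfl
          _ = V := one_mul _

end PCX
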