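import Pool.Agent.PCX.X16
import Pool.Agent.PCV.N1
import Pool.Agent.PCV.N4
import Pool.Agent.PCM.P10

/-!
# [PCX-X17] the uniform bound

`d = m+1`, `K = d`, `D = g.totalDegree`, `p = K + 1 - n`, `e = max 1 (d - 2n)`: `2p ≤ e + d + 2`, `2e ≤ m + 4`
(from `m ≤ 4n + 2`).  `N₀` from `ball_int`; take `N = K + max N₀ (p D)` (`N' = N - K`).
Use `mem_of_bound` (`PCM/P10`) with `k = d` and the law `ν` of `exists_law_density d d` for
`a = ((eul g)^N * f^n * g) * G` (`Conv`: `conv_coe`, `conv_mul`).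
* `coeff 0 a = ev a 0 = 0`: `eul g` has constant coefficient `0`.
* for `0 ≤ r < 1`: `pointwise_sq` with `s = ρ r`:
  `≤ c C [∫⁻ Ball 1 + ofReal ((1-s)²) ∫⁻ Ball ofReal ((1-V)^d * (..))]`, bounded by `ball_int`, independently of `ρ, r`.
The result: `nrm a ^ 2 ≤ const`.
-/

open MeasureTheory Set Filter Topology

namespace PCX

open PCV

/-- an integral is at most the upper integral -/
theorem x17_int {X : Type*} [MeasurableSpace X] (μ : Measure X) (G : X → ℝ) (hG : ∀ x, 0 ≤ G x)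
    (T : ENNReal) (hT : T ≠ ⊤) (h : ∫⁻ x, ENNReal.ofReal (G x) ∂μ ≤ T) :
    ∫ x, G x ∂μ ≤ T.toReal := by
  by_cases hi : Integrable G μ
  · rw [integral_eq_lintegral_of_nonneg_ae (Filter.Eventually.of_forall hG) hi.aestronglyMeasurable]
    exact ENNReal.toReal_mono hT h
  · rw [integral_undef hi]
    exact ENNReal.toReal_nonneg

theorem x17_vol (d : ℕ) : volume (PCM.Ball d) < ⊤ := by
  refine lt_of_le_of_lt (measure_mono (t := Metric.closedBall (0 : Fin d → ℂ) 1) ?_)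
    measure_closedBall_lt_top
  intro z hz
  rw [mem_closedBall_zero_iff, pi_norm_le_iff_of_nonneg zero_le_one]
  intro i
  have h1 : ‖z i‖ ^ 2 ≤ ∑ j, ‖z j‖ ^ 2 :=
    Finset.single_le_sum (f := fun j => ‖z j‖ ^ 2) (fun j _ => by positivity) (Finset.mem_univ i)
  have h2 : ∑ j, ‖z j‖ ^ 2 < 1 := hz
  nlinarith [norm_nonneg (z i)]

theorem x17_meas (d : ℕ) : MeasurableSet (PCM.Ball d) := by
  unfold PCM.Ball
  refine IsOpen.measurableSet (isOpen_lt ?_ continuous_const)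
  fun_prop

open PCM in
theorem uniform (m n : ℕ) (hn : n ≤ m + 1) (hmn : m ≤ 4 * n + 2)
    (f g : MvPolynomial (Fin (m + 1)) ℂ) (C₀ : ℝ)
    (hfg : ∀ z ∈ Ball (m + 1), ‖MvPolynomial.eval z f‖ ≤ C₀ * ‖MvPolynomial.eval z g‖)
    (h0 : MvPolynomial.constantCoeff g = 1)
    (hg : ∀ z ∈ Ball (m + 1), MvPolynomial.eval z g ≠ 0) :
    ∃ (N : ℕ) (M : ℝ), 1 ≤ N ∧ ∀ (ρ : ℝ) (G : A (m + 1)), 0 ≤ ρ → ρ < 1 → Conv G →
      ((dil ρ g : MvPolynomial (Fin (m + 1)) ℂ) : A (m + 1)) * G = 1 →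
      nrm (((eul g ^ N * f ^ n * g : MvPolynomial (Fin (m + 1)) ℂ) : A (m + 1)) * G) ≤ M := by
  obtain ⟨N₀, hN₀⟩ := ball_int m g.totalDegree g le_rfl h0 hg (m + 1 + 1 - n)
  set N' : ℕ := max N₀ ((m + 1 + 1 - n) * g.totalDegree) with hN'
  have hN1 : N₀ ≤ N' := le_max_left _ _
  have hN2 : (m + 1 + 1 - n) * g.totalDegree ≤ N' := le_max_right _ _
  obtain ⟨C, hC⟩ := hN₀ N' (max 1 (m + 1 - 2 * n)) hN1 (le_max_left _ _) (by omega) (by omega)
  obtain ⟨C₁, hC₁0, hC₁⟩ := pointwise_sq g.totalDegree f g C₀ hfg le_rfl h0 hg (m + 1)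
    (m + 1 + N') n hn (by omega)
  obtain ⟨c, hlaw⟩ := exists_law_density (m + 1) (m + 1)
  obtain ⟨T, hT⟩ : ∃ T : ENNReal, T = (c : ENNReal) * (ENNReal.ofReal C₁ *
    (volume (Ball (m + 1)) + C)) := ⟨_, rfl⟩
  have hTt : T ≠ ⊤ := by
    rw [hT]
    refine ENNReal.mul_ne_top ENNReal.coe_ne_top (ENNReal.mul_ne_top ENNReal.ofReal_ne_top ?_)
    exact ENNReal.add_ne_top.2 ⟨(x17_vol (m + 1)).ne, ENNReal.coe_ne_top⟩
  refine ⟨m + 1 + N', Real.sqrt ((2 * ((m + 1 : ℕ) : ℝ) + 1) * T.toReal), by omega,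
    fun ρ G hρ0 hρ1 hG hGi => ?_⟩
  obtain ⟨a, ha⟩ : ∃ a : A (m + 1),
    a = ((eul g ^ (m + 1 + N') * f ^ n * g : MvPolynomial (Fin (m + 1)) ℂ) : A (m + 1)) * G :=
    ⟨_, rfl⟩
  have hac : Conv a := by
    rw [ha]
    exact conv_mul (conv_coe _) hG
  have hcoef : MvPowerSeries.coeff 0 a = 0 := by
    have hz : (fun _ => (0 : ℂ)) ∈ Ball (m + 1) := p20_zero_mem_ball
    have h1 : MvPolynomial.eval (fun _ : Fin (m + 1) => (0 : ℂ)) (eul g) = 0 := by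
      have h2 := DFunLike.congr_fun (MvPolynomial.eval_zero' (R := ℂ) (σ := Fin (m + 1))) (eul g)
      rw [constantCoeff_eul] at h2
      exact h2
    rw [← ev_zero_point, ha, ev_mul (conv_coe _) hG hz, ev_coe, map_mul, map_mul, map_pow, h1,
      zero_pow (by omega), zero_mul, zero_mul, zero_mul]
  have hlaw' : IsLaw (m + 1) (2 * (m + 1)) ((c : ENNReal) •
      ((volume : Measure (Fin (m + 1) → ℂ)).restrict (PCM.Ball (m + 1))).withDensity
        fun z => ENNReal.ofReal ((1 - ∑ i, ‖z i‖ ^ 2) ^ (m + 1))) := by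
    rw [two_mul]
    exact hlaw
  rw [← ha]
  have hmain := (mem_of_bound (m + 1) _ hlaw' hac T.toReal ?_).2
  · rw [hcoef, norm_zero, zero_pow two_ne_zero, zero_add] at hmain
    exact (le_abs_self _).trans (Real.abs_le_sqrt hmain)
  · intro r hr0 hr1
    refine x17_int _ _ (fun z => by positivity) T hTt ?_
    have hwm : Measurable fun z : Fin (m + 1) → ℂ =>
        ENNReal.ofReal ((1 - ∑ i, ‖z i‖ ^ 2) ^ (m + 1)) := by
      fun_prop
    rw [lintegral_smul_measure, hT]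
    refine mul_le_mul' le_rfl ((lintegral_withDensity_le_lintegral_mul _ hwm _).trans ?_)
    have hs0 : 0 ≤ ρ * r := mul_nonneg hρ0 hr0
    have hs1 : ρ * r < 1 := by nlinarith
    have hpt : ∀ z ∈ Ball (m + 1), ((fun z : Fin (m + 1) → ℂ =>
        ENNReal.ofReal ((1 - ∑ i, ‖z i‖ ^ 2) ^ (m + 1))) *
        fun z : Fin (m + 1) → ℂ => ENNReal.ofReal
          (‖ev ((R (m + 1) ^ (m + 1)) a) (fun i => (r : ℂ) * z i)‖ ^ 2)) z ≤
        ENNReal.ofReal C₁ * (1 + ENNReal.ofReal ((1 - ρ * r) ^ 2) *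
          ENNReal.ofReal ((1 - ∑ i, ‖z i‖ ^ 2) ^ (m + 1) *
          (‖MvPolynomial.eval (fun i => ((ρ * r : ℝ) : ℂ) * z i) (eul g)‖ ^ (2 * N') *
            (‖MvPolynomial.eval (fun i => ((ρ * r : ℝ) : ℂ) * z i) g‖ ^
              (2 * (m + 1 + 1 - n)))⁻¹))) := by
      intro z hz
      have hz' : ∑ i, ‖z i‖ ^ 2 < 1 := hz
      have hV0 : 0 ≤ ∑ i, ‖z i‖ ^ 2 := Finset.sum_nonneg fun i _ => by positivity
      have hw0 : 0 ≤ (1 - ∑ i, ‖z i‖ ^ 2) ^ (m + 1) := pow_nonneg (by linarith) _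
      have hw1 : (1 - ∑ i, ‖z i‖ ^ 2) ^ (m + 1) ≤ 1 := pow_le_one₀ (by linarith) (by linarith)
      have h1 := hC₁ ρ r G hρ0 hρ1 hr0 hr1 hG hGi z hz
      rw [← ha, Nat.add_sub_cancel_left] at h1
      rw [← ENNReal.ofReal_one, ← ENNReal.ofReal_mul (by positivity),
        ← ENNReal.ofReal_add zero_le_one (by positivity), ← ENNReal.ofReal_mul hC₁0]
      show ENNReal.ofReal ((1 - ∑ i, ‖z i‖ ^ 2) ^ (m + 1)) * ENNReal.ofReal
          (‖ev ((R (m + 1) ^ (m + 1)) a) (fun i => (r : ℂ) * z i)‖ ^ 2) ≤ _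
      rw [← ENNReal.ofReal_mul hw0]
      refine ENNReal.ofReal_le_ofReal ?_
      refine (mul_le_mul_of_nonneg_left h1 hw0).trans ?_
      set X : ℝ := ‖MvPolynomial.eval (fun i => ((ρ * r : ℝ) : ℂ) * z i) (eul g)‖ ^ (2 * N') *
        (‖MvPolynomial.eval (fun i => ((ρ * r : ℝ) : ℂ) * z i) g‖ ^ (2 * (m + 1 + 1 - n)))⁻¹ with hX
      set W : ℝ := (1 - ∑ i, ‖z i‖ ^ 2) ^ (m + 1) with hW
      have h2 : W * (C₁ * (1 + (1 - ρ * r) ^ 2 * X)) = C₁ * (W + (1 - ρ * r) ^ 2 * (W * X)) := by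
        ring
      rw [h2]
      refine mul_le_mul_of_nonneg_left ?_ hC₁0
      linarith
    refine (setLIntegral_mono' (x17_meas (m + 1)) hpt).trans ?_
    rw [lintegral_const_mul' _ _ ENNReal.ofReal_ne_top, lintegral_add_left measurable_const,
      lintegral_const_mul' _ _ ENNReal.ofReal_ne_top, setLIntegral_const, one_mul]
    refine mul_le_mul' le_rfl (add_le_add le_rfl ?_)
    exact hC (ρ * r) hs0 hs1

end PCX
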