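import Pool.Agent.PCM.E1
import Pool.Agent.PCM.E2
import Pool.Agent.PCM.E3

/-!
# [PCX-X18] invariant subspaces

Everything follows from `exists_submodule` (`PCM/P19`), `bounded_of_mult` (`PCM/P13`), `mul_mem_inv`, as in `PCM/E1`, `E3`.
* `inv_lim`: as in the proof of `C_lim` (`PCM/E3`): `mem_of_weak`, `coeff_tendsto_of_ev`.
* `inv_smul_mult`: if `a ∈ inv b` then `φ * a ∈ inv b`: `nrm (φ a - (φ ψ) b) ≤ M nrm (a - ψ b)`.
* `inv_mul_mult`: if `a ∈ inv b` then `c * a ∈ inv (c * b)`.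
* `inv_trans`: `a ∈ inv b`, `b ∈ inv c` implies `a ∈ inv c` (`a - ψ b` small, `b - χ c` very small).
* `inv_add`, `inv_const`.
-/

open MeasureTheory Set Filter Topology

namespace PCX

open PCM

theorem inv_lim {d : ℕ} {a b : A d} (ha : IsMult a) (hb : b ∈ H2 d) (X : ℕ → A d)
    (hX : ∀ j, X j ∈ inv a) (B : ℝ) (hB : ∀ j, nrm (X j) ≤ B)
    (hpt : ∀ z ∈ Ball d, Tendsto (fun j => ev (X j) z) atTop (𝓝 (ev b z))) : b ∈ inv a := by
  obtain ⟨S, hSc, hS⟩ := exists_submodule a ha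
  have hmem : ∀ j, toE (X j) (hX j).1 ∈ S := by
    intro j
    rw [hS, ofE_toE]
    exact hX j
  have hlim : toE b hb ∈ S := by
    refine mem_of_weak S hSc (fun j => toE (X j) (hX j).1) (toE b hb) B (fun j => ?_)
      (fun α => ?_) hmem
    · rw [norm_toE]
      exact hB j
    · have h5 := coeff_tendsto_of_ev X b (fun j => (hX j).1) hb B hB hpt α
      exact h5.const_mul ((Real.sqrt (wt α) : ℝ) : ℂ)
  rwa [hS, ofE_toE] at hlim

theorem inv_smul_mult {d : ℕ} {a b φ : A d} (hb : IsMult b) (hφ : IsMult φ) (h : a ∈ inv b) :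
    φ * a ∈ inv b := by
  refine ⟨hφ _ h.1, fun ε hε => ?_⟩
  obtain ⟨M, hM1, hM⟩ := bounded_of_mult hφ
  have hM0 : 0 < M := lt_of_lt_of_le one_pos hM1
  obtain ⟨ψ, hψ, h1⟩ := h.2 (ε / M) (div_pos hε hM0)
  refine ⟨φ * ψ, mult_mul hφ hψ, ?_⟩
  have h2 : φ * a - φ * ψ * b = φ * (a - ψ * b) := by ring
  rw [h2]
  rw [lt_div_iff₀ hM0] at h1
  have h3 := hM _ (sub_mem h.1 (hψ _ (mem_of_mult hb)))
  linarith

theorem inv_mul_mult {d : ℕ} {a b c : A d} (hb : IsMult b) (hc : IsMult c) (h : a ∈ inv b) :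
    c * a ∈ inv (c * b) := by
  refine ⟨hc _ h.1, fun ε hε => ?_⟩
  obtain ⟨M, hM1, hM⟩ := bounded_of_mult hc
  have hM0 : 0 < M := lt_of_lt_of_le one_pos hM1
  obtain ⟨ψ, hψ, h1⟩ := h.2 (ε / M) (div_pos hε hM0)
  refine ⟨ψ, hψ, ?_⟩
  have h2 : c * a - ψ * (c * b) = c * (a - ψ * b) := by ring
  rw [h2]
  rw [lt_div_iff₀ hM0] at h1
  have h3 := hM _ (sub_mem h.1 (hψ _ (mem_of_mult hb)))
  linarith

theorem inv_trans {d : ℕ} {a b c : A d} (hb : IsMult b) (hc : IsMult c) (h1 : a ∈ inv b)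
    (h2 : b ∈ inv c) : a ∈ inv c := by
  refine ⟨h1.1, fun ε hε => ?_⟩
  obtain ⟨φ, hφ, h3⟩ := h1.2 (ε / 2) (half_pos hε)
  obtain ⟨M, hM1, hM⟩ := bounded_of_mult hφ
  have hM0 : 0 < M := lt_of_lt_of_le one_pos hM1
  obtain ⟨ψ, hψ, h4⟩ := h2.2 (ε / (2 * M)) (div_pos hε (by positivity))
  have hbm := mem_of_mult hb
  have hcm := mem_of_mult hc
  refine ⟨φ * ψ, mult_mul hφ hψ, ?_⟩
  have h5 : a - φ * ψ * c = (a - φ * b) + φ * (b - ψ * c) := by ring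
  have h6 := nrm_add_le (sub_mem h1.1 (hφ _ hbm)) (hφ _ (sub_mem hbm (hψ _ hcm)))
  have h7 := hM _ (sub_mem hbm (hψ _ hcm))
  rw [lt_div_iff₀ (by positivity)] at h4
  rw [h5]
  have h8 : M * nrm (b - ψ * c) < ε / 2 := by linarith
  linarith

theorem inv_add {d : ℕ} {a b c : A d} (hc : IsMult c) (h1 : a ∈ inv c) (h2 : b ∈ inv c) :
    a + b ∈ inv c := by
  refine ⟨add_mem h1.1 h2.1, fun ε hε => ?_⟩
  obtain ⟨φ, hφ, h3⟩ := h1.2 (ε / 2) (half_pos hε)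
  obtain ⟨ψ, hψ, h4⟩ := h2.2 (ε / 2) (half_pos hε)
  have hcm := mem_of_mult hc
  refine ⟨φ + ψ, mult_add hφ hψ, ?_⟩
  have h5 : a + b - (φ + ψ) * c = (a - φ * c) + (b - ψ * c) := by ring
  have h6 := nrm_add_le (sub_mem h1.1 (hφ _ hcm)) (sub_mem h2.1 (hψ _ hcm))
  rw [h5]
  linarith

end PCX
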