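import Pool.Agent.PCX.X17
import Pool.Agent.PCX.X18

/-!
# [PCX-X19] one step: `(eul g)^N f^n ∈ [g f^n]`

`N, M` from `uniform`.  `ρ_j = 1 - 1/(j+2)`, `G_j` from `exists_inv_dil` (`PCV/N4`): an inverse of `dil ρ_j g`, a
multiplier, with `ev G_j z = (eval (ρ_j z) g)⁻¹` on the ball.
`X_j = ((eul g)^N f^n g) * G_j = (G_j * (eul g)^N) * (g f^n) ∈ inv (g f^n)` (`mul_mem_inv`, `isMult_coe`),
`nrm (X_j) ≤ M`, and `ev (X_j) z = eval z ((eul g)^N f^n) * eval z g / eval (ρ_j z) g → eval z ((eul g)^N f^n)`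
(continuity, `eval z g ≠ 0`).  `inv_lim`.
-/

open MeasureTheory Set Filter Topology

namespace PCX

open PCV

open PCM in
theorem step (m n : ℕ) (hn : n ≤ m + 1) (hmn : m ≤ 4 * n + 2)
    (f g : MvPolynomial (Fin (m + 1)) ℂ) (C₀ : ℝ)
    (hfg : ∀ z ∈ Ball (m + 1), ‖MvPolynomial.eval z f‖ ≤ C₀ * ‖MvPolynomial.eval z g‖)
    (h0 : MvPolynomial.constantCoeff g = 1)
    (hg : ∀ z ∈ Ball (m + 1), MvPolynomial.eval z g ≠ 0) :
    ∃ N : ℕ, 1 ≤ N ∧ ((eul g ^ N * f ^ n : MvPolynomial (Fin (m + 1)) ℂ) : A (m + 1)) ∈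
      inv ((g * f ^ n : MvPolynomial (Fin (m + 1)) ℂ) : A (m + 1)) := by
  obtain ⟨N, M, hN, hM⟩ := uniform m n hn hmn f g C₀ hfg h0 hg
  refine ⟨N, hN, ?_⟩
  have hρ0 : ∀ j : ℕ, (0 : ℝ) ≤ 1 - 1 / ((j : ℝ) + 1 + 1) := by
    intro j
    have h1 : (1 : ℝ) / ((j : ℝ) + 1 + 1) ≤ 1 := by
      rw [div_le_one (by positivity)]
      have : (0 : ℝ) ≤ j := Nat.cast_nonneg j
      linarith
    linarith
  have hρ1 : ∀ j : ℕ, 1 - 1 / ((j : ℝ) + 1 + 1) < 1 := by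
    intro j
    have h1 : (0 : ℝ) < 1 / ((j : ℝ) + 1 + 1) := by positivity
    linarith
  choose G hG1 hG2 hG3 hG4 using fun j : ℕ =>
    exists_inv_dil g hg (1 - 1 / ((j : ℝ) + 1 + 1)) (hρ0 j) (hρ1 j)
  have hlim : Tendsto (fun j : ℕ => 1 - 1 / ((j : ℝ) + 1 + 1)) atTop (𝓝 1) := by
    have h1 : Tendsto (fun j : ℕ => (1 : ℝ) / ((j : ℝ) + 1)) atTop (𝓝 0) :=
      tendsto_one_div_add_atTop_nhds_zero_nat
    have h2 := (tendsto_add_atTop_iff_nat 1).2 h1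
    have h3 : Tendsto (fun j : ℕ => (1 : ℝ) - 1 / (((j + 1 : ℕ) : ℝ) + 1)) atTop (𝓝 (1 - 0)) :=
      tendsto_const_nhds.sub h2
    rw [sub_zero] at h3
    refine h3.congr fun j => ?_
    push_cast
    ring
  have hmulP : ∀ P : MvPolynomial (Fin (m + 1)) ℂ, IsMult (P : A (m + 1)) := fun P => isMult_coe P
  refine inv_lim (hmulP _) (mem_of_mult (hmulP _))
    (fun j => ((eul g ^ N * f ^ n * g : MvPolynomial (Fin (m + 1)) ℂ) : A (m + 1)) * G j)
    (fun j => ?_) M (fun j => hM _ (G j) (hρ0 j) (hρ1 j) (hG1 j) (hG3 j)) (fun z hz => ?_)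
  · have h1 : ((eul g ^ N * f ^ n * g : MvPolynomial (Fin (m + 1)) ℂ) : A (m + 1)) * G j =
        (((eul g ^ N : MvPolynomial (Fin (m + 1)) ℂ) : A (m + 1)) * G j) *
          ((g * f ^ n : MvPolynomial (Fin (m + 1)) ℂ) : A (m + 1)) := by
      rw [MvPolynomial.coe_mul, MvPolynomial.coe_mul, MvPolynomial.coe_mul]
      ring
    rw [h1]
    exact mul_mem_inv (hmulP _) (mult_mul (hmulP _) (hG2 j))
  · have h2 : ∀ j, ev (((eul g ^ N * f ^ n * g : MvPolynomial (Fin (m + 1)) ℂ) : A (m + 1)) * G j) z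
        = MvPolynomial.eval z (eul g ^ N * f ^ n) * (MvPolynomial.eval z g *
          (MvPolynomial.eval (fun i => ((1 - 1 / ((j : ℝ) + 1 + 1) : ℝ) : ℂ) * z i) g)⁻¹) := by
      intro j
      rw [ev_mul (conv_coe _) (hG1 j) hz, ev_coe, hG4 j z hz, map_mul]
      ring
    rw [ev_coe]
    simp only [h2]
    have h3 : Tendsto (fun j : ℕ => MvPolynomial.eval
        (fun i => ((1 - 1 / ((j : ℝ) + 1 + 1) : ℝ) : ℂ) * z i) g) atTop
        (𝓝 (MvPolynomial.eval z g)) := by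
      have h4 : Continuous fun r : ℝ => MvPolynomial.eval (fun i => (r : ℂ) * z i) g := by
        refine (MvPolynomial.continuous_eval g).comp ?_
        fun_prop
      have h5 := (h4.tendsto 1).comp hlim
      have h6 : (fun i => ((1 : ℝ) : ℂ) * z i) = z := by
        funext i
        simp
      rw [h6] at h5
      exact h5
    have h7 := (h3.inv₀ (hg z hz)).const_mul (MvPolynomial.eval z g)
    rw [mul_inv_cancel₀ (hg z hz)] at h7
    have h8 := h7.const_mul (MvPolynomial.eval z (eul g ^ N * f ^ n))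
    rw [mul_one] at h8
    exact h8

end PCX
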