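import Pool.Agent.PCX.X1
import Pool.Agent.PCV.O2

/-!
# [PCX-X2] the integral over a slice

For `‖μ‖ < 1` and `t = s μ`: `‖t‖ < 1`, so `c t ≠ 1` for `c ∈ S`; `weight` bounds the integrand by
`C₁ (1-‖μ‖²)^q (1 + ∑_{c ∈ S} sep S c^(2(N-p)) ‖1 - (s c) μ‖^(-2p))`.  Integrate term by term (finite sum over the
multiset, induction; measurable: continuous on the ball), `forelli_rudin q p e` for `s c` (`‖s c‖ = s ‖c‖ ≤ 1`); the
first term gives at most `π`.  (`ENNReal.ofReal_mul`, `ENNReal.ofReal` of the nonnegative constant `sep ..`.)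
-/

open MeasureTheory Set Filter Topology

namespace PCX

open PCV

theorem x2_sum (p q e : ℕ) (s : ℝ) (hs0 : 0 ≤ s) (hs1 : s < 1) (C₂ : NNReal)
    (hC₂ : ∀ c : ℂ, ‖c‖ ≤ 1 →
      ∫⁻ μ in Metric.ball (0 : ℂ) 1,
        ENNReal.ofReal ((1 - ‖μ‖ ^ 2) ^ q * (‖1 - c * μ‖ ^ (2 * p))⁻¹) ≤
      C₂ * ((ENNReal.ofReal (1 - ‖c‖))⁻¹) ^ e) (a : ℂ → ℝ) (ha : ∀ c, 0 ≤ a c)
    (S : Multiset ℂ) : (∀ c ∈ S, ‖c‖ ≤ 1) →
    ∫⁻ μ in Metric.ball (0 : ℂ) 1, ENNReal.ofReal ((1 - ‖μ‖ ^ 2) ^ q *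
        (S.map fun c => a c * (‖1 - c * (s * μ)‖ ^ (2 * p))⁻¹).sum) ≤
      C₂ * (S.map fun c => ENNReal.ofReal (a c) *
        ((ENNReal.ofReal (1 - s * ‖c‖))⁻¹) ^ e).sum := by
  induction S using Multiset.induction with
  | empty =>
    intro _
    simp
  | cons c S ih =>
    intro hc
    have ih1 := ih (fun c' hc' => hc c' (Multiset.mem_cons_of_mem hc'))
    have hc1 := hc c (Multiset.mem_cons_self c S)
    have hnonneg : ∀ μ : ℂ, 0 ≤ (S.map fun c => a c * (‖1 - c * (s * μ)‖ ^ (2 * p))⁻¹).sum := by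
      intro μ
      apply Multiset.sum_nonneg
      intro x hx
      rw [Multiset.mem_map] at hx
      obtain ⟨c', _, rfl⟩ := hx
      have := ha c'
      positivity
    have hsc : ‖(s : ℂ) * c‖ = s * ‖c‖ := by
      rw [norm_mul, Complex.norm_real, Real.norm_of_nonneg hs0]
    have h1 : ∀ μ ∈ Metric.ball (0 : ℂ) 1, ENNReal.ofReal ((1 - ‖μ‖ ^ 2) ^ q *
        ((c ::ₘ S).map fun c => a c * (‖1 - c * (s * μ)‖ ^ (2 * p))⁻¹).sum) =
        ENNReal.ofReal (a c) * ENNReal.ofReal ((1 - ‖μ‖ ^ 2) ^ q *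
          (‖1 - (s * c) * μ‖ ^ (2 * p))⁻¹) +
        ENNReal.ofReal ((1 - ‖μ‖ ^ 2) ^ q *
        (S.map fun c => a c * (‖1 - c * (s * μ)‖ ^ (2 * p))⁻¹).sum) := by
      intro μ hμ
      have hμ1 : ‖μ‖ < 1 := mem_ball_zero_iff.1 hμ
      have hμ2 : 0 ≤ 1 - ‖μ‖ ^ 2 := by nlinarith [norm_nonneg μ]
      have hac := ha c
      rw [← ENNReal.ofReal_mul hac, ← ENNReal.ofReal_add (by positivity)
        (mul_nonneg (by positivity) (hnonneg μ)), Multiset.map_cons, Multiset.sum_cons]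
      congr 1
      have e1 : (s : ℂ) * c * μ = c * (s * μ) := by ring
      rw [e1]
      ring
    rw [setLIntegral_congr_fun Metric.isOpen_ball.measurableSet h1,
      lintegral_add_left (by fun_prop), lintegral_const_mul _ (by fun_prop), Multiset.map_cons,
      Multiset.sum_cons, mul_add]
    refine add_le_add ?_ ih1
    have h2 := hC₂ (s * c) (by
      rw [hsc]
      calc s * ‖c‖ ≤ 1 * 1 := by gcongr
        _ = 1 := one_mul 1)
    rw [hsc] at h2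
    calc ENNReal.ofReal (a c) * ∫⁻ μ in Metric.ball (0 : ℂ) 1, ENNReal.ofReal ((1 - ‖μ‖ ^ 2) ^ q *
          (‖1 - (s * c) * μ‖ ^ (2 * p))⁻¹)
        ≤ ENNReal.ofReal (a c) * (C₂ * ((ENNReal.ofReal (1 - s * ‖c‖))⁻¹) ^ e) := by gcongr
      _ = _ := by ring

theorem slice_int (D p N q e : ℕ) (h1 : p * D ≤ N) (h2 : 2 * p ≤ N) (he : 1 ≤ e)
    (h : 2 * p ≤ e + q + 2) : ∃ C : NNReal, ∀ (S : Multiset ℂ) (s : ℝ), Multiset.card S = D →
      (∀ c ∈ S, ‖c‖ ≤ 1) → 0 ≤ s → s < 1 →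
      ∫⁻ μ in Metric.ball (0 : ℂ) 1, ENNReal.ofReal ((1 - ‖μ‖ ^ 2) ^ q *
        (‖(s * μ) * (QS S).derivative.eval (s * μ)‖ ^ (2 * N) *
          (‖(QS S).eval (s * μ)‖ ^ (2 * p))⁻¹)) ≤
      C * (1 + (S.map fun c => ENNReal.ofReal (sep S c ^ (2 * (N - p))) *
        ((ENNReal.ofReal (1 - s * ‖c‖))⁻¹) ^ e).sum) := by
  obtain ⟨C₁, hC₁0, hC₁⟩ := weight D p N h1 h2
  obtain ⟨C₂, _, hC₂⟩ := forelli_rudin q p e he h
  have hKfin : volume (Metric.ball (0 : ℂ) 1) ≠ ⊤ := Metric.isBounded_ball.measure_lt_top.ne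
  refine ⟨C₁.toNNReal * ((volume (Metric.ball (0 : ℂ) 1)).toNNReal + C₂), ?_⟩
  intro S s hS hc hs0 hs1
  have hsepn : ∀ c, 0 ≤ sep S c ^ (2 * (N - p)) := by
    intro c
    rw [pow_mul]
    positivity
  have hsum := x2_sum p q e s hs0 hs1 C₂ hC₂ (fun c => sep S c ^ (2 * (N - p))) hsepn S hc
  have hnonneg : ∀ μ : ℂ, 0 ≤ (S.map fun c => sep S c ^ (2 * (N - p)) *
      (‖1 - c * (s * μ)‖ ^ (2 * p))⁻¹).sum := by
    intro μ
    apply Multiset.sum_nonneg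
    intro x hx
    rw [Multiset.mem_map] at hx
    obtain ⟨c', _, rfl⟩ := hx
    have := hsepn c'
    positivity
  have hpt : ∀ μ ∈ Metric.ball (0 : ℂ) 1, ENNReal.ofReal ((1 - ‖μ‖ ^ 2) ^ q *
        (‖(s * μ) * (QS S).derivative.eval (s * μ)‖ ^ (2 * N) *
          (‖(QS S).eval (s * μ)‖ ^ (2 * p))⁻¹)) ≤ ENNReal.ofReal C₁ *
        (1 + ENNReal.ofReal ((1 - ‖μ‖ ^ 2) ^ q * (S.map fun c => sep S c ^ (2 * (N - p)) *
          (‖1 - c * (s * μ)‖ ^ (2 * p))⁻¹).sum)) := by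
    intro μ hμ
    have hμ1 : ‖μ‖ < 1 := mem_ball_zero_iff.1 hμ
    have hμ2 : 0 ≤ 1 - ‖μ‖ ^ 2 := by nlinarith [norm_nonneg μ]
    have hμ3 : (1 - ‖μ‖ ^ 2) ^ q ≤ 1 := pow_le_one₀ hμ2 (by nlinarith [norm_nonneg μ])
    have hsμ : ‖(s : ℂ) * μ‖ < 1 := by
      rw [norm_mul, Complex.norm_real, Real.norm_of_nonneg hs0]
      nlinarith [norm_nonneg μ]
    have hw := hC₁ S (s * μ) hS hc hsμ.le (by
      intro c hcS heq
      have h3 := congrArg norm heq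
      rw [norm_mul, norm_one] at h3
      have h4 := hc c hcS
      nlinarith [norm_nonneg c, norm_nonneg ((s : ℂ) * μ)])
    rw [← ENNReal.ofReal_one, ← ENNReal.ofReal_add zero_le_one
      (mul_nonneg (by positivity) (hnonneg μ)), ← ENNReal.ofReal_mul hC₁0]
    apply ENNReal.ofReal_le_ofReal
    have hsn := hnonneg μ
    calc (1 - ‖μ‖ ^ 2) ^ q * (‖(s * μ) * (QS S).derivative.eval (s * μ)‖ ^ (2 * N) *
          (‖(QS S).eval (s * μ)‖ ^ (2 * p))⁻¹)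
        ≤ (1 - ‖μ‖ ^ 2) ^ q * (C₁ * (1 + (S.map fun c => sep S c ^ (2 * (N - p)) *
          (‖1 - c * (s * μ)‖ ^ (2 * p))⁻¹).sum)) := by gcongr
      _ = C₁ * ((1 - ‖μ‖ ^ 2) ^ q + (1 - ‖μ‖ ^ 2) ^ q * (S.map fun c => sep S c ^ (2 * (N - p)) *
          (‖1 - c * (s * μ)‖ ^ (2 * p))⁻¹).sum) := by ring
      _ ≤ _ := by gcongr
  have hint := setLIntegral_mono' (μ := volume) Metric.isOpen_ball.measurableSet hpt
  refine hint.trans ?_
  rw [lintegral_const_mul' _ _ ENNReal.ofReal_ne_top, lintegral_add_left measurable_const,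
    setLIntegral_const, one_mul]
  have e1 : ENNReal.ofReal C₁ = (C₁.toNNReal : ENNReal) := rfl
  have e2 : volume (Metric.ball (0 : ℂ) 1) =
      (((volume (Metric.ball (0 : ℂ) 1)).toNNReal : NNReal) : ENNReal) :=
    (ENNReal.coe_toNNReal hKfin).symm
  set V : NNReal := (volume (Metric.ball (0 : ℂ) 1)).toNNReal
  rw [e1, e2]
  push_cast
  rw [mul_assoc]
  gcongr
  refine (add_le_add_right hsum _).trans ?_
  generalize (S.map fun c => ENNReal.ofReal (sep S c ^ (2 * (N - p))) *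
        ((ENNReal.ofReal (1 - s * ‖c‖))⁻¹) ^ e).sum = W'
  calc (V : ENNReal) + C₂ * W' ≤ V + C₂ * W' + (C₂ + V * W') := le_self_add
    _ = (V + C₂) * (1 + W') := by ring

end PCX
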