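import Pool.Agent.PCX.X19

/-!
# [PCX-X20] induction on the degree, main theorem

`chain`: induction on `D`.  All polynomials are multipliers (`isMult_coe`).
* `D = 0`: `g` is the constant `1` (`MvPolynomial.totalDegree_eq_zero_iff_eq_C`, `h0`), `f^n ∈ inv (f^n)`
  (`e1_self_mem`).
* `D + 1`: let `g₁ = C (1/(D+1)) * (C (D+1) * g - eul g)`; `totalDegree ≤ D` (`totalDegree_polar`), constant coefficient
  `1` (`constantCoeff_eul`), no zeros in the ball and `‖g z‖ ≤ 2 (D+1) ‖g₁ z‖` (`polar_bound`), so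
  `‖f z‖ ≤ C₀ · 2(D+1) ‖g₁ z‖`.  Induction: `f^n ∈ inv (g₁ f^n)`.  Hence `f^n ∈ inv (g₁^k f^n)` for all `k`
  (induction on `k`: `inv_mul_mult` by `g₁` and `inv_trans`).
  `step`: `N` with `(eul g)^N f^n ∈ inv (g f^n)`.  `g₁^N = (g - C (1/(D+1)) eul g)^N = g * Q + (C c)^N (eul g)^N` for a
  polynomial `Q` (`c = -1/(D+1)`; binomial theorem, or `Commute.sub_dvd_pow_sub_pow`: `(a+b)^N - b^N` is divisible by
  `a`), so `g₁^N f^n = Q (g f^n) + c^N (eul g)^N f^n ∈ inv (g f^n)` (`mul_mem_inv`, `inv_smul_mult`, `inv_add`).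
  `inv_trans`: `f^n ∈ inv (g₁^N f^n)` and `g₁^N f^n ∈ inv (g f^n)` give `f^n ∈ inv (g f^n)`.
`main`: `d = m + 1`; `n = d/4`: `n ≤ m+1`, `m ≤ 4n + 2`.  Let `c = constantCoeff f = eval 0 f ≠ 0`, `g = C c⁻¹ * f`:
`‖f z‖ ≤ ‖c‖ ‖g z‖`; `chain` gives `f^n ∈ inv (g f^n)`, and `g f^n = c⁻¹ f^(n+1)`, so `f^n ∈ inv (f^(n+1))`
(`inv_trans` with `g f^n ∈ inv (f^(n+1))`).  `C d n`: `isMult_coe`, `f ≠ 0` (coercion injective), `inv_eq`.
-/

open MeasureTheory Set Filter Topology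

namespace PCX

open PCV

open PCM in
theorem chain (m n : ℕ) (hn : n ≤ m + 1) (hmn : m ≤ 4 * n + 2)
    (f : MvPolynomial (Fin (m + 1)) ℂ) (D : ℕ) : ∀ (g : MvPolynomial (Fin (m + 1)) ℂ) (C₀ : ℝ),
    g.totalDegree ≤ D → MvPolynomial.constantCoeff g = 1 →
    (∀ z ∈ Ball (m + 1), MvPolynomial.eval z g ≠ 0) →
    (∀ z ∈ Ball (m + 1), ‖MvPolynomial.eval z f‖ ≤ C₀ * ‖MvPolynomial.eval z g‖) →
    ((f ^ n : MvPolynomial (Fin (m + 1)) ℂ) : A (m + 1)) ∈
      inv ((g * f ^ n : MvPolynomial (Fin (m + 1)) ℂ) : A (m + 1)) := by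
  have hmulP : ∀ P : MvPolynomial (Fin (m + 1)) ℂ, IsMult (P : A (m + 1)) := fun P => isMult_coe P
  induction D with
  | zero =>
    intro g C₀ hD h0 hg hfg
    have h1 : g = MvPolynomial.C (MvPolynomial.coeff 0 g) :=
      MvPolynomial.totalDegree_eq_zero_iff_eq_C.1 (Nat.le_zero.1 hD)
    have h2 : MvPolynomial.coeff 0 g = 1 := h0
    rw [h2, MvPolynomial.C_1] at h1
    rw [h1, one_mul]
    exact e1_self_mem (hmulP _)
  | succ D ih =>
    intro g C₀ hD h0 hg hfg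
    have hD0 : ((D + 1 : ℕ) : ℂ) ≠ 0 := by exact_mod_cast Nat.succ_ne_zero D
    set c : ℂ := ((D + 1 : ℕ) : ℂ)⁻¹ with hc
    set g₁ : MvPolynomial (Fin (m + 1)) ℂ :=
      MvPolynomial.C c * (MvPolynomial.C ((D + 1 : ℕ) : ℂ) * g - eul g) with hg₁
    have hcC : MvPolynomial.C c * MvPolynomial.C ((D + 1 : ℕ) : ℂ) =
        (1 : MvPolynomial (Fin (m + 1)) ℂ) := by
      rw [← MvPolynomial.C_mul, hc, inv_mul_cancel₀ hD0, MvPolynomial.C_1]
    have hdeg : g₁.totalDegree ≤ D := by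
      refine (MvPolynomial.totalDegree_mul _ _).trans ?_
      rw [MvPolynomial.totalDegree_C, zero_add]
      exact totalDegree_polar D g hD
    have hcst : MvPolynomial.constantCoeff g₁ = 1 := by
      rw [hg₁, map_mul, map_sub, map_mul, constantCoeff_eul, MvPolynomial.constantCoeff_C,
        MvPolynomial.constantCoeff_C, h0, sub_zero, mul_one, hc, inv_mul_cancel₀ hD0]
    have hbd : ∀ z ∈ Ball (m + 1), ‖MvPolynomial.eval z g‖ ≤
        2 * ((D + 1 : ℕ) : ℝ) * ‖MvPolynomial.eval z g₁‖ := by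
      intro z hz
      have h1 := polar_bound (D + 1) (Nat.succ_pos D) g hD h0 hg z hz
      rw [hg₁, map_mul, MvPolynomial.eval_C, norm_mul, hc, norm_inv, Complex.norm_natCast]
      have h2 : ((D + 1 : ℕ) : ℝ) ≠ 0 := by exact_mod_cast Nat.succ_ne_zero D
      have h3 : 2 * ((D + 1 : ℕ) : ℝ) * (((D + 1 : ℕ) : ℝ)⁻¹ *
          ‖MvPolynomial.eval z (MvPolynomial.C ((D + 1 : ℕ) : ℂ) * g - eul g)‖) =
          2 * ‖MvPolynomial.eval z (MvPolynomial.C ((D + 1 : ℕ) : ℂ) * g - eul g)‖ := by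
        field_simp
      rw [h3]
      exact h1
    have hg₁0 : ∀ z ∈ Ball (m + 1), MvPolynomial.eval z g₁ ≠ 0 := by
      intro z hz h1
      have h2 := hbd z hz
      rw [h1, norm_zero, mul_zero] at h2
      exact hg z hz (norm_le_zero_iff.1 h2)
    have hC₀ : 0 ≤ C₀ := by
      have h1 := hfg _ (p20_zero_mem_ball (d := m + 1))
      have h2 := norm_pos_iff.2 (hg _ (p20_zero_mem_ball (d := m + 1)))
      by_contra h3
      rw [not_le] at h3
      have h4 := (norm_nonneg _).trans h1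
      nlinarith
    have hfg₁ : ∀ z ∈ Ball (m + 1), ‖MvPolynomial.eval z f‖ ≤
        C₀ * (2 * ((D + 1 : ℕ) : ℝ)) * ‖MvPolynomial.eval z g₁‖ := by
      intro z hz
      refine (hfg z hz).trans ?_
      rw [mul_assoc]
      exact mul_le_mul_of_nonneg_left (hbd z hz) hC₀
    have hih := ih g₁ _ hdeg hcst hg₁0 hfg₁
    -- powers of `g₁`
    have hpow : ∀ k : ℕ, ((f ^ n : MvPolynomial (Fin (m + 1)) ℂ) : A (m + 1)) ∈
        inv ((g₁ ^ k * f ^ n : MvPolynomial (Fin (m + 1)) ℂ) : A (m + 1)) := by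
      intro k
      induction k with
      | zero =>
        rw [pow_zero, one_mul]
        exact e1_self_mem (hmulP _)
      | succ k hk =>
        have h1 := inv_mul_mult (hmulP _) (hmulP g₁) hk
        have h2 : (g₁ : A (m + 1)) * ((g₁ ^ k * f ^ n : MvPolynomial (Fin (m + 1)) ℂ) : A (m + 1)) =
            ((g₁ ^ (k + 1) * f ^ n : MvPolynomial (Fin (m + 1)) ℂ) : A (m + 1)) := by
          rw [← MvPolynomial.coe_mul]
          congr 1
          ring
        rw [h2, ← MvPolynomial.coe_mul g₁ (f ^ n)] at h1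
        exact inv_trans (hmulP (g₁ * f ^ n)) (hmulP (g₁ ^ (k + 1) * f ^ n)) hih h1
    obtain ⟨N, -, hN⟩ := step m n hn hmn f g C₀ hfg h0 hg
    -- binomial
    have hdvd : g ∣ g₁ ^ N - (MvPolynomial.C (-c) * eul g) ^ N := by
      have h1 : g₁ - MvPolynomial.C (-c) * eul g = g := by
        rw [hg₁, map_neg]
        have h2 : MvPolynomial.C c * (MvPolynomial.C ((D + 1 : ℕ) : ℂ) * g - eul g) -
            -MvPolynomial.C c * eul g =
            (MvPolynomial.C c * MvPolynomial.C ((D + 1 : ℕ) : ℂ)) * g := by ring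
        rw [h2, hcC, one_mul]
      have h3 := sub_dvd_pow_sub_pow g₁ (MvPolynomial.C (-c) * eul g) N
      rwa [h1] at h3
    obtain ⟨Q, hQ⟩ := hdvd
    have h5 : g₁ ^ N * f ^ n = Q * (g * f ^ n) +
        MvPolynomial.C ((-c) ^ N) * (eul g ^ N * f ^ n) := by
      have h6 : g₁ ^ N = g * Q + (MvPolynomial.C (-c) * eul g) ^ N := by
        rw [← hQ]
        ring
      rw [h6, mul_pow, ← map_pow]
      ring
    have h7 : ((g₁ ^ N * f ^ n : MvPolynomial (Fin (m + 1)) ℂ) : A (m + 1)) ∈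
        inv ((g * f ^ n : MvPolynomial (Fin (m + 1)) ℂ) : A (m + 1)) := by
      have h8 : ((Q * (g * f ^ n) : MvPolynomial (Fin (m + 1)) ℂ) : A (m + 1)) ∈
          inv ((g * f ^ n : MvPolynomial (Fin (m + 1)) ℂ) : A (m + 1)) := by
        rw [MvPolynomial.coe_mul Q (g * f ^ n)]
        exact mul_mem_inv (hmulP (g * f ^ n)) (hmulP Q)
      have h9 : ((MvPolynomial.C ((-c) ^ N) * (eul g ^ N * f ^ n) :
          MvPolynomial (Fin (m + 1)) ℂ) : A (m + 1)) ∈
          inv ((g * f ^ n : MvPolynomial (Fin (m + 1)) ℂ) : A (m + 1)) := by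
        rw [MvPolynomial.coe_mul (MvPolynomial.C ((-c) ^ N)) (eul g ^ N * f ^ n)]
        exact inv_smul_mult (hmulP (g * f ^ n)) (hmulP (MvPolynomial.C ((-c) ^ N))) hN
      rw [h5, MvPolynomial.coe_add (Q * (g * f ^ n))
        (MvPolynomial.C ((-c) ^ N) * (eul g ^ N * f ^ n))]
      exact inv_add (hmulP (g * f ^ n)) h8 h9
    exact inv_trans (hmulP (g₁ ^ N * f ^ n)) (hmulP (g * f ^ n)) (hpow N) h7

open PCM in
theorem main (d : ℕ) (hd : 1 ≤ d) (f : MvPolynomial (Fin d) ℂ)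
    (hf : ∀ z ∈ Ball d, MvPolynomial.eval z f ≠ 0) : (f : A d) ∈ C d (d / 4) := by
  obtain ⟨m, rfl⟩ : ∃ m, d = m + 1 := ⟨d - 1, by omega⟩
  have hmulP : ∀ P : MvPolynomial (Fin (m + 1)) ℂ, IsMult (P : A (m + 1)) := fun P => isMult_coe P
  have hc : MvPolynomial.constantCoeff f ≠ 0 := by
    have h1 := hf _ (p20_zero_mem_ball (d := m + 1))
    have h2 : MvPolynomial.eval (fun _ => (0 : ℂ)) f = MvPolynomial.constantCoeff f :=
      congrArg (fun φ : MvPolynomial (Fin (m + 1)) ℂ →+* ℂ => φ f)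
        (MvPolynomial.eval_zero (R := ℂ) (σ := Fin (m + 1)))
    rwa [h2] at h1
  set c : ℂ := MvPolynomial.constantCoeff f with hcdef
  have h1 : ((f ^ ((m + 1) / 4) : MvPolynomial (Fin (m + 1)) ℂ) : A (m + 1)) ∈
      inv ((MvPolynomial.C c⁻¹ * f * f ^ ((m + 1) / 4) : MvPolynomial (Fin (m + 1)) ℂ) :
        A (m + 1)) := by
    refine chain m ((m + 1) / 4) (by omega) (by omega) f (MvPolynomial.C c⁻¹ * f).totalDegree
      (MvPolynomial.C c⁻¹ * f) ‖c‖ le_rfl ?_ (fun z hz => ?_) (fun z hz => ?_)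
    · rw [map_mul, MvPolynomial.constantCoeff_C, ← hcdef, inv_mul_cancel₀ hc]
    · rw [map_mul, MvPolynomial.eval_C]
      exact mul_ne_zero (inv_ne_zero hc) (hf z hz)
    · rw [map_mul, MvPolynomial.eval_C, norm_mul, norm_inv, ← mul_assoc,
        mul_inv_cancel₀ (norm_ne_zero_iff.2 hc), one_mul]
  have h2 : ((MvPolynomial.C c⁻¹ * f * f ^ ((m + 1) / 4) : MvPolynomial (Fin (m + 1)) ℂ) :
      A (m + 1)) ∈ inv ((f : A (m + 1)) ^ ((m + 1) / 4 + 1)) := by
    have h3 : ((MvPolynomial.C c⁻¹ * f * f ^ ((m + 1) / 4) : MvPolynomial (Fin (m + 1)) ℂ) :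
        A (m + 1)) = ((MvPolynomial.C c⁻¹ : MvPolynomial (Fin (m + 1)) ℂ) : A (m + 1)) *
          (f : A (m + 1)) ^ ((m + 1) / 4 + 1) := by
      rw [MvPolynomial.coe_mul, MvPolynomial.coe_mul, MvPolynomial.coe_pow]
      ring
    rw [h3]
    exact mul_mem_inv (mult_pow (hmulP f) _) (hmulP _)
  refine ⟨hmulP f, ?_, inv_eq (hmulP f) _ ?_⟩
  · intro h3
    have h4 : f = 0 := by
      apply MvPolynomial.coe_injective
      rw [h3, MvPolynomial.coe_zero]
    exact hc (by rw [hcdef, h4, map_zero])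
  · have h3 := inv_trans (hmulP _) (mult_pow (hmulP f) _) h1 h2
    rwa [MvPolynomial.coe_pow] at h3

end PCX
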