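import Pool.Agent.PCX.Defs

/-!
# [PCX-X3] Lipschitz constants

Both functions are analytic on `(Fin m → ℂ) × ℂ`, hence `C¹`; on the compact convex set `closedBall 0 7 ×ˢ closedBall 0 R₀`
(`= {p | ‖p.1‖ ≤ 7 ∧ ‖p.2‖ ≤ R₀}`) the norms of their derivatives are bounded by some `L ≥ 1`
(`IsCompact.exists_bound_of_continuousOn`, `AnalyticOnNhd.fderiv`, continuity of `fderiv`).
`Convex.norm_image_sub_le_of_norm_fderiv_le` gives `≤ L ‖(w,X) - (w',X')‖`, and the norm of the product is the maximum,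
at most the sum.
-/

open MeasureTheory Set Filter Topology

namespace PCX

open PCV

theorem x3_lip (m : ℕ) (F : (Fin m → ℂ) × ℂ → ℂ) (hF : AnalyticOnNhd ℂ F Set.univ) (R₀ : ℝ) :
    ∃ L : ℝ, 0 ≤ L ∧ ∀ (w w' : Fin m → ℂ) (X X' : ℂ), ‖w‖ ≤ 7 → ‖w'‖ ≤ 7 → ‖X‖ ≤ R₀ → ‖X'‖ ≤ R₀ →
      ‖F (w, X) - F (w', X')‖ ≤ L * (‖w - w'‖ + ‖X - X'‖) := by
  have hcont : Continuous (fun x => fderiv ℂ F x) := by
    have h1 := hF.fderiv.continuousOn
    rwa [continuousOn_univ] at h1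
  have hK : IsCompact (Metric.closedBall (0 : Fin m → ℂ) 7 ×ˢ Metric.closedBall (0 : ℂ) R₀) :=
    (isCompact_closedBall _ _).prod (isCompact_closedBall _ _)
  obtain ⟨C, hC⟩ := hK.exists_bound_of_continuousOn hcont.continuousOn
  refine ⟨max C 0, le_max_right _ _, ?_⟩
  intro w w' X X' hw hw' hX hX'
  have hconv : Convex ℝ (Metric.closedBall (0 : Fin m → ℂ) 7 ×ˢ Metric.closedBall (0 : ℂ) R₀) :=
    (convex_closedBall _ _).prod (convex_closedBall _ _)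
  have h1 := hconv.norm_image_sub_le_of_norm_fderiv_le (𝕜 := ℂ) (f := F) (C := max C 0)
    (fun x _ => (hF x (Set.mem_univ _)).differentiableAt)
    (fun x hx => (hC x hx).trans (le_max_left _ _))
    (x := (w', X')) (y := (w, X))
    ⟨mem_closedBall_zero_iff.2 hw', mem_closedBall_zero_iff.2 hX'⟩
    ⟨mem_closedBall_zero_iff.2 hw, mem_closedBall_zero_iff.2 hX⟩
  refine h1.trans ?_
  have hmax : (0 : ℝ) ≤ max C 0 := le_max_right _ _
  gcongr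
  rw [Prod.mk_sub_mk, Prod.norm_mk]
  exact max_le (le_add_of_nonneg_right (norm_nonneg _)) (le_add_of_nonneg_left (norm_nonneg _))

theorem lip (m D : ℕ) (P : (Fin m → ℂ) → Polynomial ℂ) (hP : PFam m D P) (R₀ : ℝ) :
    ∃ L : ℝ, 1 ≤ L ∧ ∀ (w w' : Fin m → ℂ) (X X' : ℂ), ‖w‖ ≤ 7 → ‖w'‖ ≤ 7 → ‖X‖ ≤ R₀ → ‖X'‖ ≤ R₀ →
      ‖(P w).eval X - (P w').eval X'‖ ≤ L * (‖w - w'‖ + ‖X - X'‖) ∧
      ‖(P w).derivative.eval X - (P w').derivative.eval X'‖ ≤ L * (‖w - w'‖ + ‖X - X'‖) := by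
  obtain ⟨L₁, h10, h1⟩ := x3_lip m (fun p => (P p.1).eval p.2) hP.hol R₀
  obtain ⟨L₂, h20, h2⟩ := x3_lip m (fun p => (P p.1).derivative.eval p.2) hP.hol' R₀
  refine ⟨1 + L₁ + L₂, by linarith, ?_⟩
  intro w w' X X' hw hw' hX hX'
  have hn : 0 ≤ ‖w - w'‖ + ‖X - X'‖ := by positivity
  refine ⟨(h1 w w' X X' hw hw' hX hX').trans ?_, (h2 w w' X X' hw hw' hX hX').trans ?_⟩
  · gcongr
    linarith
  · gcongr
    linarith

end PCX
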