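import Pool.Agent.PCX.X3
import Pool.Agent.PCV.V3

/-!
# [PCX-X4] a simple root persists

`R₀ = √(1 + 49 m) + 1`; roots `b` of `P w`, `‖w‖ ≤ 6`, satisfy `‖b‖ ≤ √(nw w) ≤ √(1+36m)` (`nw_le`).  `L` from `lip`.
Take `c₁ = 1/(4L)` and `c₂ = (c₁/4)^D/(4L)` (`≤ 1/4`).  Let `‖w - w₀‖ ≤ ρ := c₂ y^D ≤ c₂ y` (`D ≥ 1`, `y ≤ 1`).
* existence: `‖(P w).eval b₀‖ = ‖(P w).eval b₀ - (P w₀).eval b₀‖ ≤ L ρ ≤ (c₁ y/4)^D`; the monic polynomial `P w` splits,
  `(P w).eval b₀ = ∏_{b ∈ roots} (b₀ - b)` with `D` factors, so some root has `‖b - b₀‖ ≤ c₁ y/4` (otherwise the product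
  would be `> (c₁ y/4)^D`).
* derivative: `‖(P w)'(b)‖ ≥ ‖(P w₀)'(b₀)‖ - L (ρ + c₁ y/4) ≥ y - y/2`.
* uniqueness: let `b'` be another root, `‖b' - b₀‖ ≤ c₁ y`.  On the convex disc `closedBall b₀ (c₁ y)` the function
  `X ↦ (P w).eval X - (P w₀)'(b₀) X` has derivative of modulus `≤ L (ρ + c₁ y) ≤ y/2`
  (`Convex.norm_image_sub_le_of_norm_deriv_le`); hence `‖(P w₀)'(b₀)‖ ‖b - b'‖ ≤ (y/2) ‖b-b'‖` because both are roots, so
  `b = b'`.
-/

open MeasureTheory Set Filter Topology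

namespace PCX

open PCV

theorem x4_prod (S : Multiset ℂ) (b₀ : ℂ) (δ : ℝ) (hδ : 0 ≤ δ) : (∀ b ∈ S, δ ≤ ‖b₀ - b‖) →
    δ ^ Multiset.card S ≤ ‖(S.map fun b => b₀ - b).prod‖ := by
  induction S using Multiset.induction with
  | empty =>
    intro _
    simp
  | cons c S ih =>
    intro hc
    have ih1 := ih (fun c' hc' => hc c' (Multiset.mem_cons_of_mem hc'))
    have hc1 := hc c (Multiset.mem_cons_self c S)
    rw [Multiset.map_cons, Multiset.prod_cons, Multiset.card_cons, pow_succ, mul_comm, norm_mul]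
    gcongr

theorem x4_eval (P : Polynomial ℂ) (hP : P.Monic) (x : ℂ) :
    P.eval x = (P.roots.map fun b => x - b).prod := by
  have h1 : P = (P.roots.map fun b => Polynomial.X - Polynomial.C b).prod :=
    (IsAlgClosed.splits P).eq_prod_roots_of_monic hP
  conv_lhs => rw [h1]
  rw [Polynomial.eval_multiset_prod, Multiset.map_map]
  congr 1
  apply Multiset.map_congr rfl
  intro c _
  simp

theorem near_root (m D : ℕ) (hD : 1 ≤ D) (P : (Fin m → ℂ) → Polynomial ℂ) (hP : PFam m D P) :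
    ∃ c₁ c₂ : ℝ, 0 < c₁ ∧ c₁ ≤ 1 ∧ 0 < c₂ ∧ c₂ ≤ 1 / 4 ∧
      ∀ (y : ℝ) (w₀ : Fin m → ℂ) (b₀ : ℂ), 0 < y → y ≤ 1 → ‖w₀‖ ≤ 5 → b₀ ∈ (P w₀).roots →
      y ≤ ‖(P w₀).derivative.eval b₀‖ → ∀ w, ‖w - w₀‖ ≤ c₂ * y ^ D →
      ∃ b ∈ (P w).roots, ‖b - b₀‖ ≤ c₁ * y / 4 ∧ y / 2 ≤ ‖(P w).derivative.eval b‖ ∧
        ∀ b' ∈ (P w).roots, ‖b' - b₀‖ ≤ c₁ * y → b' = b := by
  obtain ⟨L, hL1, hL⟩ := lip m D P hP (Real.sqrt (1 + 49 * m) + 1)
  have hL0 : 0 < L := by linarith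
  obtain ⟨c₁, hc₁⟩ : ∃ c₁ : ℝ, c₁ = 1 / (4 * L) := ⟨_, rfl⟩
  have hc₁0 : 0 < c₁ := by rw [hc₁]; positivity
  have hLc₁ : L * c₁ = 1 / 4 := by rw [hc₁]; field_simp
  have hc₁1 : c₁ ≤ 1 / 4 := by
    have : c₁ ≤ L * c₁ := by nlinarith
    linarith
  obtain ⟨c₂, hc₂⟩ : ∃ c₂ : ℝ, c₂ = (c₁ / 4) ^ D / (4 * L) := ⟨_, rfl⟩
  have hc₂0 : 0 < c₂ := by rw [hc₂]; positivity
  have hLc₂ : L * c₂ = (c₁ / 4) ^ D / 4 := by rw [hc₂]; field_simp
  have hpD : (c₁ / 4) ^ D ≤ 1 / 16 := by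
    calc (c₁ / 4) ^ D ≤ (c₁ / 4) ^ 1 := pow_le_pow_of_le_one (by positivity) (by linarith) hD
      _ = c₁ / 4 := pow_one _
      _ ≤ 1 / 16 := by linarith
  have hLc₂1 : L * c₂ ≤ 1 / 64 := by rw [hLc₂]; linarith
  have hc₂1 : c₂ ≤ 1 / 4 := by
    have : c₂ ≤ L * c₂ := by nlinarith
    linarith
  refine ⟨c₁, c₂, hc₁0, by linarith, hc₂0, hc₂1, ?_⟩
  intro y w₀ b₀ hy hy1 hw₀ hb₀ hder w hw
  have hyD : y ^ D ≤ y := by
    calc y ^ D ≤ y ^ 1 := pow_le_pow_of_le_one hy.le hy1 hD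
      _ = y := pow_one _
  have hρ1 : c₂ * y ^ D ≤ 1 / 4 := by
    calc c₂ * y ^ D ≤ 1 / 4 * 1 := by gcongr; linarith
      _ = 1 / 4 := mul_one _
  have hw6 : ‖w‖ ≤ 6 := by
    have : w = w₀ + (w - w₀) := by abel
    rw [this]
    refine (norm_add_le _ _).trans ?_
    linarith
  have hroot : ∀ (v : Fin m → ℂ) (b : ℂ), ‖v‖ ≤ 6 → b ∈ (P v).roots →
      ‖b‖ ≤ Real.sqrt (1 + 49 * m) := by
    intro v b hv hb
    refine (hP.bound v b hb).trans (Real.sqrt_le_sqrt ?_)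
    refine (nw_le v 6 hv).trans ?_
    have : (0 : ℝ) ≤ m := Nat.cast_nonneg m
    linarith
  have hb₀n := hroot w₀ b₀ (by linarith) hb₀
  have hz₀ : (P w₀).eval b₀ = 0 := (Polynomial.mem_roots'.1 hb₀).2
  have hLρ : L * ‖w - w₀‖ ≤ y / 64 := by
    calc L * ‖w - w₀‖ ≤ L * (c₂ * y ^ D) := by gcongr
      _ = (L * c₂) * y ^ D := by ring
      _ ≤ 1 / 64 * y := by gcongr
      _ = y / 64 := by ring
  -- existence
  have hex : ∃ b ∈ (P w).roots, ‖b₀ - b‖ < c₁ * y / 4 := by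
    by_contra hcon
    push Not at hcon
    have h1 := x4_prod (P w).roots b₀ (c₁ * y / 4) (by positivity) hcon
    rw [← x4_eval (P w) (hP.monic w)] at h1
    have hcard : Multiset.card (P w).roots = D := by
      rw [← hP.deg w]
      exact IsAlgClosed.card_roots_eq_natDegree
    rw [hcard] at h1
    have h2 := (hL w w₀ b₀ b₀ (by linarith) (by linarith) (by linarith) (by linarith)).1
    rw [hz₀, sub_zero, sub_self, norm_zero, add_zero] at h2
    have h3 : L * ‖w - w₀‖ ≤ (c₁ * y / 4) ^ D / 4 := by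
      calc L * ‖w - w₀‖ ≤ L * (c₂ * y ^ D) := by gcongr
        _ = (L * c₂) * y ^ D := by ring
        _ = (c₁ / 4) ^ D / 4 * y ^ D := by rw [hLc₂]
        _ = (c₁ * y / 4) ^ D / 4 := by
          have : c₁ * y / 4 = c₁ / 4 * y := by ring
          rw [this, mul_pow]
          ring
    have h4 : (0 : ℝ) < (c₁ * y / 4) ^ D := by positivity
    linarith
  obtain ⟨b, hb, hbb⟩ := hex
  rw [norm_sub_rev] at hbb
  have hbn := hroot w b hw6 hb
  refine ⟨b, hb, hbb.le, ?_, ?_⟩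
  · have h2 := (hL w w₀ b b₀ (by linarith) (by linarith) (by linarith) (by linarith)).2
    have h3 : ‖(P w₀).derivative.eval b₀‖ ≤ ‖(P w).derivative.eval b‖ +
        ‖(P w).derivative.eval b - (P w₀).derivative.eval b₀‖ := by
      have := norm_sub_norm_le ((P w₀).derivative.eval b₀) ((P w).derivative.eval b)
      rw [norm_sub_rev] at this
      linarith
    have h4 : L * ‖b - b₀‖ ≤ y / 16 := by
      calc L * ‖b - b₀‖ ≤ L * (c₁ * y / 4) := by gcongr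
        _ = (L * c₁) * y / 4 := by ring
        _ = y / 16 := by rw [hLc₁]; ring
    rw [mul_add] at h2
    linarith
  · intro b' hb' hbb'
    have hz : (P w).eval b = 0 := (Polynomial.mem_roots'.1 hb).2
    have hz' : (P w).eval b' = 0 := (Polynomial.mem_roots'.1 hb').2
    obtain ⟨d, hd⟩ : ∃ d : ℂ, d = (P w₀).derivative.eval b₀ := ⟨_, rfl⟩
    have hcy : c₁ * y ≤ 1 / 4 := by
      calc c₁ * y ≤ 1 / 4 * 1 := by gcongr
        _ = 1 / 4 := mul_one _
    have hmv := (convex_closedBall b₀ (c₁ * y)).norm_image_sub_le_of_norm_hasDerivWithin_le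
      (𝕜 := ℂ) (f := fun X => (P w).eval X - d * X) (f' := fun X => (P w).derivative.eval X - d * 1)
      (C := y / 2) (x := b) (y := b') ?_ ?_ ?_ ?_
    · simp only [hz, hz'] at hmv
      have e1 : (0 : ℂ) - d * b' - (0 - d * b) = -(d * (b' - b)) := by ring
      rw [e1, norm_neg, norm_mul] at hmv
      rw [← hd] at hder
      have h5 : ‖b' - b‖ ≤ 0 := by
        by_contra hcon
        push Not at hcon
        nlinarith
      exact sub_eq_zero.1 (norm_le_zero_iff.1 h5)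
    · intro X _
      exact (((P w).hasDerivAt X).sub ((hasDerivAt_id X).const_mul d)).hasDerivWithinAt
    · intro X hX
      rw [mem_closedBall_iff_norm] at hX
      have hXn : ‖X‖ ≤ Real.sqrt (1 + 49 * m) + 1 := by
        have : X = b₀ + (X - b₀) := by abel
        rw [this]
        refine (norm_add_le _ _).trans ?_
        linarith
      have h2 := (hL w w₀ X b₀ (by linarith) (by linarith) hXn (by linarith)).2
      rw [mul_one, hd]
      refine h2.trans ?_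
      have h4 : L * ‖X - b₀‖ ≤ y / 4 := by
        calc L * ‖X - b₀‖ ≤ L * (c₁ * y) := by gcongr
          _ = (L * c₁) * y := by ring
          _ = y / 4 := by rw [hLc₁]; ring
      rw [mul_add]
      linarith
    · rw [mem_closedBall_iff_norm]
      have : 0 < c₁ * y := by positivity
      linarith
    · rw [mem_closedBall_iff_norm]
      exact hbb'

end PCX
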