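import Pool.Agent.PCX.X4

/-!
# [PCX-X5] the holomorphic branch through a simple root

Choose `b w` by `near_root` for `w` in the ball (`0` elsewhere); the four properties are clear.
Analyticity at `w₁ ∈ ball w₀ (c₂ y^D)`: apply the implicit function theorem of
`Mathlib.Analysis.Calculus.ImplicitContDiff` (`ContDiffAt.implicitFunction` with smoothness exponent `ω`;
`AnalyticAt.contDiffAt`, `ContDiffAt.analyticAt`) to
`Φ (w, X) = (P w).eval X` at `u = (w₁, b w₁)`: the partial derivative in the direction `X` is multiplication by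
`(P w₁)'(b w₁)`, which is `≠ 0` (`y/2 ≤ ‖·‖`), hence invertible.  Let `ψ` be the implicit function: `ψ w₁ = b w₁`,
`Φ (w, ψ w) = Φ u = 0` near `w₁`, `ψ` is analytic at `w₁`, in particular continuous; since
`‖b w₁ - b₀‖ ≤ c₁ y/4 < c₁ y`, near `w₁` we have `‖ψ w - b₀‖ ≤ c₁ y` and `w` in the ball, so `ψ w ∈ (P w).roots`
(`Polynomial.mem_roots`, monic) equals `b w` by uniqueness.  `AnalyticAt.congr`.
-/

open MeasureTheory Set Filter Topology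

namespace PCX

open PCV

theorem x5_invertible (m : ℕ) (F : (Fin m → ℂ) × ℂ → ℂ) (u : (Fin m → ℂ) × ℂ)
    (hF : DifferentiableAt ℂ F u) (d : ℂ) (hd : d ≠ 0)
    (hder : HasDerivAt (fun X => F (u.1, X)) d u.2) :
    (fderiv ℂ F u ∘L .inr ℂ (Fin m → ℂ) ℂ).IsInvertible := by
  have h1 : HasDerivAt (fun X : ℂ => (u.1, X)) (0, 1) u.2 :=
    (hasDerivAt_const u.2 u.1).prodMk (hasDerivAt_id u.2)
  have h2 : HasDerivAt (fun X => F (u.1, X)) (fderiv ℂ F u (0, 1)) u.2 :=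
    HasFDerivAt.comp_hasDerivAt (f := fun X : ℂ => (u.1, X)) u.2 hF.hasFDerivAt h1
  have h3 := h2.unique hder
  refine ⟨ContinuousLinearEquiv.unitsEquivAut ℂ (Units.mk0 d hd), ?_⟩
  ext
  simp [h3]

theorem branch (m D : ℕ) (hD : 1 ≤ D) (P : (Fin m → ℂ) → Polynomial ℂ) (hP : PFam m D P) :
    ∃ c₁ c₂ : ℝ, 0 < c₁ ∧ c₁ ≤ 1 ∧ 0 < c₂ ∧ c₂ ≤ 1 / 4 ∧
      ∀ (y : ℝ) (w₀ : Fin m → ℂ) (b₀ : ℂ), 0 < y → y ≤ 1 → ‖w₀‖ ≤ 5 → b₀ ∈ (P w₀).roots →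
      y ≤ ‖(P w₀).derivative.eval b₀‖ → ∃ b : (Fin m → ℂ) → ℂ,
        AnalyticOnNhd ℂ b (Metric.ball w₀ (c₂ * y ^ D)) ∧
        ∀ w ∈ Metric.ball w₀ (c₂ * y ^ D), b w ∈ (P w).roots ∧ ‖b w - b₀‖ ≤ c₁ * y / 4 ∧
          y / 2 ≤ ‖(P w).derivative.eval (b w)‖ ∧
          ∀ b' ∈ (P w).roots, ‖b' - b₀‖ ≤ c₁ * y → b' = b w := by
  classical
  obtain ⟨c₁, c₂, hc₁, hc₁1, hc₂, hc₂1, hnear⟩ := near_root m D hD P hP
  refine ⟨c₁, c₂, hc₁, hc₁1, hc₂, hc₂1, ?_⟩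
  intro y w₀ b₀ hy hy1 hw₀ hb₀ hder
  have hn := hnear y w₀ b₀ hy hy1 hw₀ hb₀ hder
  have hn' : ∀ w, ∃ b : ℂ, w ∈ Metric.ball w₀ (c₂ * y ^ D) →
      b ∈ (P w).roots ∧ ‖b - b₀‖ ≤ c₁ * y / 4 ∧ y / 2 ≤ ‖(P w).derivative.eval b‖ ∧
        ∀ b' ∈ (P w).roots, ‖b' - b₀‖ ≤ c₁ * y → b' = b := by
    intro w
    by_cases hw : w ∈ Metric.ball w₀ (c₂ * y ^ D)
    · obtain ⟨b, h1, h2, h3, h4⟩ := hn w (mem_ball_iff_norm.1 hw).le
      exact ⟨b, fun _ => ⟨h1, h2, h3, h4⟩⟩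
    · exact ⟨0, fun h => absurd h hw⟩
  choose b hb using hn'
  refine ⟨b, ?_, hb⟩
  intro w₁ hw₁
  obtain ⟨h1, h2, h3, h4⟩ := hb w₁ hw₁
  have hder0 : (P w₁).derivative.eval (b w₁) ≠ 0 := by
    intro h0
    rw [h0, norm_zero] at h3
    linarith
  obtain ⟨Φ, hΦ⟩ : ∃ Φ : (Fin m → ℂ) × ℂ → ℂ, Φ = fun p => (P p.1).eval p.2 := ⟨_, rfl⟩
  have hΦan : AnalyticAt ℂ Φ (w₁, b w₁) := by
    rw [hΦ]
    exact hP.hol _ (Set.mem_univ _)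
  have cdf : ContDiffAt ℂ ⊤ Φ (w₁, b w₁) := hΦan.contDiffAt
  have hne : (⊤ : WithTop ℕ∞) ≠ 0 := by simp
  have hinv : (fderiv ℂ Φ (w₁, b w₁) ∘L .inr ℂ (Fin m → ℂ) ℂ).IsInvertible := by
    refine x5_invertible m Φ (w₁, b w₁) hΦan.differentiableAt _ hder0 ?_
    rw [hΦ]
    exact (P w₁).hasDerivAt (b w₁)
  have hψ0 := cdf.implicitFunction_apply_self hne hinv
  have hψ1 := cdf.eventually_apply_implicitFunction hne hinv
  have hψ2 := (cdf.contDiffAt_implicitFunction hne hinv).analyticAt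
  set ψ := cdf.implicitFunction hne hinv
  simp only at hψ0 hψ1 hψ2
  have hΦ0 : Φ (w₁, b w₁) = 0 := by
    rw [hΦ]
    exact (Polynomial.mem_roots'.1 h1).2
  rw [hΦ0] at hψ1
  have hclose : ∀ᶠ w in 𝓝 w₁, ‖ψ w - b₀‖ < c₁ * y := by
    have hc : ContinuousAt (fun w => ‖ψ w - b₀‖) w₁ :=
      (hψ2.continuousAt.sub continuousAt_const).norm
    refine hc.eventually_lt_const ?_
    show ‖ψ w₁ - b₀‖ < c₁ * y
    rw [hψ0]
    have : 0 < c₁ * y := by positivity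
    linarith
  have hball : ∀ᶠ w in 𝓝 w₁, w ∈ Metric.ball w₀ (c₂ * y ^ D) :=
    Metric.isOpen_ball.mem_nhds hw₁
  have heq : ψ =ᶠ[𝓝 w₁] b := by
    filter_upwards [hψ1, hclose, hball] with w e1 e2 e3
    obtain ⟨f1, f2, f3, f4⟩ := hb w e3
    refine f4 (ψ w) ?_ e2.le
    rw [Polynomial.mem_roots (hP.monic w).ne_zero]
    rw [hΦ] at e1
    exact e1
  exact hψ2.congr heq

end PCX
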