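import Pool.Agent.PCX.Defs
import Pool.Agent.PCV.V12

/-!
# [PCX-X6] the set where a holomorphic function of modulus at most `|(1,w)|` is almost maximal

Let `C₁, s₀` be the constants of `PCV.sublevel m 1` (`D = 1`).  `k = ⌈1/R²⌉₊`: `1 ≤ k R² ≤ 1 + R² ≤ 2`.  Put
`q w = (b w)^k`, `κ = k`, `s = k x`, `ε = 0`.
* If `k x ≤ s₀`: the hypotheses of `sublevel` hold (`‖q w‖ ≤ √(nw w)^k`).  If `(1-x) √nw ≤ ‖b w‖` then
  `(1 - k x) √nw^k ≤ (1-x)^k √nw^k ≤ ‖q w‖` (Bernoulli, `one_add_mul_le_pow`), so the set is contained in the one of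
  `sublevel` (with `w` itself), and its volume is at most `C₁ √(k x)^m R^(2m)`; `k ≤ 2/R²`, so
  `√(k x) R² ≤ √2 √x R`, giving `C₁ √2^m √x^m R^m`.
* If `k x > s₀`: `x > s₀/k ≥ s₀ R²/2`, so `√x ≥ √(s₀/2) R`, and the volume is at most
  `volume (closedBall a (5/4 R)) = (π 25/16 R²)^m ≤ (π 25/16 / √(s₀/2))^m √x^m R^m` (`PCV.volume_ball`).
-/

open MeasureTheory Set Filter Topology

namespace PCX

open PCV

theorem local_vol (m : ℕ) (hm : 1 ≤ m) : ∃ C : ℝ, 0 < C ∧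
    ∀ (b : (Fin m → ℂ) → ℂ) (a : Fin m → ℂ) (R x : ℝ), 0 < R → R ≤ 1 → 0 < x → x ≤ 1 → ‖a‖ ≤ 2 →
      AnalyticOnNhd ℂ b (Metric.closedBall a (3 * R)) →
      (∀ w ∈ Metric.closedBall a (3 * R), ‖b w‖ ≤ Real.sqrt (nw w)) →
      volume {w | ‖w - a‖ ≤ 5 / 4 * R ∧ (1 - x) * Real.sqrt (nw w) ≤ ‖b w‖} ≤
        ENNReal.ofReal (C * Real.sqrt x ^ m * R ^ m) := by
  obtain ⟨C₁, s₀, hC₁, hs₀, hsub⟩ := sublevel m 1 hm
  have hss : 0 < Real.sqrt (s₀ / 2) := Real.sqrt_pos.2 (by positivity)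
  refine ⟨C₁ * Real.sqrt 2 ^ m + (Real.pi * (25 / 16) / Real.sqrt (s₀ / 2)) ^ m, by positivity, ?_⟩
  intro b a R x hR hR1 hx hx1 ha hb hbb
  obtain ⟨k, hk⟩ : ∃ k : ℕ, k = ⌈1 / R ^ 2⌉₊ := ⟨_, rfl⟩
  have hR2 : 0 < R ^ 2 := by positivity
  have hk1 : 1 / R ^ 2 ≤ k := by rw [hk]; exact Nat.le_ceil _
  have hk2 : (k : ℝ) < 1 / R ^ 2 + 1 := by rw [hk]; exact Nat.ceil_lt_add_one (by positivity)
  have hk1' : 1 ≤ k * R ^ 2 := by
    rw [div_le_iff₀ hR2] at hk1
    exact hk1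
  have hk2' : k * R ^ 2 ≤ 2 := by
    have h1 : (k : ℝ) * R ^ 2 ≤ (1 / R ^ 2 + 1) * R ^ 2 := by gcongr
    have h2 : (1 / R ^ 2 + 1) * R ^ 2 = 1 + R ^ 2 := by field_simp
    have h3 : R ^ 2 ≤ 1 := by nlinarith
    linarith
  have hsx : 0 < Real.sqrt x := Real.sqrt_pos.2 hx
  by_cases hkx : k * x ≤ s₀
  · have hkpos : (0 : ℝ) < k := lt_of_lt_of_le (by positivity) hk1
    have key := hsub R k a (fun w => (b w) ^ k) (k * x) 0 hR hR1 hk1' (by
      push_cast
      linarith) ha (hb.pow k) (by positivity) hkx le_rfl (by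
      rw [zero_pow two_ne_zero]
      positivity) (by
      intro w hw
      have hw' : w ∈ Metric.closedBall a (3 * R) := by
        rw [mem_closedBall_iff_norm]
        exact hw
      rw [norm_pow]
      have h1 := hbb w hw'
      have h2 : (0 : ℝ) ≤ Real.sqrt (nw w) ^ k := by positivity
      calc ‖b w‖ ^ k ≤ Real.sqrt (nw w) ^ k := by gcongr
        _ = 1 * Real.sqrt (nw w) ^ k := (one_mul _).symm
        _ ≤ (1 + k * x) * Real.sqrt (nw w) ^ k := by
          gcongr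
          have : 0 < k * x := by positivity
          linarith)
    refine (measure_mono ?_).trans (key.trans (ENNReal.ofReal_le_ofReal ?_))
    · intro y hy
      obtain ⟨hy1, hy2⟩ := hy
      refine ⟨hy1, y, by simp, ?_⟩
      rw [norm_pow]
      have h1 : 1 + (k : ℝ) * (-x) ≤ (1 + -x) ^ k := one_add_mul_le_pow (by linarith) k
      have h2 : (0 : ℝ) ≤ Real.sqrt (nw y) ^ k := by positivity
      calc (1 - k * x) * Real.sqrt (nw y) ^ k ≤ (1 + -x) ^ k * Real.sqrt (nw y) ^ k := by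
            gcongr
            linarith
        _ = ((1 - x) * Real.sqrt (nw y)) ^ k := by rw [mul_pow, ← sub_eq_add_neg]
        _ ≤ ‖b y‖ ^ k := by
            apply pow_le_pow_left₀ _ hy2
            have : 0 ≤ 1 - x := by linarith
            positivity
    · have e1 : Real.sqrt (k * x) * R ^ 2 ≤ Real.sqrt 2 * Real.sqrt x * R := by
        have h1 : Real.sqrt (k * x) * R ≤ Real.sqrt 2 * Real.sqrt x := by
          rw [← Real.sqrt_mul (by norm_num)]
          apply Real.le_sqrt_of_sq_le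
          rw [mul_pow, Real.sq_sqrt (by positivity)]
          nlinarith
        calc Real.sqrt (k * x) * R ^ 2 = (Real.sqrt (k * x) * R) * R := by ring
          _ ≤ Real.sqrt 2 * Real.sqrt x * R := by gcongr
      have e2 : Real.sqrt (k * x) ^ m * R ^ (2 * m) ≤ Real.sqrt 2 ^ m * Real.sqrt x ^ m * R ^ m := by
        rw [pow_mul, ← mul_pow, ← mul_pow, ← mul_pow]
        exact pow_le_pow_left₀ (by positivity) e1 m
      have e3 : 0 ≤ (Real.pi * (25 / 16) / Real.sqrt (s₀ / 2)) ^ m * Real.sqrt x ^ m * R ^ m := by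
        have := Real.pi_pos
        positivity
      calc C₁ * Real.sqrt (k * x) ^ m * R ^ (2 * m)
          = C₁ * (Real.sqrt (k * x) ^ m * R ^ (2 * m)) := by ring
        _ ≤ C₁ * (Real.sqrt 2 ^ m * Real.sqrt x ^ m * R ^ m) := by gcongr
        _ ≤ C₁ * (Real.sqrt 2 ^ m * Real.sqrt x ^ m * R ^ m) +
            (Real.pi * (25 / 16) / Real.sqrt (s₀ / 2)) ^ m * Real.sqrt x ^ m * R ^ m := by linarith
        _ = _ := by ring
  · push Not at hkx
    have hsub2 : {w | ‖w - a‖ ≤ 5 / 4 * R ∧ (1 - x) * Real.sqrt (nw w) ≤ ‖b w‖} ⊆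
        Metric.closedBall a (5 / 4 * R) := by
      intro w hw
      rw [mem_closedBall_iff_norm]
      exact hw.1
    refine (measure_mono hsub2).trans ?_
    rw [volume_ball m a (5 / 4 * R) (by positivity)]
    apply ENNReal.ofReal_le_ofReal
    have h1 : Real.sqrt (s₀ / 2) * R ≤ Real.sqrt x := by
      apply Real.le_sqrt_of_sq_le
      rw [mul_pow, Real.sq_sqrt (by positivity)]
      nlinarith
    have h2 : Real.pi * (5 / 4 * R) ^ 2 ≤
        Real.pi * (25 / 16) / Real.sqrt (s₀ / 2) * Real.sqrt x * R := by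
      have h3 : R ≤ Real.sqrt x / Real.sqrt (s₀ / 2) := by
        rw [le_div_iff₀ hss]
        linarith
      have hpi := Real.pi_pos
      calc Real.pi * (5 / 4 * R) ^ 2 = Real.pi * (25 / 16) * R * R := by ring
        _ ≤ Real.pi * (25 / 16) * (Real.sqrt x / Real.sqrt (s₀ / 2)) * R := by gcongr
        _ = _ := by ring
    have hpi := Real.pi_pos
    have e3 : 0 ≤ C₁ * Real.sqrt 2 ^ m * Real.sqrt x ^ m * R ^ m := by positivity
    calc (Real.pi * (5 / 4 * R) ^ 2) ^ m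
        ≤ (Real.pi * (25 / 16) / Real.sqrt (s₀ / 2) * Real.sqrt x * R) ^ m :=
          pow_le_pow_left₀ (by positivity) h2 m
      _ = (Real.pi * (25 / 16) / Real.sqrt (s₀ / 2)) ^ m * Real.sqrt x ^ m * R ^ m := by
          rw [mul_pow, mul_pow]
      _ ≤ C₁ * Real.sqrt 2 ^ m * Real.sqrt x ^ m * R ^ m +
          (Real.pi * (25 / 16) / Real.sqrt (s₀ / 2)) ^ m * Real.sqrt x ^ m * R ^ m := by linarith
      _ = _ := by ring

end PCX
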