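import Pool.Agent.PCX.X5
import Pool.Agent.PCX.X6

/-!
# [PCX-X7] the measure of the set of directions with an almost maximal separated root

Let `E` be the set.  `D = 0`: `P w = 1` has no roots, `E = ∅`.  `m = 0`: `volume E ≤ volume univ = 1` on `Fin 0 → ℂ`
(`√x^0 = 1`, `(y⁻¹)^A ≥ 1`).  Let `m, D ≥ 1`, `c₁, c₂` from `branch`, `C₆` from `local_vol`.
`ρ = c₂ (y/2)^D`, `R = ρ/4` (`≤ 1/16`).
Claim: for `‖a‖ ≤ 1 + R`: `volume (E ∩ closedBall a R) ≤ ofReal (D C₆ √x^m R^m)`.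
For every `β ∈ (P a).roots.toFinset` with `y/2 ≤ ‖(P a)'(β)‖` let `B_β` be the branch of `branch` with `w₀ = a`,
`b₀ = β` and `y/2` instead of `y`; it is analytic on `ball a ρ ⊇ closedBall a (3R)` and bounded by `√nw` (`hP.bound`), so
`local_vol` bounds `volume {w | ‖w-a‖ ≤ 5/4 R ∧ (1-x) √nw ≤ ‖B_β w‖}`.  The union over the (at most `D`) elements `β` of
`(P a).roots.toFinset` contains `E ∩ closedBall a R`: let `w` be in the latter, `b ∈ (P w).roots` as in the definition of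
`E`.  Apply `branch` with `w₀ = w`, `b₀ = b`, `y` and evaluate at `a ∈ ball w (c₂ y^D)` (`‖a-w‖ ≤ R < c₂ y^D`): this gives
`β ∈ (P a).roots`, `‖β - b‖ ≤ c₁ y/4`, `y/2 ≤ ‖(P a)'(β)‖`.  Then `w ∈ ball a ρ`, `b ∈ (P w).roots`,
`‖b - β‖ ≤ c₁ y/4 ≤ c₁ (y/2)`, so `b = B_β w`.
`cover_le` (`PCV/V11`) with `c = 0`, radii `1` and `R`, `M` = the bound of the claim, and `volume_ball`:
`volume E * (π R²)^m ≤ M (π (1+R)²)^m`, hence `volume E ≤ D C₆ √x^m 4^m R^m / R^(2m) = D C₆ 4^m √x^m R^(-m)`,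
`R^(-m) = (4·2^D/c₂)^m (y⁻¹)^(D m)`.  Take `A = D m`.
-/

open MeasureTheory Set Filter Topology

namespace PCX

open PCV

theorem x7_local (m D : ℕ) (hm : 1 ≤ m) (hD : 1 ≤ D) (P : (Fin m → ℂ) → Polynomial ℂ)
    (hP : PFam m D P) : ∃ (C₆ c₂ : ℝ), 0 < C₆ ∧ 0 < c₂ ∧ c₂ ≤ 1 / 4 ∧
      ∀ (x y R : ℝ) (a : Fin m → ℂ), 0 < x → x ≤ 1 → 0 < y → y ≤ 1 →
        R = c₂ * (y / 2) ^ D / 4 → ‖a‖ ≤ 1 + R →
        volume ({w : Fin m → ℂ | ‖w‖ ≤ 1 ∧ ∃ b ∈ (P w).roots, (1 - x) * Real.sqrt (nw w) ≤ ‖b‖ ∧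
        y ≤ ‖(P w).derivative.eval b‖} ∩ Metric.closedBall a R) ≤
          ENNReal.ofReal (D * (C₆ * Real.sqrt x ^ m * R ^ m)) := by
  classical
  obtain ⟨c₁, c₂, hc₁, hc₁1, hc₂, hc₂1, hbr⟩ := branch m D hD P hP
  obtain ⟨C₆, hC₆, hloc⟩ := local_vol m hm
  refine ⟨C₆, c₂, hC₆, hc₂, hc₂1, ?_⟩
  intro x y R a hx hx1 hy hy1 hR ha
  have hy2 : (y / 2) ^ D ≤ 1 := pow_le_one₀ (by positivity) (by linarith)
  have hy2' : 0 < (y / 2) ^ D := by positivity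
  have hRpos : 0 < R := by rw [hR]; positivity
  have hρ : c₂ * (y / 2) ^ D = 4 * R := by rw [hR]; ring
  have hR1 : 4 * R ≤ 1 / 4 := by
    rw [← hρ]
    calc c₂ * (y / 2) ^ D ≤ 1 / 4 * 1 := by gcongr
      _ = 1 / 4 := mul_one _
  have hyD : (y / 2) ^ D ≤ y ^ D := pow_le_pow_left₀ (by positivity) (by linarith) D
  have hR4 : 4 * R ≤ c₂ * y ^ D := by
    rw [← hρ]
    gcongr
  have hchoice : ∀ β : ℂ, ∃ B : (Fin m → ℂ) → ℂ, β ∈ (P a).roots →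
      y / 2 ≤ ‖(P a).derivative.eval β‖ → AnalyticOnNhd ℂ B (Metric.ball a (4 * R)) ∧
      ∀ w ∈ Metric.ball a (4 * R), B w ∈ (P w).roots ∧
          ∀ b' ∈ (P w).roots, ‖b' - β‖ ≤ c₁ * (y / 2) → b' = B w := by
    intro β
    by_cases h : β ∈ (P a).roots ∧ y / 2 ≤ ‖(P a).derivative.eval β‖
    · obtain ⟨B, hB1, hB2⟩ := hbr (y / 2) a β (by positivity) (by linarith) (by linarith) h.1 h.2
      rw [hρ] at hB1 hB2
      exact ⟨B, fun _ _ => ⟨hB1, fun w hw => ⟨(hB2 w hw).1, (hB2 w hw).2.2.2⟩⟩⟩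
    · exact ⟨0, fun h1 h2 => absurd ⟨h1, h2⟩ h⟩
  choose B hB using hchoice
  obtain ⟨T, hT⟩ : ∃ T : Finset ℂ,
      T = (P a).roots.toFinset.filter (fun β => y / 2 ≤ ‖(P a).derivative.eval β‖) := ⟨_, rfl⟩
  have hTmem : ∀ β ∈ T, β ∈ (P a).roots ∧ y / 2 ≤ ‖(P a).derivative.eval β‖ := by
    intro β hβ
    rw [hT, Finset.mem_filter, Multiset.mem_toFinset] at hβ
    exact hβ
  have hTcard : T.card ≤ D := by
    rw [hT]
    refine (Finset.card_filter_le _ _).trans ((Multiset.toFinset_card_le _).trans ?_)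
    rw [← hP.deg a]
    exact (P a).card_roots'
  have hincl : {w : Fin m → ℂ | ‖w‖ ≤ 1 ∧ ∃ b ∈ (P w).roots, (1 - x) * Real.sqrt (nw w) ≤ ‖b‖ ∧
        y ≤ ‖(P w).derivative.eval b‖} ∩ Metric.closedBall a R ⊆
      ⋃ β ∈ T, {w | ‖w - a‖ ≤ 5 / 4 * R ∧ (1 - x) * Real.sqrt (nw w) ≤ ‖B β w‖} := by
    rintro w ⟨⟨hw1, b, hb, hb1, hb2⟩, hwa⟩
    rw [mem_closedBall_iff_norm] at hwa
    obtain ⟨B', hB'1, hB'2⟩ := hbr y w b hy hy1 (by linarith) hb hb2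
    have hain : a ∈ Metric.ball w (c₂ * y ^ D) := by
      rw [mem_ball_iff_norm, norm_sub_rev]
      linarith
    obtain ⟨g1, g2, g3, _⟩ := hB'2 a hain
    have hβT : B' a ∈ T := by
      rw [hT, Finset.mem_filter, Multiset.mem_toFinset]
      exact ⟨g1, g3⟩
    rw [Set.mem_iUnion₂]
    refine ⟨B' a, hβT, by linarith, ?_⟩
    have hwin : w ∈ Metric.ball a (4 * R) := by
      rw [mem_ball_iff_norm]
      linarith
    have h3 := ((hB (B' a) g1 g3).2 w hwin).2 b hb (by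
      rw [norm_sub_rev]
      refine g2.trans ?_
      have : 0 < c₁ * y := by positivity
      linarith)
    rw [← h3]
    exact hb1
  refine (measure_mono hincl).trans ((measure_biUnion_finset_le _ _).trans ?_)
  have hterm : ∀ β ∈ T, volume {w | ‖w - a‖ ≤ 5 / 4 * R ∧
      (1 - x) * Real.sqrt (nw w) ≤ ‖B β w‖} ≤ ENNReal.ofReal (C₆ * Real.sqrt x ^ m * R ^ m) := by
    intro β hβ
    obtain ⟨h1, h2⟩ := hTmem β hβ
    obtain ⟨h3, h4⟩ := hB β h1 h2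
    have hsub : Metric.closedBall a (3 * R) ⊆ Metric.ball a (4 * R) :=
      Metric.closedBall_subset_ball (by linarith)
    refine hloc (B β) a R x hRpos (by linarith) hx hx1 (by linarith) (h3.mono hsub) ?_
    intro w hw
    exact hP.bound w _ (h4 w (hsub hw)).1
  refine (Finset.sum_le_card_nsmul _ _ _ hterm).trans ?_
  rw [nsmul_eq_mul, ENNReal.ofReal_mul (Nat.cast_nonneg D), ENNReal.ofReal_natCast]
  gcongr

theorem meas (m D : ℕ) (P : (Fin m → ℂ) → Polynomial ℂ) (hP : PFam m D P) :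
    ∃ (C : ℝ) (A : ℕ), 0 < C ∧ ∀ x y : ℝ, 0 < x → x ≤ 1 → 0 < y → y ≤ 1 →
      volume {w : Fin m → ℂ | ‖w‖ ≤ 1 ∧ ∃ b ∈ (P w).roots, (1 - x) * Real.sqrt (nw w) ≤ ‖b‖ ∧
        y ≤ ‖(P w).derivative.eval b‖} ≤ ENNReal.ofReal (C * y⁻¹ ^ A * Real.sqrt x ^ m) := by
  rcases Nat.eq_zero_or_pos D with hD | hD
  · refine ⟨1, 0, one_pos, ?_⟩
    intro x y _ _ _ _
    have h0 : {w : Fin m → ℂ | ‖w‖ ≤ 1 ∧ ∃ b ∈ (P w).roots, (1 - x) * Real.sqrt (nw w) ≤ ‖b‖ ∧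
        y ≤ ‖(P w).derivative.eval b‖} = ∅ := by
      rw [Set.eq_empty_iff_forall_notMem]
      rintro w ⟨_, b, hb, _⟩
      have h1 := (P w).card_roots'
      rw [hP.deg w, hD] at h1
      have h2 : (P w).roots = 0 := by
        rw [← Multiset.card_eq_zero]
        omega
      rw [h2] at hb
      simp at hb
    rw [h0, measure_empty]
    exact bot_le
  rcases Nat.eq_zero_or_pos m with hm | hm
  · subst hm
    refine ⟨1, 0, one_pos, ?_⟩
    intro x y _ _ _ _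
    have h1 : {w : Fin 0 → ℂ | ‖w‖ ≤ 1 ∧ ∃ b ∈ (P w).roots, (1 - x) * Real.sqrt (nw w) ≤ ‖b‖ ∧
        y ≤ ‖(P w).derivative.eval b‖} ⊆ Metric.closedBall 0 1 := by
      intro w hw
      rw [mem_closedBall_zero_iff]
      exact hw.1
    refine (measure_mono h1).trans ?_
    rw [volume_ball 0 0 1 zero_le_one]
    simp
  · obtain ⟨C₆, c₂, hC₆, hc₂, hc₂1, hloc⟩ := x7_local m D hm hD P hP
    refine ⟨D * C₆ * 4 ^ m * (4 * 2 ^ D / c₂) ^ m, D * m, ?_, ?_⟩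
    · have : (0 : ℝ) < D := by exact_mod_cast hD
      positivity
    intro x y hx hx1 hy hy1
    obtain ⟨R, hR⟩ : ∃ R : ℝ, R = c₂ * (y / 2) ^ D / 4 := ⟨_, rfl⟩
    have hRpos : 0 < R := by rw [hR]; positivity
    have hR1 : R ≤ 1 := by
      rw [hR]
      have hy2 : (y / 2) ^ D ≤ 1 := pow_le_one₀ (by positivity) (by linarith)
      have : c₂ * (y / 2) ^ D ≤ 1 / 4 * 1 := by gcongr
      linarith
    have hcov := cover_le m {w : Fin m → ℂ | ‖w‖ ≤ 1 ∧ ∃ b ∈ (P w).roots,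
        (1 - x) * Real.sqrt (nw w) ≤ ‖b‖ ∧ y ≤ ‖(P w).derivative.eval b‖} 0 1 R hRpos
        (by
          intro w hw
          rw [mem_closedBall_zero_iff]
          exact hw.1)
        (ENNReal.ofReal (D * (C₆ * Real.sqrt x ^ m * R ^ m)))
        (by
          intro a ha
          rw [mem_closedBall_zero_iff] at ha
          exact hloc x y R a hx hx1 hy hy1 hR ha)
    have hpi := Real.pi_pos
    have hsx : 0 ≤ Real.sqrt x := Real.sqrt_nonneg _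
    rw [volume_ball m 0 R hRpos.le, volume_ball m 0 (1 + R) (by linarith),
      ← ENNReal.ofReal_mul (by positivity)] at hcov
    have ht : 0 < (Real.pi * R ^ 2) ^ m := by positivity
    rw [← ENNReal.le_div_iff_mul_le (Or.inl (ENNReal.ofReal_pos.2 ht).ne')
      (Or.inl ENNReal.ofReal_ne_top), ← ENNReal.ofReal_div_of_pos ht] at hcov
    refine hcov.trans (ENNReal.ofReal_le_ofReal ?_)
    rw [div_le_iff₀ ht]
    have e1 : (Real.pi * (1 + R) ^ 2) ^ m ≤ (Real.pi * 4) ^ m := by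
      apply pow_le_pow_left₀ (by positivity)
      gcongr
      nlinarith
    have e2 : R * (4 * 2 ^ D / c₂) * y⁻¹ ^ D = 1 := by
      rw [hR, div_pow, inv_pow]
      field_simp
    have e3 : (4 * 2 ^ D / c₂) ^ m * y⁻¹ ^ (D * m) * R ^ m = 1 := by
      rw [pow_mul, ← mul_pow, ← mul_pow]
      have : 4 * 2 ^ D / c₂ * y⁻¹ ^ D * R = R * (4 * 2 ^ D / c₂) * y⁻¹ ^ D := by ring
      rw [this, e2, one_pow]
    calc D * (C₆ * Real.sqrt x ^ m * R ^ m) * (Real.pi * (1 + R) ^ 2) ^ m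
        ≤ D * (C₆ * Real.sqrt x ^ m * R ^ m) * (Real.pi * 4) ^ m := by gcongr
      _ = D * (C₆ * Real.sqrt x ^ m * R ^ m) * (Real.pi * 4) ^ m *
          ((4 * 2 ^ D / c₂) ^ m * y⁻¹ ^ (D * m) * R ^ m) := by rw [e3, mul_one]
      _ = D * C₆ * 4 ^ m * (4 * 2 ^ D / c₂) ^ m * y⁻¹ ^ (D * m) * Real.sqrt x ^ m *
          (Real.pi * R ^ 2) ^ m := by
          rw [mul_pow, mul_pow, ← pow_mul]
          ring

end PCX
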